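import Mathlib

namespace Pool.Agent.Helper344.Ent

open Complex Filter Topology
open scoped Real

/-- `P z = θ₃(z | τ)` -/
noncomputable def P (τ z : ℂ) : ℂ := jacobiTheta₂ z τ
/-- `Q z = θ₄(z | τ)` -/
noncomputable def Q (τ z : ℂ) : ℂ := P τ (z + 1 / 2)
/-- `R z = θ₂(z | τ)` -/
noncomputable def R (τ z : ℂ) : ℂ :=
  cexp (π * I * τ / 4 + π * I * z) * jacobiTheta₂ (z + τ / 2) τ
/-- `S z = -θ₁(z | τ)` -/
noncomputable def S (τ z : ℂ) : ℂ := R τ (z + 1 / 2)
/-- `A z = θ₃(2z | 2τ)` -/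
noncomputable def A (τ z : ℂ) : ℂ := jacobiTheta₂ (2 * z) (2 * τ)
/-- `B z = θ₂(2z | 2τ)` -/
noncomputable def B (τ z : ℂ) : ℂ :=
  cexp (2 * π * I * z + π * I * τ / 2) * jacobiTheta₂ (2 * z + τ) (2 * τ)

/-- factor of the product for the odd theta function, nome `exp (-π)` -/
noncomputable def qf (n : ℕ) (w : ℂ) : ℂ :=
  (1 - cexp (-2 * π * (n + 1) + 2 * π * I * w)) * (1 - cexp (-2 * π * (n + 1) - 2 * π * I * w))
noncomputable def Kp (w : ℂ) : ℂ := ∏' n : ℕ, qf n w
/-- product form of the odd theta function of the lattice `ℤ + ℤ i` -/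
noncomputable def Th (w : ℂ) : ℂ := (1 - cexp (2 * π * I * w)) * Kp w

noncomputable def kap : ℂ := P I 0 / Q I 0

/-- parametrisation of the elliptic curve `a² = p² + q²`, `d² = p² - q²` -/
noncomputable def G (z : ℂ) : Fin 4 → ℂ := ![Q I z, R I z, kap * P I z, kap * S I z]

/-- the affine cone (without vertex) over the elliptic curve -/
def Xset : Set (Fin 4 → ℂ) :=
  {v | v 2 ^ 2 = v 0 ^ 2 + v 1 ^ 2 ∧ v 3 ^ 2 = v 0 ^ 2 - v 1 ^ 2 ∧ (v 0 ≠ 0 ∨ v 1 ≠ 0)}

/-- translation by the point of order two -/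
def Tw (v : Fin 4 → ℂ) : Fin 4 → ℂ := ![v 0, - v 1, v 2, - v 3]

/-- factor of automorphy for the period `2 m + 2 n i` -/
noncomputable def jj (n : ℤ) (w : ℂ) : ℂ := cexp (4 * π * (n : ℂ) ^ 2 - 4 * π * I * n * w)

/-- the winding number in the first variable of a nowhere zero function is `k` -/
def Wind2 (U : ℝ × ℝ → ℂ) (k : ℤ) : Prop :=
  ∃ c : ℝ × ℝ → ℂ, Continuous c ∧ (∀ x, U x = cexp (2 * π * I * c x)) ∧
    ∀ x : ℝ × ℝ, c (x.1 + 1, x.2) = c x + k

noncomputable def sv (z : ℂ) : ℂ := cexp (2 * π * I * z)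

/-- the function on `ℂ* × ℂ` (pulled back to `ℂ × ℂ` by `s = exp (2 π i z)`) with coordinates `f`
with respect to the basis `1, s, t, s t` over the entire functions of `(s + 1/s, t²)` -/
noncomputable def EV (f : Fin 4 → ℂ × ℂ → ℂ) (x : ℂ × ℂ) : ℂ :=
  f 0 (sv x.1 + (sv x.1)⁻¹, x.2 ^ 2) + f 1 (sv x.1 + (sv x.1)⁻¹, x.2 ^ 2) * sv x.1 +
    f 2 (sv x.1 + (sv x.1)⁻¹, x.2 ^ 2) * x.2 + f 3 (sv x.1 + (sv x.1)⁻¹, x.2 ^ 2) * (sv x.1 * x.2)

/-- polynomials with integer coefficients: lists of monomials (coefficient, list of variables) -/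
abbrev Pol := List (ℤ × List ℕ)

def evalP (ρ : ℕ → ℂ) (p : Pol) : ℂ := (p.map fun m => (m.1 : ℂ) * (m.2.map ρ).prod).sum

/-- the system `S` has a solution in entire functions of `n` variables;
the variables with number `i < n` are the coordinate functions -/
def Solv (n : ℕ) (S : List Pol) : Prop :=
  ∃ ρ : ℕ → (Fin n → ℂ) → ℂ, (∀ j, Differentiable ℂ (ρ j)) ∧
    (∀ (i : Fin n) (z : Fin n → ℂ), ρ i z = z i) ∧ ∀ p ∈ S, ∀ z, evalP (fun j => ρ j z) p = 0

def padd (p q : Pol) : Pol := p ++ q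
def pneg (p : Pol) : Pol := p.map fun m => (-m.1, m.2)
def pmul (p q : Pol) : Pol := p.flatMap fun m => q.map fun k => (m.1 * k.1, m.2 ++ k.2)
def pvar (j : ℕ) : Pol := [(1, [j])]
def pone : Pol := [(1, [])]

/-- expressions for functions on `ℂ* × ℂ` -/
inductive Ex : Type
  | var (j : ℕ) : Ex
  | one : Ex
  | es : Ex
  | et : Ex
  | add (a b : Ex) : Ex
  | sub (a b : Ex) : Ex
  | mul (a b : Ex) : Ex
  | sig (a : Ex) : Ex

open Ex

noncomputable def evF (w : ℕ → ℂ × ℂ → ℂ) : Ex → ℂ × ℂ → ℂ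
  | var j => w j
  | one => fun _ => 1
  | es => fun x => sv x.1
  | et => fun x => x.2
  | add a b => fun x => evF w a x + evF w b x
  | sub a b => fun x => evF w a x - evF w b x
  | mul a b => fun x => evF w a x * evF w b x
  | sig a => fun x => evF w a (x.1, -x.2)

/-- coordinates of an expression with respect to `1, s, t, s t`; variable `0` is `s + 1/s`, variable
`1` is `t²`, variable `2 + 4 j + c` is coordinate `c` of the unknown `j` -/
def code : Ex → Fin 4 → Pol
  | var j => fun c => pvar (2 + 4 * j + c)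
  | one => ![pone, [], [], []]
  | es => ![[], pone, [], []]
  | et => ![[], [], pone, []]
  | add a b => fun c => padd (code a c) (code b c)
  | sub a b => fun c => padd (code a c) (pneg (code b c))
  | mul a b =>
    let x := code a
    let y := code b
    ![padd (padd (pmul (x 0) (y 0)) (pneg (pmul (x 1) (y 1))))
        (pmul (pvar 1) (padd (pmul (x 2) (y 2)) (pneg (pmul (x 3) (y 3))))),
      padd (padd (padd (pmul (x 0) (y 1)) (pmul (x 1) (y 0))) (pmul (pvar 0) (pmul (x 1) (y 1))))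
        (pmul (pvar 1) (padd (padd (pmul (x 2) (y 3)) (pmul (x 3) (y 2)))
          (pmul (pvar 0) (pmul (x 3) (y 3))))),
      padd (padd (pmul (x 0) (y 2)) (pmul (x 2) (y 0)))
        (pneg (padd (pmul (x 1) (y 3)) (pmul (x 3) (y 1)))),
      padd (padd (padd (pmul (x 0) (y 3)) (pmul (x 3) (y 0)))
        (padd (pmul (x 1) (y 2)) (pmul (x 2) (y 1))))
        (pmul (pvar 0) (padd (pmul (x 1) (y 3)) (pmul (x 3) (y 1))))]
  | sig a => ![code a 0, code a 1, pneg (code a 2), pneg (code a 3)]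

def s4 : Ex := mul (mul es es) (mul es es)
def two : Ex := add one one
def three : Ex := add one (add one one)

/-- the equations of a point of the cone: coordinates `i, i+1, i+2, i+3`, Bezout cofactors `k, k+1` -/
def tPt (i k : ℕ) : List Ex :=
  [sub (mul (var (i + 2)) (var (i + 2))) (add (mul (var i) (var i)) (mul (var (i + 1)) (var (i + 1)))),
   sub (mul (var (i + 3)) (var (i + 3))) (sub (mul (var i) (var i)) (mul (var (i + 1)) (var (i + 1)))),
   sub (add (mul (var k) (var i)) (mul (var (k + 1)) (var (i + 1)))) one]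

/-- the gluing equations `v_j(s, a) = U v_j(s, -a)` with `d = t - a`, certificates `h, .., h+3` -/
def tGl (i h : ℕ) (U d : Ex) : List Ex :=
  [sub (sub (var i) (mul U (sig (var i)))) (mul d (var h)),
   sub (sub (var (i + 1)) (mul U (sig (var (i + 1))))) (mul d (var (h + 1))),
   sub (sub (var (i + 2)) (mul U (sig (var (i + 2))))) (mul d (var (h + 2))),
   sub (sub (var (i + 3)) (mul U (sig (var (i + 3))))) (mul d (var (h + 3)))]

/-- twisted gluing at `t = 3` -/
def tTw (i h : ℕ) : List Ex :=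
  [sub (sub (var i) (sig (var i))) (mul (sub et three) (var h)),
   sub (add (var (i + 1)) (sig (var (i + 1)))) (mul (sub et three) (var (h + 1))),
   sub (sub (var (i + 2)) (sig (var (i + 2)))) (mul (sub et three) (var (h + 2))),
   sub (add (var (i + 3)) (sig (var (i + 3)))) (mul (sub et three) (var (h + 3)))]

/-- `v = v'` along `s = 1` -/
def tEq (i i' h : ℕ) : List Ex :=
  [sub (sub (var i) (var i')) (mul (sub es one) (var h)),
   sub (sub (var (i + 1)) (var (i' + 1))) (mul (sub es one) (var (h + 1))),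
   sub (sub (var (i + 2)) (var (i' + 2))) (mul (sub es one) (var (h + 2))),
   sub (sub (var (i + 3)) (var (i' + 3))) (mul (sub es one) (var (h + 3)))]

/-- the multiplication relation between the unknowns `0`, `1` and `k` -/
def tMulG (k : ℕ) : List Ex :=
  [sub (mul (var 0) (var 3)) one, sub (mul (var 1) (var 4)) one, sub (mul (var k) (var 5)) one] ++
  tPt 6 14 ++ tPt 10 16 ++
  tGl 6 18 s4 (sub et one) ++ tGl 6 22 (var 1) (sub et two) ++ tTw 6 26 ++
  tGl 10 30 (var 0) (sub et one) ++ tGl 10 34 (var k) (sub et two) ++ tTw 10 38 ++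
  tEq 6 10 42

def tMul : List Ex := tMulG 2
def tAdd : List Ex := sub (var 2) (mul (var 0) (var 1)) :: tMulG 46
def tOne : List Ex := [sub (var 0) s4]

def codes (T : List Ex) : List Pol := T.flatMap fun e => [code e 0, code e 1, code e 2, code e 3]

def tT (k : ℕ) : List Ex := if k = 0 then tOne else if k = 1 then tAdd else tMul

def tcode (k : ℕ) : List Pol := codes (tT k)

/-- global numbers of the variables of the template for the constraint `c` -/
def ren (n : ℕ) (c : ℕ × ℕ × ℕ × ℕ) (m : ℕ) : ℕ :=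
  if m < 2 then m
  else if m < 6 then n + 2 * (4 * c.2.1 + (m - 2))
  else if m < 10 then n + 2 * (4 * c.2.2.1 + (m - 6))
  else if m < 14 then n + 2 * (4 * c.2.2.2 + (m - 10))
  else n + 2 * Nat.pair (Nat.pair c.1 (Nat.pair c.2.1 (Nat.pair c.2.2.1 c.2.2.2))) m + 1

def tr (n : ℕ) (C : List (ℕ × ℕ × ℕ × ℕ)) : List Pol :=
  C.flatMap fun c => (tcode c.1).map fun p => p.map fun mo => (mo.1, mo.2.map (ren n c))

/-- integer constraints: kind `0`: `x_i = 1`, kind `1`: `x_i + x_j = x_k`, else `x_i x_j = x_k` -/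
def sat (x : ℕ → ℤ) (c : ℕ × ℕ × ℕ × ℕ) : Prop :=
  if c.1 = 0 then x c.2.1 = 1 else if c.1 = 1 then x c.2.1 + x c.2.2.1 = x c.2.2.2
  else x c.2.1 * x c.2.2.1 = x c.2.2.2

def ZSolv (C : List (ℕ × ℕ × ℕ × ℕ)) : Prop := ∃ x : ℕ → ℤ, ∀ c ∈ C, sat x c

/-- all equations of the list `T` hold for the functions `w` -/
def SatF (w : ℕ → ℂ × ℂ → ℂ) (T : List Ex) : Prop := ∀ e ∈ T, ∀ x, evF w e x = 0

/-- `w` is holomorphic on `ℂ* × ℂ` -/
def Hol (f : ℂ × ℂ → ℂ) : Prop := Differentiable ℂ f ∧ ∀ z t, f (z + 1, t) = f (z, t)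

/-- the unit `s ^ (4 k)` -/
noncomputable def sp (k : ℤ) (x : ℂ × ℂ) : ℂ := cexp (8 * π * I * k * x.1)

def res (f : ℂ × ℂ → ℂ) (x : ℝ × ℝ) : ℂ := f ((x.1 : ℂ), (x.2 : ℂ))

end Pool.Agent.Helper344.Ent
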