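import Pool.Agent.Helper344.Ent.Defs



namespace Pool.Agent.Helper344.Ent
open Complex Filter Topology
open scoped Real


theorem P0_ne : P I 0 ≠ 0 := by
  intro h0
  have h := hasSum_jacobiTheta₂_term 0 (τ := I) (by simp)
  have e : ∀ n : ℤ, (jacobiTheta₂_term n 0 I).re = Real.exp (-(π * (n : ℝ) ^ 2)) := by
    intro n
    have h1 : jacobiTheta₂_term n 0 I = ((Real.exp (-(π * (n : ℝ) ^ 2)) : ℝ) : ℂ) := by
      unfold jacobiTheta₂_term
      rw [Complex.ofReal_exp]
      congr 1
      push_cast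
      linear_combination (π * (n : ℂ) ^ 2) * Complex.I_mul_I
    rw [h1, Complex.ofReal_re]
  have hre := Complex.hasSum_re h
  simp only [e] at hre
  have h2 := le_hasSum hre 0 (fun n _ => (Real.exp_pos _).le)
  have h3 : jacobiTheta₂ 0 I = 0 := h0
  rw [h3] at h2
  norm_num at h2

end Pool.Agent.Helper344.Ent
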