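import Pool.Agent.Helper344.Ent.Defs



namespace Pool.Agent.Helper344.Ent
open Complex Filter Topology
open scoped Real


theorem P_S (z : ℂ) : S I z = I * cexp (- π / 4 + π * I * z) * P I (z + (1 + I) / 2) := by
  have h1 : cexp (π / 2 * I) = I := by
    rw [Complex.exp_mul_I, Complex.cos_pi_div_two, Complex.sin_pi_div_two]
    ring
  have h2 : cexp (π * I * I / 4 + π * I * (z + 1 / 2)) = I * cexp (- π / 4 + π * I * z) := by
    have e : (π : ℂ) * I * I / 4 + π * I * (z + 1 / 2) = π / 2 * I + (- π / 4 + π * I * z) := by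
      linear_combination (π : ℂ) / 4 * Complex.I_sq
    rw [e, Complex.exp_add, h1]
  unfold S R P
  rw [h2]
  congr 2
  ring

end Pool.Agent.Helper344.Ent
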