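import Pool.Agent.Helper344.Ent.Defs



namespace Pool.Agent.Helper344.Ent
open Complex Filter Topology
open scoped Real


theorem Kp_diff_bound (n : ℕ) (w : ℂ) (r : ℝ) (hw : ‖w‖ ≤ r) :
    ‖qf n w - 1‖ ≤ (2 * Real.exp (2 * π * r) + 1) * Real.exp (-(2 * π)) ^ (n + 1) := by
  have hpi := Real.pi_pos
  have him := abs_le.mp ((Complex.abs_im_le_norm w).trans hw)
  have he : Real.exp (-(2 * π)) ^ (n + 1) = Real.exp (-(2 * π) * (n + 1)) := by
    rw [← Real.exp_nat_mul]
    congr 1
    push_cast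
    ring
  have h1 : ‖cexp (-2 * π * (n + 1) + 2 * π * I * w)‖ ≤
      Real.exp (2 * π * r) * Real.exp (-(2 * π)) ^ (n + 1) := by
    rw [Complex.norm_exp, he, ← Real.exp_add]
    apply Real.exp_le_exp.mpr
    have h2 : (-2 * (π : ℂ) * (n + 1) + 2 * π * I * w).re = -2 * π * (n + 1) - 2 * π * w.im := by
      simp
      ring
    rw [h2]
    nlinarith [him.1, him.2]
  have h2 : ‖cexp (-2 * π * (n + 1) - 2 * π * I * w)‖ ≤
      Real.exp (2 * π * r) * Real.exp (-(2 * π)) ^ (n + 1) := by
    rw [Complex.norm_exp, he, ← Real.exp_add]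
    apply Real.exp_le_exp.mpr
    have h2 : (-2 * (π : ℂ) * (n + 1) - 2 * π * I * w).re = -2 * π * (n + 1) + 2 * π * w.im := by
      simp
    rw [h2]
    nlinarith [him.1, him.2]
  have h3 : ‖cexp (-2 * π * (n + 1) + 2 * π * I * w) * cexp (-2 * π * (n + 1) - 2 * π * I * w)‖ ≤
      Real.exp (-(2 * π)) ^ (n + 1) := by
    rw [← Complex.exp_add, Complex.norm_exp, he]
    apply Real.exp_le_exp.mpr
    have h2 : (-2 * (π : ℂ) * (n + 1) + 2 * π * I * w + (-2 * (π : ℂ) * (n + 1) - 2 * π * I * w)).re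
        = -4 * π * (n + 1) := by
      simp
      ring
    rw [h2]
    have h4 : (0:ℝ) ≤ n := Nat.cast_nonneg n
    nlinarith [mul_nonneg hpi.le h4]
  have h4 : qf n w - 1 = -cexp (-2 * π * (n + 1) + 2 * π * I * w) -
      cexp (-2 * π * (n + 1) - 2 * π * I * w) +
      cexp (-2 * π * (n + 1) + 2 * π * I * w) * cexp (-2 * π * (n + 1) - 2 * π * I * w) := by
    unfold qf; ring
  rw [h4]
  calc _ ≤ ‖-cexp (-2 * π * (n + 1) + 2 * π * I * w) - cexp (-2 * π * (n + 1) - 2 * π * I * w)‖ +
        ‖cexp (-2 * π * (n + 1) + 2 * π * I * w) * cexp (-2 * π * (n + 1) - 2 * π * I * w)‖ :=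
        norm_add_le _ _
    _ ≤ (‖-cexp (-2 * π * (n + 1) + 2 * π * I * w)‖ + ‖cexp (-2 * π * (n + 1) - 2 * π * I * w)‖) +
        ‖cexp (-2 * π * (n + 1) + 2 * π * I * w) * cexp (-2 * π * (n + 1) - 2 * π * I * w)‖ := by
        gcongr
        exact norm_sub_le _ _
    _ ≤ _ := by
        rw [norm_neg]
        linarith

theorem Kp_diff_summable (r : ℝ) : Summable fun n : ℕ =>
    (2 * Real.exp (2 * π * r) + 1) * Real.exp (-(2 * π)) ^ (n + 1) := by
  apply Summable.mul_left
  apply (summable_nat_add_iff 1).mpr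
  apply summable_geometric_of_lt_one (Real.exp_pos _).le
  rw [Real.exp_lt_one_iff]
  have := Real.pi_pos
  linarith

theorem Kp_diff_qf (n : ℕ) : Differentiable ℂ (qf n) := by
  unfold qf
  fun_prop

theorem Kp_diff : Differentiable ℂ Kp ∧ ∀ w, Multipliable fun n : ℕ => qf n w := by
  refine ⟨?_, ?_⟩
  · intro w
    have hw : w ∈ Metric.ball (0:ℂ) (‖w‖ + 1) := by
      rw [mem_ball_zero_iff]; linarith
    have h1 := (Kp_diff_summable (‖w‖ + 1)).hasProdLocallyUniformlyOn_nat_one_add
      (f := fun n x => qf n x - 1) (K := Metric.ball (0:ℂ) (‖w‖ + 1)) Metric.isOpen_ball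
      (Filter.Eventually.of_forall fun n x hx =>
        Kp_diff_bound n x (‖w‖ + 1) (mem_ball_zero_iff.mp hx).le)
      (fun n => ((Kp_diff_qf n).continuous.sub continuous_const).continuousOn)
    have h2 : DifferentiableOn ℂ (fun x => ∏' n, (1 + (qf n x - 1)))
        (Metric.ball (0:ℂ) (‖w‖ + 1)) := by
      refine TendstoLocallyUniformlyOn.differentiableOn h1 (.of_forall fun s => ?_)
        Metric.isOpen_ball
      apply Differentiable.differentiableOn
      simp only [add_sub_cancel]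
      exact Differentiable.fun_finsetProd (fun n _ => Kp_diff_qf n)
    have h3 : (fun x => ∏' n, (1 + (qf n x - 1))) = Kp := by
      funext x
      unfold Kp
      simp only [add_sub_cancel]
    rw [h3] at h2
    exact h2.differentiableAt (Metric.isOpen_ball.mem_nhds hw)
  · intro w
    have h1 : Summable fun n : ℕ => ‖qf n w - 1‖ :=
      Summable.of_nonneg_of_le (fun _ => norm_nonneg _)
        (fun n => Kp_diff_bound n w ‖w‖ le_rfl) (Kp_diff_summable ‖w‖)
    have h2 := multipliable_one_add_of_summable h1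
    simpa only [add_sub_cancel] using h2

end Pool.Agent.Helper344.Ent
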