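import Pool.Agent.Helper344.Ent.Defs
import Pool.Agent.Helper344.Ent.P_Kp_diff



namespace Pool.Agent.Helper344.Ent
open Complex Filter Topology
open scoped Real


theorem Th_mult (w : ℂ) : Th (w + 1) = Th w ∧ Th (w + I) = - cexp (- 2 * π * I * w) * Th w := by
  constructor
  · have h1 : cexp (2 * π * I * (w + 1)) = cexp (2 * π * I * w) := by
      rw [show (2 * π * I * (w + 1) : ℂ) = 2 * π * I * w + 2 * π * I by ring, Complex.exp_add,
        Complex.exp_two_pi_mul_I, mul_one]
    have h2 : ∀ n, qf n (w + 1) = qf n w := by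
      intro n
      unfold qf
      have e1 : cexp (-2 * π * (n + 1) + 2 * π * I * (w + 1)) = cexp (-2 * π * (n + 1) + 2 * π * I * w) := by
        rw [show (-2 * π * (n + 1) + 2 * π * I * (w + 1) : ℂ) =
          (-2 * π * (n + 1) + 2 * π * I * w) + 2 * π * I by ring, Complex.exp_add,
          Complex.exp_two_pi_mul_I, mul_one]
      have e2 : cexp (-2 * π * (n + 1) - 2 * π * I * (w + 1)) = cexp (-2 * π * (n + 1) - 2 * π * I * w) := by
        rw [show (-2 * π * (n + 1) - 2 * π * I * w : ℂ) =
          (-2 * π * (n + 1) - 2 * π * I * (w + 1)) + 2 * π * I by ring, Complex.exp_add,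
          Complex.exp_two_pi_mul_I, mul_one]
      rw [e1, e2]
    unfold Th Kp
    rw [h1]
    simp only [h2]
  · let α : ℕ → ℂ := fun n => cexp (-2 * π * (n + 1) + 2 * π * I * w)
    let γ : ℕ → ℂ := fun n => cexp (-2 * π * n - 2 * π * I * w)
    have hq : ‖cexp (-2 * π)‖ < 1 := by
      rw [Complex.norm_exp]
      have : (-2 * (π:ℂ)).re = -2 * π := by simp
      rw [this]
      rw [Real.exp_lt_one_iff]
      have := Real.pi_pos
      linarith
    have hα : ∀ n, α n = cexp (-2 * π + 2 * π * I * w) * (cexp (-2 * π)) ^ n := by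
      intro n
      show cexp (-2 * π * (n + 1) + 2 * π * I * w) = _
      rw [← Complex.exp_nat_mul, ← Complex.exp_add]
      congr 1
      ring
    have hγ : ∀ n, γ n = cexp (- 2 * π * I * w) * (cexp (-2 * π)) ^ n := by
      intro n
      show cexp (-2 * π * n - 2 * π * I * w) = _
      rw [← Complex.exp_nat_mul, ← Complex.exp_add]
      congr 1
      ring
    have hαt : Tendsto α atTop (𝓝 0) := by
      have := (tendsto_pow_atTop_nhds_zero_of_norm_lt_one hq).const_mul (cexp (-2 * π + 2 * π * I * w))
      rw [mul_zero] at this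
      exact this.congr (fun n => (hα n).symm)
    have hγt : Tendsto γ atTop (𝓝 0) := by
      have := (tendsto_pow_atTop_nhds_zero_of_norm_lt_one hq).const_mul (cexp (- 2 * π * I * w))
      rw [mul_zero] at this
      exact this.congr (fun n => (hγ n).symm)
    have hqf : ∀ n, qf n w = (1 - α n) * (1 - γ (n + 1)) := by
      intro n
      show (1 - cexp (-2 * π * (n + 1) + 2 * π * I * w)) * (1 - cexp (-2 * π * (n + 1) - 2 * π * I * w)) =
        (1 - cexp (-2 * π * (n + 1) + 2 * π * I * w)) * (1 - cexp (-2 * π * ((n + 1 : ℕ) : ℂ) - 2 * π * I * w))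
      push_cast
      rfl
    have hqf' : ∀ n, qf n (w + I) = (1 - α (n + 1)) * (1 - γ n) := by
      intro n
      show (1 - cexp (-2 * π * (n + 1) + 2 * π * I * (w + I))) * (1 - cexp (-2 * π * (n + 1) - 2 * π * I * (w + I))) =
        (1 - cexp (-2 * π * (((n + 1 : ℕ) : ℂ) + 1) + 2 * π * I * w)) * (1 - cexp (-2 * π * n - 2 * π * I * w))
      have e1 : (-2 * π * (n + 1) + 2 * π * I * (w + I) : ℂ) = -2 * π * (((n + 1 : ℕ) : ℂ) + 1) + 2 * π * I * w := by
        push_cast
        linear_combination (2 * π) * Complex.I_mul_I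
      have e2 : (-2 * π * (n + 1) - 2 * π * I * (w + I) : ℂ) = -2 * π * n - 2 * π * I * w := by
        linear_combination (-2 * π) * Complex.I_mul_I
      rw [e1, e2]
    have htel : ∀ N : ℕ, (1 - α 0) * (∏ n ∈ Finset.range N, qf n (w + I)) * (1 - γ N) =
        (1 - γ 0) * (∏ n ∈ Finset.range N, qf n w) * (1 - α N) := by
      intro N
      induction N with
      | zero => simp; ring
      | succ N ih =>
        rw [Finset.prod_range_succ, Finset.prod_range_succ, hqf, hqf']
        linear_combination (1 - α (N + 1)) * (1 - γ (N + 1)) * ih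
    have hl1 := (((Kp_diff.2 (w + I)).hasProd.tendsto_prod_nat).const_mul (1 - α 0)).mul
      ((tendsto_const_nhds (x := (1:ℂ))).sub hγt)
    have hl2 := (((Kp_diff.2 w).hasProd.tendsto_prod_nat).const_mul (1 - γ 0)).mul
      ((tendsto_const_nhds (x := (1:ℂ))).sub hαt)
    have heq := tendsto_nhds_unique (hl1.congr htel) hl2
    rw [sub_zero, mul_one, mul_one] at heq
    have h0 : cexp (2 * π * I * (w + I)) = α 0 := by
      show _ = cexp (-2 * π * (((0 : ℕ) : ℂ) + 1) + 2 * π * I * w)
      congr 1
      push_cast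
      linear_combination (2 * π) * Complex.I_mul_I
    have h1 : γ 0 = cexp (- 2 * π * I * w) := by
      rw [hγ 0, pow_zero, mul_one]
    unfold Th
    rw [h0]
    have h2 : (1 - α 0) * Kp (w + I) = (1 - γ 0) * Kp w := heq
    rw [h2, h1]
    have h3 : cexp (- 2 * π * I * w) * cexp (2 * π * I * w) = 1 := by
      rw [← Complex.exp_add]
      rw [show (- 2 * π * I * w + 2 * π * I * w : ℂ) = 0 by ring, Complex.exp_zero]
    linear_combination (-Kp w) * h3

end Pool.Agent.Helper344.Ent
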