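import Pool.Agent.Helper344.Ent.Defs
import Pool.Agent.Helper344.Ent.P_Kp_diff



namespace Pool.Agent.Helper344.Ent
open Complex Filter Topology
open scoped Real


theorem j24710_summ (q e1 e2 : ℂ) (hq : ‖q‖ < 1) :
    Summable (fun n : ℕ => ‖(1 - q ^ (n + 1) * e1) * (1 - q ^ (n + 1) * e2) - 1‖) := by
  have hg : Summable (fun n : ℕ => ‖q‖ ^ n * (‖e1‖ + ‖e2‖ + ‖e1‖ * ‖e2‖)) :=
    (summable_geometric_of_lt_one (norm_nonneg _) hq).mul_right _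
  refine Summable.of_nonneg_of_le (fun n => norm_nonneg _) (fun n => ?_) hg
  have h1 : (1 - q ^ (n + 1) * e1) * (1 - q ^ (n + 1) * e2) - 1 =
      -(q ^ (n + 1) * e1) + -(q ^ (n + 1) * e2) + (q ^ (n + 1) * e1) * (q ^ (n + 1) * e2) := by ring
  rw [h1]
  have h0 : 0 ≤ ‖q‖ := norm_nonneg _
  have hn : 0 ≤ ‖q‖ ^ n := pow_nonneg h0 n
  have h2 : ‖q‖ ^ (n + 1) ≤ ‖q‖ ^ n := pow_le_pow_of_le_one h0 hq.le (Nat.le_succ n)
  have h3 : ‖q‖ ^ (n + 1) ≤ 1 := pow_le_one₀ h0 hq.le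
  have e1n := norm_nonneg e1
  have e2n := norm_nonneg e2
  refine (norm_add₃_le).trans ?_
  rw [norm_neg, norm_neg, norm_mul, norm_mul, norm_mul, norm_mul, norm_mul, norm_pow]
  have h4 : ‖q‖ ^ (n + 1) * ‖e1‖ ≤ ‖q‖ ^ n * ‖e1‖ := mul_le_mul_of_nonneg_right h2 e1n
  have h5 : ‖q‖ ^ (n + 1) * ‖e2‖ ≤ ‖q‖ ^ n * ‖e2‖ := mul_le_mul_of_nonneg_right h2 e2n
  have h6 : ‖q‖ ^ (n + 1) * ‖e2‖ ≤ 1 * ‖e2‖ := mul_le_mul_of_nonneg_right h3 e2n
  have h7 : ‖q‖ ^ (n + 1) * ‖e1‖ * (‖q‖ ^ (n + 1) * ‖e2‖) ≤ ‖q‖ ^ n * ‖e1‖ * (1 * ‖e2‖) :=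
    mul_le_mul h4 h6 (by positivity) (by positivity)
  linarith

theorem Kp_zero (w : ℂ) : Kp w = 0 → ∃ n : ℕ, qf n w = 0 := by
  intro h
  by_contra hcon
  push Not at hcon
  set q : ℂ := cexp (-2 * π) with hq
  have hq1 : ‖q‖ < 1 := by
    rw [hq, Complex.norm_exp]
    have : (-2 * (π : ℂ)).re = -2 * π := by simp
    rw [this, Real.exp_lt_one_iff]
    have := Real.pi_pos
    linarith
  have hqn : ∀ n : ℕ, ∀ c : ℂ, cexp (-2 * π * (n + 1) + c) = q ^ (n + 1) * cexp c := by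
    intro n c
    rw [hq, ← Complex.exp_nat_mul, ← Complex.exp_add]
    congr 1
    push_cast
    ring
  have hqf : ∀ n : ℕ, qf n w =
      (1 - q ^ (n + 1) * cexp (2 * π * I * w)) * (1 - q ^ (n + 1) * cexp (-(2 * π * I * w))) := by
    intro n
    unfold qf
    rw [sub_eq_add_neg (-2 * (π : ℂ) * (n + 1)) (2 * π * I * w), hqn, hqn]
  have hs : Summable (fun n : ℕ => ‖qf n w - 1‖) := by
    simp only [hqf]
    exact j24710_summ q _ _ hq1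
  apply tprod_one_add_ne_zero_of_summable (f := fun n : ℕ => qf n w - 1) (fun n => by
    rw [add_sub_cancel]; exact hcon n) hs
  have h2 : (fun n : ℕ => 1 + (qf n w - 1)) = fun n : ℕ => qf n w := by
    funext n; ring
  rw [h2]
  exact h

end Pool.Agent.Helper344.Ent
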