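import Pool.Agent.Helper344.Ent.Defs
import Pool.Agent.Helper344.Ent.P_Kp_zero



namespace Pool.Agent.Helper344.Ent
open Complex Filter Topology
open scoped Real


theorem Th_zero (w : ℂ) (h : Th w = 0) : (∃ m n : ℤ, w = m + n * I) := by
  have hpi : (π : ℂ) ≠ 0 := by exact_mod_cast Real.pi_ne_zero
  have hI : (I : ℂ) * I = -1 := Complex.I_mul_I
  have h2 : (2 * π * I : ℂ) ≠ 0 := Complex.two_pi_I_ne_zero
  rcases mul_eq_zero.mp h with h | h
  · have h1 : cexp (2 * π * I * w) = 1 := (sub_eq_zero.mp h).symm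
    obtain ⟨n, hn⟩ := Complex.exp_eq_one_iff.mp h1
    refine ⟨n, 0, ?_⟩
    have : (2 * π * I : ℂ) * (w - n) = 0 := by linear_combination hn
    rcases mul_eq_zero.mp this with h' | h'
    · exact absurd h' h2
    · push_cast
      linear_combination h'
  · obtain ⟨n, hn⟩ := Kp_zero w h
    unfold qf at hn
    rcases mul_eq_zero.mp hn with h | h
    · have h1 := (sub_eq_zero.mp h).symm
      obtain ⟨k, hk⟩ := Complex.exp_eq_one_iff.mp h1
      refine ⟨k, -((n : ℤ) + 1), ?_⟩
      have : (2 * π * I : ℂ) * (w - (k + (-((n:ℂ) + 1)) * I)) = 0 := by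
        linear_combination hk + (2 * π * (n + 1) : ℂ) * hI
      rcases mul_eq_zero.mp this with h' | h'
      · exact absurd h' h2
      · push_cast
        linear_combination h'
    · have h1 := (sub_eq_zero.mp h).symm
      obtain ⟨k, hk⟩ := Complex.exp_eq_one_iff.mp h1
      refine ⟨-k, (n : ℤ) + 1, ?_⟩
      have : (2 * π * I : ℂ) * (w - (-k + ((n:ℂ) + 1) * I)) = 0 := by
        linear_combination -hk - (2 * π * (n + 1) : ℂ) * hI
      rcases mul_eq_zero.mp this with h' | h'
      · exact absurd h' h2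
      · push_cast
        linear_combination h'

end Pool.Agent.Helper344.Ent
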