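import Pool.Agent.Helper344.Ent.Defs



namespace Pool.Agent.Helper344.Ent
open Complex Filter Topology
open scoped Real


theorem dTheta {τ : ℂ} (hτ : 0 < τ.im) : Differentiable ℂ (fun z => jacobiTheta₂ z τ) :=
  fun z => differentiableAt_jacobiTheta₂_fst z hτ

theorem diffT : Differentiable ℂ (P I) ∧ Differentiable ℂ (Q I) ∧ Differentiable ℂ (R I) ∧
    Differentiable ℂ (S I) ∧ Differentiable ℂ (A I) ∧ Differentiable ℂ (B I) := by
  have h1 : 0 < (I : ℂ).im := by rw [Complex.I_im]; exact one_pos
  have h2 : 0 < (2 * I : ℂ).im := by simp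
  have hP : Differentiable ℂ (P I) := dTheta h1
  have hQ : Differentiable ℂ (Q I) :=
    hP.comp ((differentiable_id).add_const (1 / 2 : ℂ))
  have hR : Differentiable ℂ (R I) := by
    have e1 : Differentiable ℂ (fun z : ℂ => cexp (π * I * I / 4 + π * I * z)) := by fun_prop
    have e2 : Differentiable ℂ (fun z : ℂ => jacobiTheta₂ (z + I / 2) I) :=
      (dTheta h1).comp (differentiable_id.add_const (I / 2))
    exact e1.mul e2
  have hS : Differentiable ℂ (S I) := hR.comp ((differentiable_id).add_const (1 / 2 : ℂ))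
  have hA : Differentiable ℂ (A I) :=
    (dTheta h2).comp (differentiable_id.const_mul (2 : ℂ))
  have hB : Differentiable ℂ (B I) := by
    have e1 : Differentiable ℂ (fun z : ℂ => cexp (2 * π * I * z + π * I * I / 2)) := by fun_prop
    have e2 : Differentiable ℂ (fun z : ℂ => jacobiTheta₂ (2 * z + I) (2 * I)) :=
      (dTheta h2).comp ((differentiable_id.const_mul (2 : ℂ)).add_const I)
    exact e1.mul e2
  exact ⟨hP, hQ, hR, hS, hA, hB⟩

end Pool.Agent.Helper344.Ent
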