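import Pool.Agent.Helper344.Ent.Defs



namespace Pool.Agent.Helper344.Ent
open Complex Filter Topology
open scoped Real


theorem div1 {f g : ℂ → ℂ} (hf : Differentiable ℂ f) (hg : Differentiable ℂ g)
    (h : ∀ z, g z = 0 → f z = 0 ∧ deriv g z ≠ 0) :
    ∃ h : ℂ → ℂ, Differentiable ℂ h ∧ ∀ z, f z = g z * h z := by
  classical
  refine ⟨fun z => if g z = 0 then deriv f z / deriv g z else f z / g z, ?_, ?_⟩
  · intro a
    by_cases ha : g a = 0
    · obtain ⟨hfa, hga⟩ := h a ha
      have hF : Differentiable ℂ (dslope f a) := by
        rw [← differentiableOn_univ]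
        exact (Complex.differentiableOn_dslope univ_mem).mpr hf.differentiableOn
      have hG : Differentiable ℂ (dslope g a) := by
        rw [← differentiableOn_univ]
        exact (Complex.differentiableOn_dslope univ_mem).mpr hg.differentiableOn
      have hGa : dslope g a a ≠ 0 := by rw [dslope_same]; exact hga
      have hev : ∀ᶠ z in 𝓝 a, dslope g a z ≠ 0 := hG.continuous.continuousAt.eventually_ne hGa
      have heq : (fun z => if g z = 0 then deriv f z / deriv g z else f z / g z) =ᶠ[𝓝 a]
          fun z => dslope f a z / dslope g a z := by
        filter_upwards [hev] with z hz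
        by_cases hza : z = a
        · subst hza
          rw [if_pos ha, dslope_same, dslope_same]
        · rw [dslope_of_ne _ hza, slope_def_field, ha, sub_zero] at hz
          have hgz : g z ≠ 0 := by
            intro h0
            apply hz
            rw [h0, zero_div]
          have hzs : z - a ≠ 0 := sub_ne_zero.mpr hza
          rw [if_neg hgz, dslope_of_ne _ hza, dslope_of_ne _ hza, slope_def_field, slope_def_field,
            ha, hfa, sub_zero, sub_zero]
          field_simp
      exact (heq.differentiableAt_iff).mpr ((hF a).div (hG a) hGa)
    · have hev : ∀ᶠ z in 𝓝 a, g z ≠ 0 := hg.continuous.continuousAt.eventually_ne ha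
      have heq : (fun z => if g z = 0 then deriv f z / deriv g z else f z / g z) =ᶠ[𝓝 a]
          fun z => f z / g z := by
        filter_upwards [hev] with z hz
        rw [if_neg hz]
      exact (heq.differentiableAt_iff).mpr ((hf a).div (hg a) ha)
  · intro z
    by_cases hz : g z = 0
    · rw [(h z hz).1, hz, zero_mul]
    · simp only [if_neg hz]
      field_simp

end Pool.Agent.Helper344.Ent
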