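import Pool.Agent.Helper344.Ent.Defs



namespace Pool.Agent.Helper344.Ent
open Complex Filter Topology
open scoped Real


theorem liou {f : ℂ → ℂ} (hf : Differentiable ℂ f) (h1 : ∀ z, f (z + 1) = f z)
    (hI : ∀ z, f (z + I) = f z) : ∃ c, ∀ z, f z = c := by
  have p1 : Function.Periodic f 1 := h1
  have pI : Function.Periodic f I := hI
  have hb : Bornology.IsBounded (Set.range f) := by
    have hc : IsCompact (f '' Metric.closedBall (0 : ℂ) 2) :=
      (isCompact_closedBall (0 : ℂ) 2).image hf.continuous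
    refine hc.isBounded.subset ?_
    rintro _ ⟨z, rfl⟩
    refine ⟨z - (⌊z.re⌋ : ℤ) * 1 - (⌊z.im⌋ : ℤ) * I, ?_, ?_⟩
    · rw [Metric.mem_closedBall, dist_zero_right]
      refine (Complex.norm_le_abs_re_add_abs_im _).trans ?_
      have e1 : (z - (⌊z.re⌋ : ℤ) * 1 - (⌊z.im⌋ : ℤ) * I).re = Int.fract z.re := by
        simp
      have e2 : (z - (⌊z.re⌋ : ℤ) * 1 - (⌊z.im⌋ : ℤ) * I).im = Int.fract z.im := by
        simp
      rw [e1, e2, abs_of_nonneg (Int.fract_nonneg _), abs_of_nonneg (Int.fract_nonneg _)]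
      linarith [Int.fract_lt_one z.re, Int.fract_lt_one z.im]
    · rw [(pI.int_mul ⌊z.im⌋).sub_eq, (p1.int_mul ⌊z.re⌋).sub_eq]
  exact ⟨f 0, fun z => hf.apply_eq_apply_of_bounded hb z 0⟩

end Pool.Agent.Helper344.Ent
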