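import Pool.Agent.Helper344.Ent.Defs



namespace Pool.Agent.Helper344.Ent
open Complex Filter Topology
open scoped Real


theorem mult1 (z : ℂ) : P I (z + 1) = P I z ∧ Q I (z + 1) = Q I z ∧ R I (z + 1) = - R I z ∧
    S I (z + 1) = - S I z ∧ A I (z + 1) = A I z ∧ B I (z + 1) = B I z := by
  have hP : ∀ w : ℂ, P I (w + 1) = P I w := fun w => jacobiTheta₂_add_left w I
  have hR : ∀ w : ℂ, R I (w + 1) = - R I w := by
    intro w
    unfold R
    have e1 : w + 1 + I / 2 = (w + I / 2) + 1 := by ring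
    have e2 : π * I * I / 4 + π * I * (w + 1) = (π * I * I / 4 + π * I * w) + π * I := by ring
    rw [e1, jacobiTheta₂_add_left, e2, Complex.exp_add, Complex.exp_pi_mul_I]
    ring
  have hT : ∀ w : ℂ, jacobiTheta₂ (w + 2) (2 * I) = jacobiTheta₂ w (2 * I) := by
    intro w
    have e : w + 2 = w + 1 + 1 := by ring
    rw [e, jacobiTheta₂_add_left, jacobiTheta₂_add_left]
  refine ⟨hP z, ?_, hR z, ?_, ?_, ?_⟩
  · unfold Q
    have e : z + 1 + 1 / 2 = (z + 1 / 2) + 1 := by ring
    rw [e, hP]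
  · unfold S
    have e : z + 1 + 1 / 2 = (z + 1 / 2) + 1 := by ring
    rw [e, hR]
  · unfold A
    have e : 2 * (z + 1) = 2 * z + 2 := by ring
    rw [e, hT]
  · unfold B
    have e : 2 * (z + 1) + I = (2 * z + I) + 2 := by ring
    have e2 : 2 * π * I * (z + 1) + π * I * I / 2 =
        (2 * π * I * z + π * I * I / 2) + 2 * π * I := by ring
    rw [e, hT, e2, Complex.exp_add, Complex.exp_two_pi_mul_I, mul_one]

end Pool.Agent.Helper344.Ent
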