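import Pool.Agent.Helper344.Ent.Defs



namespace Pool.Agent.Helper344.Ent
open Complex Filter Topology
open scoped Real


theorem multI_P (z : ℂ) : P I (z + I) = cexp (π - 2 * π * I * z) * P I z := by
  unfold P
  rw [jacobiTheta₂_add_left']
  congr 2
  linear_combination (-(π : ℂ)) * I_mul_I

theorem multI_half (z : ℂ) :
    cexp (π - 2 * π * I * (z + 1 / 2)) = - cexp (π - 2 * π * I * z) := by
  have h : (π - 2 * π * I * (z + 1 / 2) : ℂ) = (π - 2 * π * I * z) - π * I := by ring
  rw [h, Complex.exp_sub, Complex.exp_pi_mul_I]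
  ring

theorem multI_R (z : ℂ) : R I (z + I) = cexp (π - 2 * π * I * z) * R I z := by
  unfold R
  have h : z + I + I / 2 = (z + I / 2) + I := by ring
  rw [h, jacobiTheta₂_add_left', ← mul_assoc, ← mul_assoc, ← Complex.exp_add, ← Complex.exp_add]
  congr 2
  linear_combination (-(π : ℂ)) * I_mul_I

theorem multI (z : ℂ) : P I (z + I) = cexp (π - 2 * π * I * z) * P I z ∧
    Q I (z + I) = - cexp (π - 2 * π * I * z) * Q I z ∧
    R I (z + I) = cexp (π - 2 * π * I * z) * R I z ∧
    S I (z + I) = - cexp (π - 2 * π * I * z) * S I z ∧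
    A I (z + I) = cexp (2 * π - 4 * π * I * z) * A I z ∧
    B I (z + I) = cexp (2 * π - 4 * π * I * z) * B I z := by
  refine ⟨multI_P z, ?_, multI_R z, ?_, ?_, ?_⟩
  · unfold Q
    have h : z + I + 1 / 2 = (z + 1 / 2) + I := by ring
    rw [h, multI_P, multI_half]
  · unfold S
    have h : z + I + 1 / 2 = (z + 1 / 2) + I := by ring
    rw [h, multI_R, multI_half]
  · unfold A
    have h : 2 * (z + I) = 2 * z + 2 * I := by ring
    rw [h, jacobiTheta₂_add_left']
    congr 2
    linear_combination (-2 * (π : ℂ)) * I_mul_I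
  · unfold B
    have h : 2 * (z + I) + I = (2 * z + I) + 2 * I := by ring
    rw [h, jacobiTheta₂_add_left', ← mul_assoc, ← mul_assoc, ← Complex.exp_add, ← Complex.exp_add]
    congr 2
    linear_combination (-2 * (π : ℂ)) * I_mul_I

end Pool.Agent.Helper344.Ent
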