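import Pool.Agent.Helper344.Ent.Defs



namespace Pool.Agent.Helper344.Ent
open Complex Filter Topology
open scoped Real


theorem R_neg_aux (τ z : ℂ) : R τ (-z) = R τ z := by
  unfold R
  have h1 : jacobiTheta₂ (-z + τ / 2) τ = jacobiTheta₂ (z - τ / 2) τ := by
    rw [← jacobiTheta₂_neg_left]
    congr 1
    ring
  have h2 : jacobiTheta₂ (z + τ / 2) τ =
      cexp (-π * I * (τ + 2 * (z - τ / 2))) * jacobiTheta₂ (z - τ / 2) τ := by
    rw [← jacobiTheta₂_add_left']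
    congr 1
    ring
  rw [h1, h2, ← mul_assoc, ← Complex.exp_add]
  congr 2
  ring

theorem R_add_one_aux (τ z : ℂ) : R τ (z + 1) = - R τ z := by
  unfold R
  have h1 : jacobiTheta₂ (z + 1 + τ / 2) τ = jacobiTheta₂ (z + τ / 2) τ := by
    rw [← jacobiTheta₂_add_left (z + τ / 2)]
    congr 1
    ring
  have h2 : (π * I * τ / 4 + π * I * (z + 1) : ℂ) = (π * I * τ / 4 + π * I * z) + π * I := by
    ring
  rw [h1, h2, Complex.exp_add, Complex.exp_pi_mul_I]
  ring

theorem parity (τ z : ℂ) : P τ (-z) = P τ z ∧ Q τ (-z) = Q τ z ∧ R τ (-z) = R τ z ∧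
    S τ (-z) = - S τ z := by
  refine ⟨jacobiTheta₂_neg_left z τ, ?_, R_neg_aux τ z, ?_⟩
  · unfold Q P
    have h1 : jacobiTheta₂ (-z + 1 / 2) τ = jacobiTheta₂ (z - 1 / 2) τ := by
      rw [← jacobiTheta₂_neg_left]
      congr 1
      ring
    rw [h1, ← jacobiTheta₂_add_left (z - 1 / 2)]
    congr 1
    ring
  · unfold S
    have h1 : (-z + 1 / 2 : ℂ) = -(z - 1 / 2) := by ring
    have h2 : (z + 1 / 2 : ℂ) = (z - 1 / 2) + 1 := by ring
    rw [h1, R_neg_aux, h2, R_add_one_aux, neg_neg]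

end Pool.Agent.Helper344.Ent
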