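import Pool.Agent.Helper344.Ent.Defs
import Pool.Agent.Helper344.Ent.P_parity
import Pool.Agent.Helper344.Ent.P_diffT
import Pool.Agent.Helper344.Ent.P_mult1
import Pool.Agent.Helper344.Ent.P_multI
import Pool.Agent.Helper344.Ent.P_P_S
import Pool.Agent.Helper344.Ent.P_P0_ne
import Pool.Agent.Helper344.Ent.P_div1
import Pool.Agent.Helper344.Ent.P_liou
import Pool.Agent.Helper344.Ent.P_Kp_diff
import Pool.Agent.Helper344.Ent.P_Th_mult
import Pool.Agent.Helper344.Ent.P_Th_zero
import Pool.Agent.Helper344.Ent.P_Th_simple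



namespace Pool.Agent.Helper344.Ent
open Complex Filter Topology
open scoped Real


theorem S_Th : ∃ c : ℂ, c ≠ 0 ∧ ∀ z, cexp (π * I * z) * S I z = c * Th z := by
  have hS0 : S I 0 = 0 := by
    have h := (parity I 0).2.2.2
    rw [neg_zero] at h
    have h2 : (2 : ℂ) * S I 0 = 0 := by linear_combination h
    simpa using h2
  obtain ⟨F, hF⟩ : ∃ F : ℂ → ℂ, F = fun z => cexp (π * I * z) * S I z := ⟨_, rfl⟩
  have hFz : ∀ z, F z = cexp (π * I * z) * S I z := fun z => by rw [hF]
  have hdS : Differentiable ℂ (S I) := diffT.2.2.2.1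
  have hdF : Differentiable ℂ F := by
    rw [hF]
    have h1 : Differentiable ℂ (fun z : ℂ => cexp (π * I * z)) := by fun_prop
    exact h1.mul hdS
  have hdT : Differentiable ℂ Th := by
    have h1 : Differentiable ℂ (fun w : ℂ => 1 - cexp (2 * π * I * w)) := by fun_prop
    have h2 := h1.mul Kp_diff.1
    have h3 : Th = fun w => (1 - cexp (2 * π * I * w)) * Kp w := by
      funext w
      rfl
    rw [h3]
    exact h2
  have hF1 : ∀ z, F (z + 1) = F z := by
    intro z
    rw [hFz, hFz, (mult1 z).2.2.2.1]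
    have h1 : cexp (π * I * (z + 1)) = - cexp (π * I * z) := by
      rw [show (π : ℂ) * I * (z + 1) = π * I * z + π * I by ring, Complex.exp_add, Complex.exp_pi_mul_I]
      ring
    rw [h1]
    ring
  have hF2 : ∀ z, F (z + I) = - cexp (- 2 * π * I * z) * F z := by
    intro z
    rw [hFz, hFz, (multI z).2.2.2.1]
    have h1 : cexp (π * I * (z + I)) * cexp (π - 2 * π * I * z) =
        cexp (- 2 * π * I * z) * cexp (π * I * z) := by
      rw [← Complex.exp_add, ← Complex.exp_add]
      congr 1
      linear_combination (π : ℂ) * Complex.I_mul_I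
    linear_combination (- S I z) * h1
  have hz1 : ∀ n : ℤ, F (n * I) = 0 := by
    intro n
    induction n using Int.induction_on with
    | zero =>
      rw [hFz]
      simp [hS0]
    | succ i hi =>
      have h := hF2 ((i : ℤ) * I)
      rw [hi, mul_zero] at h
      rw [← h]
      congr 1
      push_cast
      ring
    | pred i hi =>
      have h := hF2 (((-(i : ℤ) - 1 : ℤ) : ℂ) * I)
      have h2 : (((-(i : ℤ) - 1 : ℤ) : ℂ) * I) + I = ((-(i : ℤ) : ℤ) : ℂ) * I := by
        push_cast
        ring
      rw [h2, hi] at h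
      have h3 := mul_eq_zero.1 h.symm
      rcases h3 with h3 | h3
      · exact absurd (neg_eq_zero.1 h3) (Complex.exp_ne_zero _)
      · exact h3
  have hz2 : ∀ m n : ℤ, F (m + n * I) = 0 := by
    intro m n
    induction m using Int.induction_on with
    | zero =>
      have h := hz1 n
      rw [← h]
      congr 1
      push_cast
      ring
    | succ i hi =>
      have h := hF1 ((i : ℤ) + n * I)
      rw [hi] at h
      rw [← h]
      congr 1
      push_cast
      ring
    | pred i hi =>
      have h := hF1 (((-(i : ℤ) - 1 : ℤ) : ℂ) + n * I)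
      have h2 : (((-(i : ℤ) - 1 : ℤ) : ℂ) + n * I) + 1 = ((-(i : ℤ) : ℤ) : ℂ) + n * I := by
        push_cast
        ring
      rw [h2, hi] at h
      exact h.symm
  obtain ⟨h, hdh, hfh⟩ := div1 hdF hdT (by
    intro z hz
    obtain ⟨m, n, rfl⟩ := Th_zero z hz
    exact ⟨hz2 m n, (Th_simple m n).2⟩)
  have hdense : Dense (Set.range (fun p : ℤ × ℤ => (p.1 : ℂ) + p.2 * I))ᶜ :=
    Set.Countable.dense_compl ℝ (Set.countable_range _)
  have hne : ∀ z ∈ (Set.range (fun p : ℤ × ℤ => (p.1 : ℂ) + p.2 * I))ᶜ, Th z ≠ 0 := by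
    intro z hz hz0
    obtain ⟨m, n, hmn⟩ := Th_zero z hz0
    exact hz ⟨(m, n), hmn.symm⟩
  have hp1 : ∀ z, h (z + 1) = h z := by
    have h1 : Continuous (fun z => h (z + 1)) := hdh.continuous.comp (by fun_prop)
    have h2 := Continuous.ext_on hdense h1 hdh.continuous (by
      intro z hz
      have e1 := hfh (z + 1)
      rw [hF1, (Th_mult z).1, hfh z] at e1
      exact (mul_left_cancel₀ (hne z hz) e1).symm)
    intro z
    exact congrFun h2 z
  have hpI : ∀ z, h (z + I) = h z := by
    have h1 : Continuous (fun z => h (z + I)) := hdh.continuous.comp (by fun_prop)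
    have h2 := Continuous.ext_on hdense h1 hdh.continuous (by
      intro z hz
      have e1 := hfh (z + I)
      rw [hF2, (Th_mult z).2, hfh z] at e1
      have e2 : (- cexp (- 2 * π * I * z) * Th z) * h z = (- cexp (- 2 * π * I * z) * Th z) * h (z + I) := by
        rw [← e1]
        ring
      have e3 : (- cexp (- 2 * π * I * z) * Th z) ≠ 0 :=
        mul_ne_zero (neg_ne_zero.2 (Complex.exp_ne_zero _)) (hne z hz)
      exact (mul_left_cancel₀ e3 e2).symm)
    intro z
    exact congrFun h2 z
  obtain ⟨c, hc⟩ := liou hdh hp1 hpI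
  refine ⟨c, ?_, ?_⟩
  · rintro rfl
    have h1 : S I (-((1 + I) / 2)) = 0 := by
      have h2 := hfh (-((1 + I) / 2))
      rw [hc, mul_zero, hFz] at h2
      rcases mul_eq_zero.1 h2 with h3 | h3
      · exact absurd h3 (Complex.exp_ne_zero _)
      · exact h3
    have h2 := P_S (-((1 + I) / 2))
    rw [h1, neg_add_cancel] at h2
    have h3 := mul_eq_zero.1 h2.symm
    rcases h3 with h3 | h3
    · rcases mul_eq_zero.1 h3 with h4 | h4
      · exact Complex.I_ne_zero h4
      · exact Complex.exp_ne_zero _ h4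
    · exact P0_ne h3
  · intro z
    rw [← hFz, hfh, hc]
    ring

end Pool.Agent.Helper344.Ent
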