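import Pool.Agent.Helper344.Ent.Defs
import Pool.Agent.Helper344.Ent.P_Kp_diff
import Pool.Agent.Helper344.Ent.P_Kp_zero
import Pool.Agent.Helper344.Ent.P_Th_mult



namespace Pool.Agent.Helper344.Ent
open Complex Filter Topology
open scoped Real


theorem Kp_zero_ne : Kp 0 ≠ 0 := by
  intro h
  obtain ⟨n, hn⟩ := Kp_zero 0 h
  unfold qf at hn
  have hlt : ‖cexp (-2 * π * (n + 1))‖ < 1 := by
    rw [Complex.norm_exp]
    have h1 : (-2 * (π:ℂ) * ((n:ℂ) + 1)).re = -2 * π * (n + 1) := by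
      have : (-2 * (π:ℂ) * ((n:ℂ) + 1)) = ((-2 * π * (n + 1) : ℝ) : ℂ) := by push_cast; ring
      rw [this, Complex.ofReal_re]
    rw [h1, Real.exp_lt_one_iff]
    have : 0 < 2 * π * ((n:ℝ) + 1) := by positivity
    linarith
  have hne : 1 - cexp (-2 * π * (n + 1)) ≠ 0 := by
    intro h0
    have h1 : cexp (-2 * π * (n + 1)) = 1 := (sub_eq_zero.1 h0).symm
    rw [h1, norm_one] at hlt
    exact lt_irrefl _ hlt
  rw [mul_zero, add_zero, sub_zero] at hn
  exact mul_ne_zero hne hne hn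

/-- the translations for which `Th` is multiplied by a nowhere vanishing entire function -/
noncomputable def Htr : AddSubgroup ℂ where
  carrier := {a | ∃ u : ℂ → ℂ, Differentiable ℂ u ∧ (∀ w, u w ≠ 0) ∧ ∀ w, Th (w + a) = u w * Th w}
  zero_mem' := ⟨fun _ => 1, differentiable_const _, fun _ => one_ne_zero, fun w => by simp⟩
  add_mem' := by
    rintro a b ⟨u, hu1, hu2, hu3⟩ ⟨v, hv1, hv2, hv3⟩
    refine ⟨fun w => v (w + a) * u w, ?_, fun w => mul_ne_zero (hv2 _) (hu2 _), fun w => ?_⟩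
    · exact (hv1.comp (differentiable_id.add_const a)).mul hu1
    · rw [← add_assoc, hv3, hu3]; ring
  neg_mem' := by
    rintro a ⟨u, hu1, hu2, hu3⟩
    refine ⟨fun w => (u (w - a))⁻¹, ?_, fun w => inv_ne_zero (hu2 _), fun w => ?_⟩
    · exact (hu1.comp (differentiable_id.sub_const a)).inv (fun w => hu2 _)
    · have h := hu3 (w - a)
      rw [sub_add_cancel] at h
      rw [h, ← mul_assoc, inv_mul_cancel₀ (hu2 _), one_mul, sub_eq_add_neg]

theorem Htr_mem (m n : ℤ) : ((m:ℂ) + n * I) ∈ Htr := by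
  have h1 : (1:ℂ) ∈ Htr :=
    ⟨fun _ => 1, differentiable_const _, fun _ => one_ne_zero, fun w => by
      rw [(Th_mult w).1, one_mul]⟩
  have h2 : I ∈ Htr := by
    refine ⟨fun w => - cexp (- 2 * π * I * w), ?_, fun w => neg_ne_zero.2 (Complex.exp_ne_zero _),
      fun w => (Th_mult w).2⟩
    exact ((differentiable_id.const_mul _).cexp).neg
  have h3 := Htr.add_mem (Htr.zsmul_mem h1 m) (Htr.zsmul_mem h2 n)
  simpa [zsmul_eq_mul] using h3

theorem Th_at_zero : Th 0 = 0 ∧ HasDerivAt Th (-(2 * π * I) * Kp 0) 0 := by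
  constructor
  · simp [Th]
  · have h1 : HasDerivAt (fun w : ℂ => 1 - cexp (2 * π * I * w))
        (-(cexp (2 * π * I * 0) * (2 * π * I))) 0 := by
      have h2 : HasDerivAt (fun w : ℂ => 2 * π * I * w) (2 * π * I) 0 := by
        simpa using (hasDerivAt_id (0:ℂ)).const_mul (2 * π * I)
      exact (h2.cexp).const_sub 1
    have h3 := h1.mul (Kp_diff.1 0).hasDerivAt
    have h4 : HasDerivAt Th (-(cexp (2 * π * I * 0) * (2 * π * I)) * Kp 0 +
        (1 - cexp (2 * π * I * 0)) * deriv Kp 0) 0 := h3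
    simpa using h4

theorem Th_simple (m n : ℤ) : Th (m + n * I) = 0 ∧ deriv Th (m + n * I) ≠ 0 := by
  obtain ⟨u, hu1, hu2, hu3⟩ := Htr_mem m n
  have h0 := hu3 0
  rw [zero_add, Th_at_zero.1, mul_zero] at h0
  refine ⟨h0, ?_⟩
  have h1 : deriv (fun w => Th (w + (m + n * I))) 0 = deriv Th (m + n * I) := by
    rw [deriv_comp_add_const, zero_add]
  rw [← h1]
  have h2 : (fun w => Th (w + (m + n * I))) = fun w => u w * Th w := funext hu3
  rw [h2]
  have h3 := (hu1 0).hasDerivAt.mul Th_at_zero.2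
  have h4 : HasDerivAt (fun w => u w * Th w)
      (deriv u 0 * Th 0 + u 0 * (-(2 * π * I) * Kp 0)) 0 := h3
  rw [h4.deriv, Th_at_zero.1, mul_zero, zero_add]
  refine mul_ne_zero (hu2 0) (mul_ne_zero (neg_ne_zero.2 Complex.two_pi_I_ne_zero) Kp_zero_ne)

end Pool.Agent.Helper344.Ent
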