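import Pool.Agent.Helper344.Ent.Defs
import Pool.Agent.Helper344.Ent.P_Th_zero
import Pool.Agent.Helper344.Ent.P_Th_simple
import Pool.Agent.Helper344.Ent.P_S_Th



namespace Pool.Agent.Helper344.Ent
open Complex Filter Topology
open scoped Real


theorem S_zero (z : ℂ) : S I z = 0 ↔ ∃ m n : ℤ, z = m + n * I := by
  obtain ⟨c, hc, h⟩ := S_Th
  constructor
  · intro hz
    apply Th_zero
    have h1 := h z
    rw [hz, mul_zero] at h1
    rcases mul_eq_zero.mp h1.symm with h2 | h2
    · exact absurd h2 hc
    · exact h2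
  · rintro ⟨m, n, rfl⟩
    have h1 := h (m + n * I)
    rw [(Th_simple m n).1, mul_zero] at h1
    rcases mul_eq_zero.mp h1 with h2 | h2
    · exact absurd h2 (Complex.exp_ne_zero _)
    · exact h2

end Pool.Agent.Helper344.Ent
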