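import Pool.Agent.Helper344.Ent.Defs
import Pool.Agent.Helper344.Ent.P_P_S
import Pool.Agent.Helper344.Ent.P_S_zero



namespace Pool.Agent.Helper344.Ent
open Complex Filter Topology
open scoped Real


theorem PQR_zero (z : ℂ) : (P I z = 0 ↔ ∃ m n : ℤ, z = (1 + I) / 2 + m + n * I) ∧
    (Q I z = 0 ↔ ∃ m n : ℤ, z = I / 2 + m + n * I) ∧
    (R I z = 0 ↔ ∃ m n : ℤ, z = 1 / 2 + m + n * I) := by
  have hP : ∀ z : ℂ, P I z = 0 ↔ ∃ m n : ℤ, z = (1 + I) / 2 + m + n * I := by
    intro z
    have h1 := P_S (z - (1 + I) / 2)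
    rw [sub_add_cancel] at h1
    have h2 : P I z = 0 ↔ S I (z - (1 + I) / 2) = 0 := by
      rw [h1]
      constructor
      · intro h; rw [h, mul_zero]
      · intro h
        rcases mul_eq_zero.mp h with h | h
        · exfalso
          rcases mul_eq_zero.mp h with h | h
          · exact I_ne_zero h
          · exact exp_ne_zero _ h
        · exact h
    rw [h2, S_zero]
    constructor
    · rintro ⟨m, n, h⟩
      exact ⟨m, n, by linear_combination h⟩
    · rintro ⟨m, n, h⟩
      exact ⟨m, n, by linear_combination h⟩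
  refine ⟨hP z, ?_, ?_⟩
  · have h1 : Q I z = P I (z + 1 / 2) := rfl
    rw [h1, hP]
    constructor
    · rintro ⟨m, n, h⟩
      exact ⟨m, n, by linear_combination h⟩
    · rintro ⟨m, n, h⟩
      exact ⟨m, n, by linear_combination h⟩
  · have h1 : S I (z - 1 / 2) = R I z := by
      unfold S
      rw [sub_add_cancel]
    rw [← h1, S_zero]
    constructor
    · rintro ⟨m, n, h⟩
      exact ⟨m, n, by linear_combination h⟩
    · rintro ⟨m, n, h⟩
      exact ⟨m, n, by linear_combination h⟩

end Pool.Agent.Helper344.Ent
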