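import Pool.Agent.Helper344.Ent.Defs



namespace Pool.Agent.Helper344.Ent
open Complex Filter Topology
open scoped Real


theorem Q0R0 : Q I 0 = R I 0 := by
  have h := jacobiTheta₂_functional_equation (1 / 2) I
  have e1 : (-I * I : ℂ) = 1 := by rw [neg_mul, I_mul_I, neg_neg]
  have e2 : (-1 / I : ℂ) = I := by
    rw [div_eq_iff I_ne_zero, I_mul_I]
  have e3 : ((1 / 2 : ℂ) / I) = -(I / 2) := by
    rw [div_eq_iff I_ne_zero]
    have := I_mul_I
    linear_combination (1 / 2 : ℂ) * this
  rw [e1, e2, e3, jacobiTheta₂_neg_left, one_cpow, div_one, one_mul] at h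
  unfold Q R P
  rw [zero_add, zero_add, mul_zero, add_zero, h]
  congr 2
  rw [div_eq_iff I_ne_zero]
  have := I_mul_I
  linear_combination (-(π : ℂ) * I / 4) * this

end Pool.Agent.Helper344.Ent
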