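import Pool.Agent.Helper344.Ent.Defs



namespace Pool.Agent.Helper344.Ent
open Complex Filter Topology
open scoped Real


/-- splitting of a sum over pairs of integers by parity of the sum -/
lemma P_prod_hasSum_parity {f : ℤ × ℤ → ℂ} {x y : ℂ}
    (h0 : HasSum (fun p : ℤ × ℤ => f (p.1 + p.2, p.1 - p.2)) x)
    (h1 : HasSum (fun p : ℤ × ℤ => f (p.1 + p.2 + 1, p.1 - p.2)) y) : HasSum f (x + y) := by
  set e0 : ℤ × ℤ → ℤ × ℤ := fun p => (p.1 + p.2, p.1 - p.2) with he0
  set e1 : ℤ × ℤ → ℤ × ℤ := fun p => (p.1 + p.2 + 1, p.1 - p.2) with he1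
  have i0 : Function.Injective e0 := by
    rintro ⟨a, b⟩ ⟨c, d⟩ h
    simp only [he0, Prod.mk.injEq] at h
    ext <;> simp only <;> omega
  have i1 : Function.Injective e1 := by
    rintro ⟨a, b⟩ ⟨c, d⟩ h
    simp only [he1, Prod.mk.injEq] at h
    ext <;> simp only <;> omega
  have hc : IsCompl (Set.range e0) (Set.range e1) := by
    constructor
    · rw [Set.disjoint_left]
      rintro ⟨m, n⟩ ⟨⟨a, b⟩, h⟩ ⟨⟨c, d⟩, h'⟩
      simp only [he0, he1, Prod.mk.injEq] at h h'
      omega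
    · rw [codisjoint_iff_le_sup]
      rintro ⟨m, n⟩ -
      rcases Int.even_or_odd (m + n) with ⟨k, hk⟩ | ⟨k, hk⟩
      · left
        exact ⟨(k, m - k), by simp only [he0, Prod.mk.injEq]; omega⟩
      · right
        exact ⟨(k, m - k - 1), by simp only [he1, Prod.mk.injEq]; omega⟩
  have H0 : HasSum (f ∘ ((↑) : Set.range e0 → ℤ × ℤ)) x :=
    (i0.hasSum_range_iff).2 h0
  have H1 : HasSum (f ∘ ((↑) : Set.range e1 → ℤ × ℤ)) y :=
    (i1.hasSum_range_iff).2 h1
  exact H0.add_isCompl hc H1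

lemma P_prod_theta_mul {z w τ : ℂ} (hτ : 0 < τ.im) :
    HasSum (fun p : ℤ × ℤ => jacobiTheta₂_term p.1 z τ * jacobiTheta₂_term p.2 w τ)
      (jacobiTheta₂ z τ * jacobiTheta₂ w τ) := by
  have h1 := hasSum_jacobiTheta₂_term z hτ
  have h2 := hasSum_jacobiTheta₂_term w hτ
  have s1 : Summable fun n => ‖jacobiTheta₂_term n z τ‖ := h1.summable.norm
  have s2 : Summable fun n => ‖jacobiTheta₂_term n w τ‖ := h2.summable.norm
  have := (summable_mul_of_summable_norm s1 s2).hasSum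
  rw [← tsum_mul_tsum_of_summable_norm s1 s2] at this
  rw [h1.tsum_eq, h2.tsum_eq] at this
  exact this

theorem P_prod {τ : ℂ} (hτ : 0 < τ.im) (w v : ℂ) :
    P τ (w + v) * P τ (w - v) = A τ w * A τ v + B τ w * B τ v := by
  have h := P_prod_theta_mul (z := w + v) (w := w - v) hτ
  have h2 : 0 < (2 * τ).im := by simp [hτ]
  have hA := P_prod_theta_mul (z := 2 * w) (w := 2 * v) h2
  have hB := (P_prod_theta_mul (z := 2 * w + τ) (w := 2 * v + τ) h2).mul_left
    (cexp (2 * π * I * (w + v) + π * I * τ))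
  have hsum := P_prod_hasSum_parity
    (f := fun p : ℤ × ℤ => jacobiTheta₂_term p.1 (w + v) τ * jacobiTheta₂_term p.2 (w - v) τ)
    (x := jacobiTheta₂ (2 * w) (2 * τ) * jacobiTheta₂ (2 * v) (2 * τ))
    (y := cexp (2 * π * I * (w + v) + π * I * τ) *
      (jacobiTheta₂ (2 * w + τ) (2 * τ) * jacobiTheta₂ (2 * v + τ) (2 * τ))) ?_ ?_
  · have := h.unique hsum
    unfold P A B
    rw [this]
    congr 1
    have e : cexp (2 * π * I * (w + v) + π * I * τ) =
        cexp (2 * π * I * w + π * I * τ / 2) * cexp (2 * π * I * v + π * I * τ / 2) := by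
      rw [← Complex.exp_add]; congr 1; ring
    rw [e]; ring
  · convert hA using 2 with p
    simp only [jacobiTheta₂_term]
    rw [← Complex.exp_add, ← Complex.exp_add]
    congr 1
    push_cast
    ring
  · have key : (fun p : ℤ × ℤ =>
        (fun p : ℤ × ℤ => jacobiTheta₂_term p.1 (w + v) τ * jacobiTheta₂_term p.2 (w - v) τ)
        (p.1 + p.2 + 1, p.1 - p.2)) =
        fun p : ℤ × ℤ => cexp (2 * π * I * (w + v) + π * I * τ) *
        (jacobiTheta₂_term p.1 (2 * w + τ) (2 * τ) * jacobiTheta₂_term p.2 (2 * v + τ) (2 * τ)) := ?_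
    · rw [key]; exact hB
    funext p
    simp only [jacobiTheta₂_term]
    rw [← Complex.exp_add, ← Complex.exp_add, ← Complex.exp_add]
    congr 1
    push_cast
    ring

end Pool.Agent.Helper344.Ent
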