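import Pool.Agent.Helper344.Ent.Defs
import Pool.Agent.Helper344.Ent.P_P_prod



namespace Pool.Agent.Helper344.Ent
open Complex Filter Topology
open scoped Real


theorem squares_A_half (τ z : ℂ) : A τ (z + 1 / 2) = A τ z := by
  unfold A
  rw [show 2 * (z + 1 / 2) = 2 * z + 1 by ring, jacobiTheta₂_add_left]

theorem squares_B_half (τ z : ℂ) : B τ (z + 1 / 2) = -B τ z := by
  unfold B
  rw [show 2 * (z + 1 / 2) + τ = (2 * z + τ) + 1 by ring, jacobiTheta₂_add_left,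
    show 2 * π * I * (z + 1 / 2) + π * I * τ / 2 = (2 * π * I * z + π * I * τ / 2) + π * I by ring,
    Complex.exp_add, Complex.exp_pi_mul_I]
  ring

theorem squares_A_tau (τ z : ℂ) :
    A τ (z + τ / 2) = cexp (-(2 * π * I * z + π * I * τ / 2)) * B τ z := by
  unfold A B
  rw [← mul_assoc, ← Complex.exp_add, neg_add_cancel, Complex.exp_zero, one_mul]
  congr 1; ring

theorem squares_B_tau (τ z : ℂ) :
    B τ (z + τ / 2) = cexp (-(2 * π * I * z + π * I * τ / 2)) * A τ z := by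
  unfold A B
  rw [show 2 * (z + τ / 2) + τ = 2 * z + 2 * τ by ring, jacobiTheta₂_add_left', ← mul_assoc,
    ← Complex.exp_add]
  congr 2
  ring

theorem squares_P {τ : ℂ} (hτ : 0 < τ.im) (z : ℂ) :
    P τ z ^ 2 = A τ 0 * A τ z + B τ 0 * B τ z := by
  have h := P_prod hτ z 0
  rw [add_zero, sub_zero] at h
  rw [sq, h]; ring

theorem squares_Q {τ : ℂ} (hτ : 0 < τ.im) (z : ℂ) :
    Q τ z ^ 2 = A τ 0 * A τ z - B τ 0 * B τ z := by
  unfold Q
  rw [squares_P hτ, squares_A_half, squares_B_half]; ring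

theorem squares_R {τ : ℂ} (hτ : 0 < τ.im) (z : ℂ) :
    R τ z ^ 2 = A τ 0 * B τ z + B τ 0 * A τ z := by
  have h := squares_P hτ (z + τ / 2)
  rw [squares_A_tau, squares_B_tau] at h
  unfold R
  rw [mul_pow]
  unfold P at h
  rw [h, sq, ← Complex.exp_add]
  have e : cexp (π * I * τ / 4 + π * I * z + (π * I * τ / 4 + π * I * z)) *
      cexp (-(2 * π * I * z + π * I * τ / 2)) = 1 := by
    rw [← Complex.exp_add, ← Complex.exp_zero]; congr 1; ring
  linear_combination (A τ 0 * B τ z + B τ 0 * A τ z) * e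

theorem squares {τ : ℂ} (hτ : 0 < τ.im) (z : ℂ) :
    P τ z ^ 2 = A τ 0 * A τ z + B τ 0 * B τ z ∧
    Q τ z ^ 2 = A τ 0 * A τ z - B τ 0 * B τ z ∧
    R τ z ^ 2 = A τ 0 * B τ z + B τ 0 * A τ z ∧
    S τ z ^ 2 = B τ 0 * A τ z - A τ 0 * B τ z := by
  refine ⟨squares_P hτ z, squares_Q hτ z, squares_R hτ z, ?_⟩
  unfold S
  rw [squares_R hτ, squares_A_half, squares_B_half]; ring

end Pool.Agent.Helper344.Ent
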