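import Pool.Agent.Helper344.Ent.Defs
import Pool.Agent.Helper344.Ent.P_squares
import Pool.Agent.Helper344.Ent.P_P0_ne
import Pool.Agent.Helper344.Ent.P_PQR_zero
import Pool.Agent.Helper344.Ent.P_Q0R0



namespace Pool.Agent.Helper344.Ent
open Complex Filter Topology
open scoped Real


theorem consts_half (m : ℤ) : (1 / 2 : ℝ) + m ≠ 0 := by
  intro h
  have h1 : (2 * m + 1 : ℝ) = 0 := by linarith
  have h2 : (2 * m + 1 : ℤ) = 0 := by exact_mod_cast h1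
  omega

theorem consts_Q : Q I 0 ≠ 0 := by
  intro h
  obtain ⟨m, n, hmn⟩ := (PQR_zero 0).2.1.1 h
  have h1 := congrArg Complex.im hmn
  simp only [Complex.zero_im, Complex.add_im, Complex.mul_im, Complex.intCast_re,
    Complex.intCast_im, Complex.I_im, Complex.I_re, mul_one, mul_zero, add_zero] at h1
  have h2 : (I / 2).im = 1 / 2 := by
    rw [Complex.div_ofNat_im, Complex.I_im]
  rw [h2] at h1
  exact consts_half n h1.symm

theorem consts_R : R I 0 ≠ 0 := by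
  intro h
  obtain ⟨m, n, hmn⟩ := (PQR_zero 0).2.2.1 h
  have h1 := congrArg Complex.re hmn
  simp only [Complex.zero_re, Complex.add_re, Complex.mul_re, Complex.intCast_re,
    Complex.intCast_im, Complex.I_im, Complex.I_re, mul_one, mul_zero, sub_zero, add_zero] at h1
  have h2 : ((1 : ℂ) / 2).re = 1 / 2 := by
    rw [Complex.div_ofNat_re, Complex.one_re]
  rw [h2] at h1
  exact consts_half m h1.symm

theorem consts : P I 0 ≠ 0 ∧ Q I 0 ≠ 0 ∧ R I 0 ≠ 0 ∧ A I 0 ≠ 0 ∧ B I 0 ≠ 0 ∧ kap ≠ 0 ∧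
    P I 0 ^ 2 = A I 0 ^ 2 + B I 0 ^ 2 ∧ Q I 0 ^ 2 = A I 0 ^ 2 - B I 0 ^ 2 ∧
    Q I 0 ^ 2 = 2 * A I 0 * B I 0 := by
  obtain ⟨h1, h2, h3, -⟩ := squares (τ := I) (by simp) 0
  have hQ := consts_Q
  have hR := consts_R
  have hP := P0_ne
  have h4 : R I 0 ^ 2 = 2 * A I 0 * B I 0 := by rw [h3]; ring
  have h5 : 2 * A I 0 * B I 0 ≠ 0 := by
    rw [← h4]
    exact pow_ne_zero 2 hR
  have hA : A I 0 ≠ 0 := fun h => h5 (by rw [h]; ring)
  have hB : B I 0 ≠ 0 := fun h => h5 (by rw [h]; ring)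
  refine ⟨hP, hQ, hR, hA, hB, div_ne_zero hP hQ, ?_, ?_, ?_⟩
  · rw [h1]; ring
  · rw [h2]; ring
  · rw [Q0R0, h4]

end Pool.Agent.Helper344.Ent
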