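import Pool.Agent.Helper344.Ent.Defs
import Pool.Agent.Helper344.Ent.P_squares
import Pool.Agent.Helper344.Ent.P_consts



namespace Pool.Agent.Helper344.Ent
open Complex Filter Topology
open scoped Real


theorem AB_inj (w v F : ℂ) (hF : F ≠ 0) (h : G w = F • G v) :
    A I w * B I v = B I w * A I v := by
  obtain ⟨_, _, _, ha, hb, hk, _, _, _⟩ := consts
  have hI : 0 < (I : ℂ).im := by simp
  have hQ : Q I w = F * Q I v := by
    have := congrFun h 0
    simpa [G] using this
  have hP : P I w = F * P I v := by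
    have := congrFun h 2
    simp [G] at this
    apply mul_left_cancel₀ hk
    rw [this]; ring
  obtain ⟨w1, w2, _, _⟩ := squares hI w
  obtain ⟨v1, v2, _, _⟩ := squares hI v
  rw [hP] at w1
  rw [hQ] at w2
  have hA : A I w = F ^ 2 * A I v := by
    apply mul_left_cancel₀ ha
    linear_combination (-1 / 2) * w1 + (-1 / 2) * w2 + (F ^ 2 / 2) * v1 + (F ^ 2 / 2) * v2
  have hB : B I w = F ^ 2 * B I v := by
    apply mul_left_cancel₀ hb
    linear_combination (-1 / 2) * w1 + (1 / 2) * w2 + (F ^ 2 / 2) * v1 - (F ^ 2 / 2) * v2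
  rw [hA, hB]
  ring

end Pool.Agent.Helper344.Ent
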