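import Pool.Agent.Helper344.Ent.Defs



namespace Pool.Agent.Helper344.Ent
open Complex Filter Topology
open scoped Real


theorem nzf_deriv_entire {f : ℂ → ℂ} (hf : Differentiable ℂ f) : Differentiable ℂ (deriv f) := by
  have h := hf.differentiableOn (s := Set.univ)
  exact differentiableOn_univ.mp (h.deriv isOpen_univ)

theorem nzf_const {M : ℂ → ℂ} (hM : Differentiable ℂ M) (h1 : ∀ z, M (z + 1) = M z)
    (hI : ∀ z, M (z + I) = M z) (z w : ℂ) : M z = M w := by
  refine hM.apply_eq_apply_of_bounded ?_ z w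
  obtain ⟨C, hC⟩ := (isCompact_closedBall (0 : ℂ) 2).exists_bound_of_continuousOn
    hM.continuous.continuousOn
  rw [isBounded_iff_forall_norm_le]
  refine ⟨C, ?_⟩
  rintro _ ⟨y, rfl⟩
  have p1 : Function.Periodic M 1 := h1
  have pI : Function.Periodic M I := hI
  have e : M y = M (y - ⌊y.re⌋ • (1 : ℂ) - ⌊y.im⌋ • I) := by
    rw [pI.sub_zsmul_eq, p1.sub_zsmul_eq]
  rw [e]
  apply hC
  rw [mem_closedBall_zero_iff]
  refine (Complex.norm_le_abs_re_add_abs_im _).trans ?_
  have hre : (y - ⌊y.re⌋ • (1 : ℂ) - ⌊y.im⌋ • I).re = y.re - ⌊y.re⌋ := by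
    simp
  have him : (y - ⌊y.re⌋ • (1 : ℂ) - ⌊y.im⌋ • I).im = y.im - ⌊y.im⌋ := by
    simp
  rw [hre, him]
  have a1 := Int.floor_le y.re
  have a2 := Int.lt_floor_add_one y.re
  have a3 := Int.floor_le y.im
  have a4 := Int.lt_floor_add_one y.im
  have b1 : |y.re - ⌊y.re⌋| ≤ 1 := abs_le.mpr ⟨by linarith, by linarith⟩
  have b2 : |y.im - ⌊y.im⌋| ≤ 1 := abs_le.mpr ⟨by linarith, by linarith⟩
  linarith

theorem no_zero_free {g : ℂ → ℂ} (hg : Differentiable ℂ g) (h1 : ∀ z, g (z + 1) = g z)
    (hI : ∀ z, g (z + I) = cexp (2 * π - 4 * π * I * z) * g z) : ∃ z, g z = 0 := by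
  by_contra hcon
  push Not at hcon
  have hg' : Differentiable ℂ (deriv g) := nzf_deriv_entire hg
  have hL : Differentiable ℂ (fun z => deriv g z / g z) := fun z => (hg' z).div (hg z) (hcon z)
  have d1 : ∀ z, deriv g (z + 1) = deriv g z := by
    intro z
    have e : (fun z => g (z + 1)) = g := funext h1
    have h2 : deriv (fun z => g (z + 1)) z = deriv g (z + 1) := deriv_comp_add_const g 1 z
    rw [e] at h2
    exact h2.symm
  have dI : ∀ z, deriv g (z + I) = cexp (2 * π - 4 * π * I * z) * deriv g z -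
      4 * π * I * (cexp (2 * π - 4 * π * I * z) * g z) := by
    intro z
    have e : (fun z => g (z + I)) = fun z => cexp (2 * π - 4 * π * I * z) * g z := funext hI
    have h2 : deriv (fun z => g (z + I)) z = deriv g (z + I) := deriv_comp_add_const g I z
    rw [e] at h2
    rw [← h2]
    have h3 : HasDerivAt (fun z : ℂ => 2 * π - 4 * π * I * z) (-(4 * π * I)) z := by
      have := ((hasDerivAt_id z).const_mul (4 * (π : ℂ) * I)).const_sub (2 * (π : ℂ))
      simpa using this
    have h4 := (h3.cexp.mul (hg z).hasDerivAt).deriv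
    have h5 : deriv (fun z => cexp (2 * π - 4 * π * I * z) * g z) z =
      cexp (2 * π - 4 * π * I * z) * -(4 * π * I) * g z +
        cexp (2 * π - 4 * π * I * z) * deriv g z := h4
    rw [h5]
    ring
  have L1 : ∀ z, (fun z => deriv g z / g z) (z + 1) = (fun z => deriv g z / g z) z := by
    intro z
    show deriv g (z + 1) / g (z + 1) = deriv g z / g z
    rw [d1, h1]
  have LI : ∀ z, (fun z => deriv g z / g z) (z + I) = (fun z => deriv g z / g z) z -
      4 * π * I := by
    intro z
    show deriv g (z + I) / g (z + I) = deriv g z / g z - 4 * π * I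
    rw [dI, hI]
    have := hcon z
    have h6 := Complex.exp_ne_zero (2 * π - 4 * π * I * z)
    field_simp
  generalize (fun z => deriv g z / g z) = L at hL L1 LI
  have hM : Differentiable ℂ (deriv L) := nzf_deriv_entire hL
  have M1 : ∀ z, deriv L (z + 1) = deriv L z := by
    intro z
    have e : (fun z => L (z + 1)) = L := funext L1
    have h2 : deriv (fun z => L (z + 1)) z = deriv L (z + 1) := deriv_comp_add_const L 1 z
    rw [e] at h2
    exact h2.symm
  have MI : ∀ z, deriv L (z + I) = deriv L z := by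
    intro z
    have e : (fun z => L (z + I)) = fun z => L z - 4 * π * I := funext LI
    have h2 : deriv (fun z => L (z + I)) z = deriv L (z + I) := deriv_comp_add_const L I z
    rw [e, deriv_sub_const] at h2
    exact h2.symm
  have hc := nzf_const hM M1 MI
  have hlin : ∀ z, L z - deriv L 0 * z = L 0 - deriv L 0 * 0 := by
    intro z
    refine is_const_of_deriv_eq_zero (𝕜 := ℂ) (f := fun z => L z - deriv L 0 * z) ?_ ?_ z 0
    · exact hL.sub (differentiable_id.const_mul _)
    · intro w
      have h3 : HasDerivAt (fun z => L z - deriv L 0 * z) (deriv L w - deriv L 0) w := by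
        have h7 : HasDerivAt (fun z : ℂ => deriv L 0 * z) (deriv L 0) w := by
          simpa using (hasDerivAt_id w).const_mul (deriv L 0)
        exact (hL w).hasDerivAt.sub h7
      rw [h3.deriv, hc w 0, sub_self]
  have e1 := hlin 1
  have e2 := hlin I
  have e3 := L1 0
  have e4 := LI 0
  rw [zero_add] at e3 e4
  have hc0 : deriv L 0 = 0 := by
    rw [e3] at e1
    linear_combination -e1
  rw [hc0, e4] at e2
  have e5 : (4 : ℂ) * π * I = 0 := by linear_combination -e2
  have hpi : (π : ℂ) ≠ 0 := Complex.ofReal_ne_zero.mpr Real.pi_ne_zero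
  rcases mul_eq_zero.mp e5 with h | h
  · rcases mul_eq_zero.mp h with h | h
    · norm_num at h
    · exact hpi h
  · exact Complex.I_ne_zero h

end Pool.Agent.Helper344.Ent
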