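import Pool.Agent.Helper344.Ent.Defs
import Pool.Agent.Helper344.Ent.P_diffT
import Pool.Agent.Helper344.Ent.P_mult1
import Pool.Agent.Helper344.Ent.P_multI
import Pool.Agent.Helper344.Ent.P_no_zero_free



namespace Pool.Agent.Helper344.Ent
open Complex Filter Topology
open scoped Real


theorem AB_surj (α β : ℂ) : ∃ w, β * A I w = α * B I w := by
  obtain ⟨_, _, _, _, hA, hB⟩ := diffT
  have hg : Differentiable ℂ (fun z => β * A I z - α * B I z) :=
    (hA.const_mul β).sub (hB.const_mul α)
  obtain ⟨z, hz⟩ := no_zero_free (g := fun z => β * A I z - α * B I z) hg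
    (by
      intro z
      obtain ⟨_, _, _, _, h1, h2⟩ := mult1 z
      show β * A I (z + 1) - α * B I (z + 1) = β * A I z - α * B I z
      rw [h1, h2])
    (by
      intro z
      obtain ⟨_, _, _, _, h1, h2⟩ := multI z
      show β * A I (z + I) - α * B I (z + I) = _ * (β * A I z - α * B I z)
      rw [h1, h2]
      ring)
  exact ⟨z, sub_eq_zero.1 hz⟩

end Pool.Agent.Helper344.Ent
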