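import Pool.Agent.Helper344.Ent.Defs



namespace Pool.Agent.Helper344.Ent
open Complex Filter Topology
open scoped Real


theorem evo_add (ρ : ℕ → ℂ) (p q : Pol) : evalP ρ (padd p q) = evalP ρ p + evalP ρ q := by
  simp [evalP, padd]

theorem evo_cons (ρ : ℕ → ℂ) (m : ℤ × List ℕ) (p : Pol) :
    evalP ρ (m :: p) = (m.1 : ℂ) * (m.2.map ρ).prod + evalP ρ p := by
  simp [evalP]

theorem evo_neg (ρ : ℕ → ℂ) (p : Pol) : evalP ρ (pneg p) = - evalP ρ p := by
  induction p with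
  | nil => simp [evalP, pneg]
  | cons m p ih =>
    have h : pneg (m :: p) = (-m.1, m.2) :: pneg p := rfl
    rw [h, evo_cons, evo_cons, ih]
    push_cast
    ring

theorem evo_mono (ρ : ℕ → ℂ) (m : ℤ × List ℕ) (q : Pol) :
    evalP ρ (q.map fun k => (m.1 * k.1, m.2 ++ k.2)) = (m.1 : ℂ) * (m.2.map ρ).prod * evalP ρ q := by
  induction q with
  | nil => simp [evalP]
  | cons k q ih =>
    rw [List.map_cons, evo_cons, evo_cons, ih, List.map_append, List.prod_append]
    push_cast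
    ring

theorem evo_mul (ρ : ℕ → ℂ) (p q : Pol) : evalP ρ (pmul p q) = evalP ρ p * evalP ρ q := by
  induction p with
  | nil => simp [evalP, pmul]
  | cons m p ih =>
    have h : pmul (m :: p) q = padd (q.map fun k => (m.1 * k.1, m.2 ++ k.2)) (pmul p q) := by
      simp [pmul, padd]
    rw [h, evo_add, evo_mono, ih, evo_cons]
    ring

theorem evalP_ops (ρ : ℕ → ℂ) (p q : Pol) (j : ℕ) :
    evalP ρ (padd p q) = evalP ρ p + evalP ρ q ∧ evalP ρ (pneg p) = - evalP ρ p ∧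
    evalP ρ (pmul p q) = evalP ρ p * evalP ρ q ∧ evalP ρ (pvar j) = ρ j ∧ evalP ρ pone = 1 ∧
    evalP ρ [] = 0 := by
  refine ⟨evo_add ρ p q, evo_neg ρ p, evo_mul ρ p q, ?_, ?_, ?_⟩
  · simp [evalP, pvar]
  · simp [evalP, pone]
  · simp [evalP]

end Pool.Agent.Helper344.Ent

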