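import Pool.Agent.Helper344.Ent.Defs
import Pool.Agent.Helper344.Ent.P_evalP_ops



namespace Pool.Agent.Helper344.Ent
open Complex Filter Topology
open scoped Real


theorem EV_code (ρ : ℕ → ℂ × ℂ → ℂ) (h0 : ∀ y, ρ 0 y = y.1) (h1 : ∀ y, ρ 1 y = y.2) (e : Ex)
    (x : ℂ × ℂ) :
    evF (fun j => EV fun c => ρ (2 + 4 * j + c)) e x =
      EV (fun c y => evalP (fun i => ρ i y) (code e c)) x := by
  have hadd : ∀ (r : ℕ → ℂ) (p q : Pol), evalP r (padd p q) = evalP r p + evalP r q :=
    fun r p q => (evalP_ops r p q 0).1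
  have hneg : ∀ (r : ℕ → ℂ) (p : Pol), evalP r (pneg p) = - evalP r p :=
    fun r p => (evalP_ops r p p 0).2.1
  have hmul : ∀ (r : ℕ → ℂ) (p q : Pol), evalP r (pmul p q) = evalP r p * evalP r q :=
    fun r p q => (evalP_ops r p q 0).2.2.1
  have hvar : ∀ (r : ℕ → ℂ) (j : ℕ), evalP r (pvar j) = r j :=
    fun r j => (evalP_ops r [] [] j).2.2.2.1
  have hone : ∀ (r : ℕ → ℂ), evalP r pone = 1 :=
    fun r => (evalP_ops r [] [] 0).2.2.2.2.1
  have hnil : ∀ (r : ℕ → ℂ), evalP r [] = 0 :=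
    fun r => (evalP_ops r [] [] 0).2.2.2.2.2
  induction e generalizing x with
  | var j =>
    simp only [evF, EV, code, hvar]
  | one =>
    simp [evF, EV, code, hone, hnil]
  | es =>
    simp [evF, EV, code, hone, hnil]
  | et =>
    simp [evF, EV, code, hone, hnil]
  | add a b iha ihb =>
    simp only [evF, iha, ihb, EV, code, hadd]
    ring
  | sub a b iha ihb =>
    simp only [evF, iha, ihb, EV, code, hadd, hneg]
    ring
  | mul a b iha ihb =>
    have hs : sv x.1 ≠ 0 := Complex.exp_ne_zero _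
    simp only [evF, iha, ihb, EV, code, hadd, hneg, hmul, hvar, h0, h1, Matrix.cons_val_zero,
      Matrix.cons_val_one, Matrix.cons_val]
    field_simp
    ring
  | sig a iha =>
    simp only [evF, iha, EV, code, hneg, Matrix.cons_val_zero,
      Matrix.cons_val_one, Matrix.cons_val, neg_sq]
    ring

end Pool.Agent.Helper344.Ent
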