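import Pool.Agent.Helper344.Ent.Defs



namespace Pool.Agent.Helper344.Ent
open Complex Filter Topology
open scoped Real


theorem EV_hol_sv_inv (z : ℂ) : (sv z)⁻¹ = cexp (-(2 * π * I * z)) := by
  unfold sv
  rw [Complex.exp_neg]

theorem EV_hol_sv_add (z : ℂ) : sv (z + 1) = sv z := by
  unfold sv
  rw [mul_add, mul_one, Complex.exp_add, Complex.exp_two_pi_mul_I, mul_one]

theorem EV_hol {f : Fin 4 → ℂ × ℂ → ℂ} (hf : ∀ i, Differentiable ℂ (f i)) : Hol (EV f) := by
  constructor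
  · have h1 : Differentiable ℂ (fun x : ℂ × ℂ => sv x.1) := by
      unfold sv
      fun_prop
    have h2 : Differentiable ℂ (fun x : ℂ × ℂ => (sv x.1)⁻¹) := by
      simp only [EV_hol_sv_inv]
      fun_prop
    have h3 : Differentiable ℂ (fun x : ℂ × ℂ => x.2) := by fun_prop
    have h4 : Differentiable ℂ (fun x : ℂ × ℂ => (sv x.1 + (sv x.1)⁻¹, x.2 ^ 2)) :=
      (h1.add h2).prodMk (h3.pow 2)
    have h5 : ∀ i, Differentiable ℂ (fun x : ℂ × ℂ => f i (sv x.1 + (sv x.1)⁻¹, x.2 ^ 2)) :=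
      fun i => (hf i).comp h4
    exact (((h5 0).add ((h5 1).mul h1)).add ((h5 2).mul h3)).add ((h5 3).mul (h1.mul h3))
  · intro z t
    unfold EV
    simp only [EV_hol_sv_add]

end Pool.Agent.Helper344.Ent
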