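import Pool.Agent.Helper344.Ent.Defs



namespace Pool.Agent.Helper344.Ent
open Complex Filter Topology
open scoped Real


theorem EV_inj {f : Fin 4 → ℂ × ℂ → ℂ} (hf : ∀ i, Continuous (f i)) (h : ∀ x, EV f x = 0) :
    ∀ i x, f i x = 0 := by
  have key : ∀ a b : ℂ, a ≠ 2 → a ≠ -2 → b ≠ 0 → ∀ i, f i (a, b) = 0 := by
    intro a b ha1 ha2 hb
    -- the root
    obtain ⟨s, hs⟩ : ∃ s : ℂ, s ^ 2 - a * s + 1 = 0 := by
      obtain ⟨d, hd⟩ := (IsAlgClosed.exists_eq_mul_self (a ^ 2 - 4))
      refine ⟨(a + d) / 2, ?_⟩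
      have : d * d = a ^ 2 - 4 := hd.symm
      linear_combination (1 / 4) * this
    obtain ⟨t, ht⟩ : ∃ t : ℂ, t * t = b := by
      obtain ⟨d, hd⟩ := (IsAlgClosed.exists_eq_mul_self b)
      exact ⟨d, hd.symm⟩
    have hs0 : s ≠ 0 := by
      rintro rfl
      norm_num at hs
    have ht0 : t ≠ 0 := by
      rintro rfl
      apply hb
      rw [← ht, mul_zero]
    have hsa : s + s⁻¹ = a := by
      field_simp
      linear_combination hs
    have hs1 : s - s⁻¹ ≠ 0 := by
      intro h0
      have h1 : s ^ 2 = 1 := by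
        have h2 : s * (s - s⁻¹) = 0 := by rw [h0, mul_zero]
        rw [mul_sub, mul_inv_cancel₀ hs0] at h2
        linear_combination h2
      have h3 : (s - 1) * (s + 1) = 0 := by linear_combination h1
      rcases mul_eq_zero.mp h3 with h4 | h4
      · apply ha1
        have h5 : s = 1 := by linear_combination h4
        rw [← hsa, h5]; norm_num
      · apply ha2
        have h5 : s = -1 := by linear_combination h4
        rw [← hsa, h5]; norm_num
    obtain ⟨z, hz⟩ : ∃ z : ℂ, sv z = s := by
      refine ⟨Complex.log s / (2 * π * I), ?_⟩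
      unfold sv
      rw [mul_div_cancel₀ _ (by simp [Real.pi_ne_zero]), Complex.exp_log hs0]
    have hz' : sv (-z) = s⁻¹ := by
      rw [← hz]
      unfold sv
      rw [← Complex.exp_neg]
      congr 1
      ring
    have e1 := h (z, t)
    have e2 := h (z, -t)
    have e3 := h (-z, t)
    have e4 := h (-z, -t)
    have ht2 : t ^ 2 = b := by rw [sq]; exact ht
    have ht3 : (-t) ^ 2 = b := by rw [neg_sq]; exact ht2
    have hsa' : s⁻¹ + s = a := by rw [add_comm]; exact hsa
    unfold EV at e1 e2 e3 e4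
    simp only [hz, hz', inv_inv, hsa, hsa', ht2, ht3] at e1 e2 e3 e4
    have f1 : f 1 (a, b) = 0 := by
      have h1 : f 1 (a, b) * (s - s⁻¹) = 0 := by
        linear_combination (1 / 2) * e1 + (1 / 2) * e2 - (1 / 2) * e3 - (1 / 2) * e4
      exact (mul_eq_zero.mp h1).resolve_right hs1
    have f3 : f 3 (a, b) = 0 := by
      have h1 : f 3 (a, b) * ((s - s⁻¹) * t) = 0 := by
        linear_combination (1 / 2) * e1 - (1 / 2) * e2 - (1 / 2) * e3 + (1 / 2) * e4
      exact (mul_eq_zero.mp h1).resolve_right (mul_ne_zero hs1 ht0)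
    have f0 : f 0 (a, b) = 0 := by
      rw [f1, f3] at e1 e2
      linear_combination (1 / 2) * e1 + (1 / 2) * e2
    have f2 : f 2 (a, b) = 0 := by
      have h1 : f 2 (a, b) * t = 0 := by
        rw [f1, f3] at e1 e2
        linear_combination (1 / 2) * e1 - (1 / 2) * e2
      exact (mul_eq_zero.mp h1).resolve_right ht0
    intro i
    fin_cases i
    · exact f0
    · exact f1
    · exact f2
    · exact f3
  have hd1 : Dense (({2, -2} : Set ℂ)ᶜ) :=
    Set.Countable.dense_compl ℂ (Set.toFinite _).countable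
  have hd2 : Dense (({0} : Set ℂ)ᶜ) :=
    Set.Countable.dense_compl ℂ (Set.toFinite _).countable
  have hd := hd1.prod hd2
  intro i x
  have heq : f i = fun _ => 0 := by
    apply Continuous.ext_on hd (hf i) continuous_const
    rintro ⟨a, b⟩ ⟨ha, hb⟩
    simp only [Set.mem_compl_iff, Set.mem_insert_iff, Set.mem_singleton_iff, not_or] at ha hb
    exact key a b ha.1 ha.2 hb i
  rw [heq]

end Pool.Agent.Helper344.Ent
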