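import Pool.Agent.Helper344.Ent.Defs
import Pool.Agent.Helper344.Ent.P_mult1
import Pool.Agent.Helper344.Ent.P_multI



namespace Pool.Agent.Helper344.Ent
open Complex Filter Topology
open scoped Real


theorem G_add_step (k : ℤ) (w : ℂ) :
    jj (k + 1) w = cexp (4 * π - 4 * π * I * (w + 2 * k * I)) * jj k w := by
  unfold jj
  rw [← Complex.exp_add]
  congr 1
  push_cast
  linear_combination (8 * π * k : ℂ) * Complex.I_sq

theorem G_add_gen (F : ℂ → ℂ) (h1 : ∀ z, F (z + 2) = F z)
    (h2 : ∀ z, F (z + 2 * I) = cexp (4 * π - 4 * π * I * z) * F z) (m n : ℤ) (w : ℂ) :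
    F (w + 2 * m + 2 * n * I) = jj n w * F w := by
  have hp : ∀ (m : ℤ) (w : ℂ), F (w + 2 * m) = F w := by
    intro m w
    have hper : Function.Periodic F 2 := h1
    have h3 := hper.int_mul m w
    rwa [mul_comm] at h3
  have hI : ∀ (n : ℤ) (w : ℂ), F (w + 2 * n * I) = jj n w * F w := by
    intro n w
    have hstep : ∀ k : ℤ, F (w + 2 * ((k + 1 : ℤ) : ℂ) * I) =
        cexp (4 * π - 4 * π * I * (w + 2 * k * I)) * F (w + 2 * k * I) := by
      intro k
      rw [← h2]
      congr 1
      push_cast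
      ring
    induction n using Int.induction_on with
    | zero => simp [jj]
    | succ i ih =>
      rw [hstep, ih, G_add_step]
      ring
    | pred i ih =>
      have h3 := hstep (-(i:ℤ) - 1)
      have h4 := G_add_step (-(i:ℤ) - 1) w
      rw [sub_add_cancel] at h3 h4
      rw [ih, h4, mul_assoc] at h3
      exact (mul_left_cancel₀ (Complex.exp_ne_zero _) h3).symm
  have h5 : w + 2 * m + 2 * n * I = (w + 2 * n * I) + 2 * m := by ring
  rw [h5, hp, hI]

theorem G_add_two (F : ℂ → ℂ) (s : ℂ) (hs : s * s = 1)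
    (h2 : ∀ z, F (z + I) = s * cexp (π - 2 * π * I * z) * F z) (z : ℂ) :
    F (z + 2 * I) = cexp (4 * π - 4 * π * I * z) * F z := by
  have h3 : z + 2 * I = (z + I) + I := by ring
  rw [h3, h2, h2]
  have h4 : cexp (π - 2 * π * I * (z + I)) * cexp (π - 2 * π * I * z) =
      cexp (4 * π - 4 * π * I * z) := by
    rw [← Complex.exp_add]
    congr 1
    linear_combination (-2 * π : ℂ) * Complex.I_sq
  calc s * cexp (π - 2 * π * I * (z + I)) * (s * cexp (π - 2 * π * I * z) * F z)
      = (s * s) * (cexp (π - 2 * π * I * (z + I)) * cexp (π - 2 * π * I * z)) * F z := by ring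
    _ = _ := by rw [hs, h4, one_mul]

theorem G_add (m n : ℤ) (w : ℂ) : G (w + 2 * m + 2 * n * I) = jj n w • G w := by
  have hP := G_add_gen (P I) (fun z => by
      have : z + 2 = (z + 1) + 1 := by ring
      rw [this, (mult1 _).1, (mult1 _).1])
    (G_add_two (P I) 1 (by ring) fun z => by rw [(multI z).1]; ring) m n w
  have hQ := G_add_gen (Q I) (fun z => by
      have : z + 2 = (z + 1) + 1 := by ring
      rw [this, (mult1 _).2.1, (mult1 _).2.1])
    (G_add_two (Q I) (-1) (by ring) fun z => by rw [(multI z).2.1]; ring) m n w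
  have hR := G_add_gen (R I) (fun z => by
      have : z + 2 = (z + 1) + 1 := by ring
      rw [this, (mult1 _).2.2.1, (mult1 _).2.2.1, neg_neg])
    (G_add_two (R I) 1 (by ring) fun z => by rw [(multI z).2.2.1]; ring) m n w
  have hS := G_add_gen (S I) (fun z => by
      have : z + 2 = (z + 1) + 1 := by ring
      rw [this, (mult1 _).2.2.2.1, (mult1 _).2.2.2.1, neg_neg])
    (G_add_two (S I) (-1) (by ring) fun z => by rw [(multI z).2.2.2.1]; ring) m n w
  funext i
  fin_cases i
  · show Q I (w + 2 * m + 2 * n * I) = jj n w * Q I w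
    exact hQ
  · show R I (w + 2 * m + 2 * n * I) = jj n w * R I w
    exact hR
  · show kap * P I (w + 2 * m + 2 * n * I) = jj n w * (kap * P I w)
    rw [hP]
    ring
  · show kap * S I (w + 2 * m + 2 * n * I) = jj n w * (kap * S I w)
    rw [hS]
    ring

end Pool.Agent.Helper344.Ent
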