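import Pool.Agent.Helper344.Ent.Defs
import Pool.Agent.Helper344.Ent.P_diffT
import Pool.Agent.Helper344.Ent.P_PQR_zero



namespace Pool.Agent.Helper344.Ent
open Complex Filter Topology
open scoped Real


theorem G_diff : Differentiable ℂ G ∧ Continuous G ∧ ∀ w, G w ≠ 0 := by
  obtain ⟨hP, hQ, hR, hS, -, -⟩ := diffT
  have hG : Differentiable ℂ G := by
    rw [differentiable_pi]
    intro i
    fin_cases i
    · exact hQ
    · exact hR
    · exact hP.const_mul kap
    · exact hS.const_mul kap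
  refine ⟨hG, hG.continuous, fun w hw => ?_⟩
  have h0 : Q I w = 0 := congrFun hw 0
  have h1 : R I w = 0 := congrFun hw 1
  obtain ⟨m, n, h2⟩ := (PQR_zero w).2.1.mp h0
  obtain ⟨m', n', h3⟩ := (PQR_zero w).2.2.mp h1
  have h4 := congrArg Complex.re (h2.symm.trans h3)
  simp at h4
  have h5 : (2 * m : ℝ) = 1 + 2 * m' := by linarith
  have h6 : (2 * m : ℤ) = 1 + 2 * m' := by exact_mod_cast h5
  omega

end Pool.Agent.Helper344.Ent
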