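import Pool.Agent.Helper344.Ent.Defs
import Pool.Agent.Helper344.Ent.P_mult1
import Pool.Agent.Helper344.Ent.P_multI



namespace Pool.Agent.Helper344.Ent
open Complex Filter Topology
open scoped Real


theorem G_half (w : ℂ) : G (w + 1 + I) = (- cexp (π - 2 * π * I * w)) • ![Q I w, R I w, - (kap * P I w), - (kap * S I w)] := by
  obtain ⟨p1, q1, r1, s1, _, _⟩ := mult1 w
  obtain ⟨p2, q2, r2, s2, _, _⟩ := multI (w + 1)
  have he : cexp (π - 2 * π * I * (w + 1)) = cexp (π - 2 * π * I * w) := by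
    have h1 : (π : ℂ) - 2 * π * I * (w + 1) = (π - 2 * π * I * w) - 2 * π * I := by ring
    rw [h1, Complex.exp_sub, Complex.exp_two_pi_mul_I, div_one]
  rw [he] at p2 q2 r2 s2
  rw [p1] at p2
  rw [q1] at q2
  rw [r1] at r2
  rw [s1] at s2
  unfold G
  rw [p2, q2, r2, s2]
  ext i
  fin_cases i
  · simp
  · simp
  · simp
    ring
  · simp
    ring

end Pool.Agent.Helper344.Ent
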