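import Pool.Agent.Helper344.Ent.Defs
import Pool.Agent.Helper344.Ent.P_mult1



namespace Pool.Agent.Helper344.Ent
open Complex Filter Topology
open scoped Real


theorem G_one (w : ℂ) : G (w + 1) = Tw (G w) := by
  obtain ⟨h1, h2, h3, h4, _, _⟩ := mult1 w
  unfold G Tw
  ext i
  fin_cases i <;> simp [h1, h2, h3, h4]

end Pool.Agent.Helper344.Ent
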