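import Pool.Agent.Helper344.Ent.Defs
import Pool.Agent.Helper344.Ent.P_P_prod



namespace Pool.Agent.Helper344.Ent
open Complex Filter Topology
open scoped Real


theorem S_prod_A_half (τ z : ℂ) : A τ (z + 1 / 2) = A τ z := by
  unfold A
  rw [show 2 * (z + 1 / 2) = 2 * z + 1 by ring, jacobiTheta₂_add_left]

theorem S_prod_B_half (τ z : ℂ) : B τ (z + 1 / 2) = -B τ z := by
  unfold B
  rw [show 2 * (z + 1 / 2) + τ = (2 * z + τ) + 1 by ring, jacobiTheta₂_add_left,
    show 2 * π * I * (z + 1 / 2) + π * I * τ / 2 = (2 * π * I * z + π * I * τ / 2) + π * I by ring,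
    Complex.exp_add, Complex.exp_pi_mul_I]
  ring

theorem S_prod_A_tau (τ z : ℂ) :
    A τ (z + τ / 2) = cexp (-(2 * π * I * z + π * I * τ / 2)) * B τ z := by
  unfold A B
  rw [← mul_assoc, ← Complex.exp_add, neg_add_cancel, Complex.exp_zero, one_mul]
  congr 1; ring

theorem S_prod_B_tau (τ z : ℂ) :
    B τ (z + τ / 2) = cexp (-(2 * π * I * z + π * I * τ / 2)) * A τ z := by
  unfold A B
  rw [show 2 * (z + τ / 2) + τ = 2 * z + 2 * τ by ring, jacobiTheta₂_add_left', ← mul_assoc,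
    ← Complex.exp_add]
  congr 2
  ring

theorem S_prod_R {τ : ℂ} (hτ : 0 < τ.im) (w v : ℂ) :
    R τ (w + v) * R τ (w - v) = A τ w * B τ v + B τ w * A τ v := by
  have h := P_prod hτ (w + τ / 2) v
  rw [S_prod_A_tau, S_prod_B_tau] at h
  unfold P at h
  rw [show w + τ / 2 + v = w + v + τ / 2 by ring, show w + τ / 2 - v = w - v + τ / 2 by ring] at h
  unfold R
  have e : cexp (π * I * τ / 4 + π * I * (w + v)) * cexp (π * I * τ / 4 + π * I * (w - v)) *
      cexp (-(2 * π * I * w + π * I * τ / 2)) = 1 := by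
    rw [← Complex.exp_add, ← Complex.exp_add, ← Complex.exp_zero]; congr 1; ring
  linear_combination (cexp (π * I * τ / 4 + π * I * (w + v)) *
    cexp (π * I * τ / 4 + π * I * (w - v))) * h + (A τ w * B τ v + B τ w * A τ v) * e

theorem S_prod {τ : ℂ} (hτ : 0 < τ.im) (w v : ℂ) :
    S τ (w + v) * S τ (w - v) = A τ w * B τ v - B τ w * A τ v := by
  unfold S
  rw [show w + v + 1 / 2 = (w + 1 / 2) + v by ring, show w - v + 1 / 2 = (w + 1 / 2) - v by ring,
    S_prod_R hτ, S_prod_A_half, S_prod_B_half]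
  ring

end Pool.Agent.Helper344.Ent
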