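import Pool.Agent.Helper344.Ent.Defs
import Pool.Agent.Helper344.Ent.P_S_prod
import Pool.Agent.Helper344.Ent.P_parity
import Pool.Agent.Helper344.Ent.P_mult1
import Pool.Agent.Helper344.Ent.P_multI
import Pool.Agent.Helper344.Ent.P_S_zero
import Pool.Agent.Helper344.Ent.P_PQR_zero
import Pool.Agent.Helper344.Ent.P_consts
import Pool.Agent.Helper344.Ent.P_G_one
import Pool.Agent.Helper344.Ent.P_G_half
import Pool.Agent.Helper344.Ent.P_AB_inj



namespace Pool.Agent.Helper344.Ent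
open Complex Filter Topology
open scoped Real


theorem G_inj_one (m : ℤ) : ∀ z : ℂ, P I (z + m) = P I z ∧ Q I (z + m) = Q I z ∧
    R I (z + m) = (-1) ^ m * R I z ∧ S I (z + m) = (-1) ^ m * S I z := by
  have h1 : (-1 : ℂ) ≠ 0 := by norm_num
  induction m using Int.induction_on with
  | zero =>
    intro z
    simp
  | succ n ih =>
    intro z
    obtain ⟨a1, a2, a3, a4⟩ := ih z
    obtain ⟨b1, b2, b3, b4, _, _⟩ := mult1 (z + ((n : ℤ) : ℂ))
    have e : z + (((n : ℤ) + 1 : ℤ) : ℂ) = z + ((n : ℤ) : ℂ) + 1 := by push_cast; ring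
    rw [e, b1, b2, b3, b4, a1, a2, a3, a4, zpow_add_one₀ h1]
    refine ⟨rfl, rfl, by ring, by ring⟩
  | pred n ih =>
    intro z
    obtain ⟨a1, a2, a3, a4⟩ := ih z
    obtain ⟨b1, b2, b3, b4, _, _⟩ := mult1 (z + ((-(n : ℤ) - 1 : ℤ) : ℂ))
    have e : z + ((-(n : ℤ) - 1 : ℤ) : ℂ) + 1 = z + ((-(n : ℤ) : ℤ) : ℂ) := by push_cast; ring
    rw [e] at b1 b2 b3 b4
    have e2 : (-1 : ℂ) ^ (-(n : ℤ) - 1) = - (-1) ^ (-(n : ℤ)) := by
      rw [zpow_sub_one₀ h1]
      norm_num
    rw [e2]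
    refine ⟨?_, ?_, ?_, ?_⟩
    · rw [← b1, a1]
    · rw [← b2, a2]
    · rw [a3] at b3
      linear_combination b3
    · rw [a4] at b4
      linear_combination b4

theorem G_inj_I (n : ℤ) : ∀ z : ℂ, ∃ e : ℂ, e ≠ 0 ∧ P I (z + n * I) = e * P I z ∧
    Q I (z + n * I) = e * (-1) ^ n * Q I z ∧
    R I (z + n * I) = e * R I z ∧ S I (z + n * I) = e * (-1) ^ n * S I z := by
  have h1 : (-1 : ℂ) ≠ 0 := by norm_num
  induction n using Int.induction_on with
  | zero =>
    intro z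
    refine ⟨1, one_ne_zero, ?_⟩
    simp
  | succ n ih =>
    intro z
    obtain ⟨e0, he0, a1, a2, a3, a4⟩ := ih z
    obtain ⟨b1, b2, b3, b4, _, _⟩ := multI (z + ((n : ℤ) : ℂ) * I)
    have e : z + (((n : ℤ) + 1 : ℤ) : ℂ) * I = z + ((n : ℤ) : ℂ) * I + I := by push_cast; ring
    obtain ⟨c, hc⟩ : ∃ c, c = cexp (π - 2 * π * I * (z + ((n : ℤ) : ℂ) * I)) := ⟨_, rfl⟩
    have hc0 : c ≠ 0 := by rw [hc]; exact Complex.exp_ne_zero _
    rw [← hc] at b1 b2 b3 b4
    refine ⟨c * e0, mul_ne_zero hc0 he0, ?_⟩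
    rw [e, b1, b2, b3, b4, a1, a2, a3, a4, zpow_add_one₀ h1]
    refine ⟨by ring, by ring, by ring, by ring⟩
  | pred n ih =>
    intro z
    obtain ⟨e0, he0, a1, a2, a3, a4⟩ := ih z
    obtain ⟨b1, b2, b3, b4, _, _⟩ := multI (z + ((-(n : ℤ) - 1 : ℤ) : ℂ) * I)
    have e : z + ((-(n : ℤ) - 1 : ℤ) : ℂ) * I + I = z + ((-(n : ℤ) : ℤ) : ℂ) * I := by
      push_cast; ring
    obtain ⟨c, hc⟩ : ∃ c, c = cexp (π - 2 * π * I * (z + ((-(n : ℤ) - 1 : ℤ) : ℂ) * I)) :=
      ⟨_, rfl⟩
    have hc0 : c ≠ 0 := by rw [hc]; exact Complex.exp_ne_zero _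
    rw [← hc, e] at b1 b2 b3 b4
    have e2 : (-1 : ℂ) ^ (-(n : ℤ) - 1) = - (-1) ^ (-(n : ℤ)) := by
      rw [zpow_sub_one₀ h1]
      norm_num
    refine ⟨c⁻¹ * e0, mul_ne_zero (inv_ne_zero hc0) he0, ?_⟩
    rw [e2]
    rw [a1] at b1
    rw [a2] at b2
    rw [a3] at b3
    rw [a4] at b4
    have hcc : c⁻¹ * c = 1 := inv_mul_cancel₀ hc0
    refine ⟨?_, ?_, ?_, ?_⟩
    · have : c⁻¹ * e0 * P I z = c⁻¹ * (e0 * P I z) := by ring
      rw [this, b1, ← mul_assoc, hcc, one_mul]
    · have : c⁻¹ * e0 * -(-1) ^ (-(n : ℤ)) * Q I z = - (c⁻¹ * (e0 * (-1) ^ (-(n : ℤ)) * Q I z)) := by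
        ring
      rw [this, b2]
      linear_combination (- Q I (z + ((-(n : ℤ) - 1 : ℤ) : ℂ) * I)) * hcc
    · have : c⁻¹ * e0 * R I z = c⁻¹ * (e0 * R I z) := by ring
      rw [this, b3, ← mul_assoc, hcc, one_mul]
    · have : c⁻¹ * e0 * -(-1) ^ (-(n : ℤ)) * S I z = - (c⁻¹ * (e0 * (-1) ^ (-(n : ℤ)) * S I z)) := by
        ring
      rw [this, b4]
      linear_combination (- S I (z + ((-(n : ℤ) - 1 : ℤ) : ℂ) * I)) * hcc

theorem G_inj_all (m n : ℤ) (z : ℂ) : ∃ e : ℂ, e ≠ 0 ∧ P I (z + m + n * I) = e * P I z ∧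
    Q I (z + m + n * I) = e * (-1) ^ n * Q I z ∧
    R I (z + m + n * I) = e * (-1) ^ m * R I z ∧
    S I (z + m + n * I) = e * ((-1) ^ m * (-1) ^ n) * S I z := by
  obtain ⟨a1, a2, a3, a4⟩ := G_inj_one m z
  obtain ⟨e, he, b1, b2, b3, b4⟩ := G_inj_I n (z + m)
  refine ⟨e, he, ?_, ?_, ?_, ?_⟩
  · rw [b1, a1]
  · rw [b2, a2]
  · rw [b3, a3]; ring
  · rw [b4, a4]; ring

/-- parities of the zeros -/
theorem G_inj_zero (w : ℂ) :
    (P I w = 0 → ∃ m n : ℤ, 2 * w.re = ((2 * m + 1 : ℤ) : ℝ) ∧ 2 * w.im = ((2 * n + 1 : ℤ) : ℝ)) ∧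
    (Q I w = 0 → ∃ m n : ℤ, 2 * w.re = ((2 * m : ℤ) : ℝ) ∧ 2 * w.im = ((2 * n + 1 : ℤ) : ℝ)) ∧
    (R I w = 0 → ∃ m n : ℤ, 2 * w.re = ((2 * m + 1 : ℤ) : ℝ) ∧ 2 * w.im = ((2 * n : ℤ) : ℝ)) ∧
    (S I w = 0 → ∃ m n : ℤ, 2 * w.re = ((2 * m : ℤ) : ℝ) ∧ 2 * w.im = ((2 * n : ℤ) : ℝ)) := by
  obtain ⟨p, q, r⟩ := PQR_zero w
  refine ⟨?_, ?_, ?_, ?_⟩
  · intro h
    obtain ⟨m, n, h⟩ := p.1 h
    refine ⟨m, n, ?_, ?_⟩
    · rw [h]; simp; ring
    · rw [h]; simp; ring
  · intro h
    obtain ⟨m, n, h⟩ := q.1 h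
    refine ⟨m, n, ?_, ?_⟩
    · rw [h]; simp
    · rw [h]; simp; ring
  · intro h
    obtain ⟨m, n, h⟩ := r.1 h
    refine ⟨m, n, ?_, ?_⟩
    · rw [h]; simp; ring
    · rw [h]; simp
  · intro h
    obtain ⟨m, n, h⟩ := (S_zero w).1 h
    refine ⟨m, n, ?_, ?_⟩
    · rw [h]; simp
    · rw [h]; simp

/-- final bookkeeping -/
theorem G_inj_fin {w w' : ℂ} {m n a b : ℤ} (h : w' = -w + m + n * I) (ha : 2 * w.re = (a : ℝ))
    (hb : 2 * w.im = (b : ℝ)) (h1 : (m - a) % 2 = 0) (h2 : (n - b) % 2 = 0) :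
    ∃ m n : ℤ, w' = w + 2 * m + 2 * n * I := by
  refine ⟨(m - a) / 2, (n - b) / 2, ?_⟩
  have e1 : 2 * ((m - a) / 2) = m - a := by omega
  have e2 : 2 * ((n - b) / 2) = n - b := by omega
  generalize hk1 : (m - a) / 2 = k1 at e1 ⊢
  generalize hk2 : (n - b) / 2 = k2 at e2 ⊢
  have e1' : 2 * (k1 : ℂ) = (m : ℂ) - a := by
    exact_mod_cast congrArg (fun t : ℤ => (t : ℂ)) e1
  have e2' : 2 * (k2 : ℂ) = (n : ℂ) - b := by
    exact_mod_cast congrArg (fun t : ℤ => (t : ℂ)) e2
  have hw : 2 * w = (a : ℂ) + (b : ℂ) * I := by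
    apply Complex.ext
    · simp
      exact ha
    · simp
      exact hb
  rw [e1', e2', h]
  linear_combination (-1 : ℂ) * hw

theorem G_inj (w w' F : ℂ) (hF : F ≠ 0) (h : G w' = F • G w) :
    ∃ m n : ℤ, w' = w + 2 * m + 2 * n * I := by
  have hkap := consts.2.2.2.2.2.1
  have hQ : Q I w' = F * Q I w := by
    have := congrFun h 0
    simpa [G] using this
  have hR : R I w' = F * R I w := by
    have := congrFun h 1
    simpa [G] using this
  have hP : P I w' = F * P I w := by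
    have := congrFun h 2
    have h2 : kap * P I w' = F * (kap * P I w) := by simpa [G] using this
    apply mul_left_cancel₀ hkap
    rw [h2]; ring
  have hS : S I w' = F * S I w := by
    have := congrFun h 3
    have h2 : kap * S I w' = F * (kap * S I w) := by simpa [G] using this
    apply mul_left_cancel₀ hkap
    rw [h2]; ring
  obtain ⟨zP, zQ, zR, zS⟩ := G_inj_zero w
  have nPQ : ¬ (P I w = 0 ∧ Q I w = 0) := by
    rintro ⟨h1, h2⟩
    obtain ⟨m, n, a, b⟩ := zP h1
    obtain ⟨m', n', a', b'⟩ := zQ h2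
    have : (2 * m + 1 : ℤ) = 2 * m' := by exact_mod_cast a.symm.trans a'
    omega
  have nPR : ¬ (P I w = 0 ∧ R I w = 0) := by
    rintro ⟨h1, h2⟩
    obtain ⟨m, n, a, b⟩ := zP h1
    obtain ⟨m', n', a', b'⟩ := zR h2
    have : (2 * n + 1 : ℤ) = 2 * n' := by exact_mod_cast b.symm.trans b'
    omega
  have nPS : ¬ (P I w = 0 ∧ S I w = 0) := by
    rintro ⟨h1, h2⟩
    obtain ⟨m, n, a, b⟩ := zP h1
    obtain ⟨m', n', a', b'⟩ := zS h2
    have : (2 * n + 1 : ℤ) = 2 * n' := by exact_mod_cast b.symm.trans b'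
    omega
  have nQR : ¬ (Q I w = 0 ∧ R I w = 0) := by
    rintro ⟨h1, h2⟩
    obtain ⟨m, n, a, b⟩ := zQ h1
    obtain ⟨m', n', a', b'⟩ := zR h2
    have : (2 * n + 1 : ℤ) = 2 * n' := by exact_mod_cast b.symm.trans b'
    omega
  have nQS : ¬ (Q I w = 0 ∧ S I w = 0) := by
    rintro ⟨h1, h2⟩
    obtain ⟨m, n, a, b⟩ := zQ h1
    obtain ⟨m', n', a', b'⟩ := zS h2
    have : (2 * n + 1 : ℤ) = 2 * n' := by exact_mod_cast b.symm.trans b'
    omega
  have nRS : ¬ (R I w = 0 ∧ S I w = 0) := by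
    rintro ⟨h1, h2⟩
    obtain ⟨m, n, a, b⟩ := zR h1
    obtain ⟨m', n', a', b'⟩ := zS h2
    have : (2 * m + 1 : ℤ) = 2 * m' := by exact_mod_cast a.symm.trans a'
    omega
  -- two functions with opposite signs cannot both be non zero
  have opp : ∀ (e x y : ℂ), e ≠ 0 → e * x = F * x → -(e * y) = F * y → x = 0 ∨ y = 0 := by
    intro e x y he hx hy
    by_contra hcon
    push Not at hcon
    have h1 : e = F := mul_right_cancel₀ hcon.1 hx
    have h2 : -e = F := by
      apply mul_right_cancel₀ hcon.2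
      linear_combination hy
    have h3 : e = -e := h1.trans h2.symm
    have h4 : (2:ℂ) * e = 0 := by linear_combination h3
    rcases mul_eq_zero.mp h4 with h5 | h5
    · norm_num at h5
    · exact he h5
  have hprod : S I (w' + w) * S I (w' - w) = 0 := by
    rw [S_prod (by simp), AB_inj w' w F hF h, sub_self]
  rcases mul_eq_zero.mp hprod with hc | hc
  · -- w' + w in the lattice
    obtain ⟨m, n, hmn⟩ := (S_zero _).1 hc
    have hw' : w' = -w + m + n * I := by linear_combination hmn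
    obtain ⟨e, he, a1, a2, a3, a4⟩ := G_inj_all m n (-w)
    rw [← hw'] at a1 a2 a3 a4
    obtain ⟨q1, q2, q3, q4⟩ := parity I w
    rw [q1, hP] at a1
    rw [q2, hQ] at a2
    rw [q3, hR] at a3
    rw [q4, hS] at a4
    rcases Int.even_or_odd m with hm | hm
    · rcases Int.even_or_odd n with hn | hn
      · rw [hm.neg_one_zpow] at a3 a4
        rw [hn.neg_one_zpow] at a2 a4
        have o1 := opp e (P I w) (S I w) he (by rw [a1]) (by rw [a4]; ring)
        have o2 := opp e (Q I w) (S I w) he (by rw [a2]; ring) (by rw [a4]; ring)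
        have hz : S I w = 0 := by
          rcases o1 with o1 | o1
          · rcases o2 with o2 | o2
            · exact absurd ⟨o1, o2⟩ nPQ
            · exact o2
          · exact o1
        obtain ⟨m', n', c1, c2⟩ := zS hz
        apply G_inj_fin hw' c1 c2
        · have := Int.even_iff.mp hm; omega
        · have := Int.even_iff.mp hn; omega
      · rw [hm.neg_one_zpow] at a3 a4
        rw [hn.neg_one_zpow] at a2 a4
        have o1 := opp e (P I w) (Q I w) he (by rw [a1]) (by rw [a2]; ring)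
        have o2 := opp e (R I w) (Q I w) he (by rw [a3]; ring) (by rw [a2]; ring)
        have hz : Q I w = 0 := by
          rcases o1 with o1 | o1
          · rcases o2 with o2 | o2
            · exact absurd ⟨o1, o2⟩ nPR
            · exact o2
          · exact o1
        obtain ⟨m', n', c1, c2⟩ := zQ hz
        apply G_inj_fin hw' c1 c2
        · have := Int.even_iff.mp hm; omega
        · have := Int.odd_iff.mp hn; omega
    · rcases Int.even_or_odd n with hn | hn
      · rw [hm.neg_one_zpow] at a3 a4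
        rw [hn.neg_one_zpow] at a2 a4
        have o1 := opp e (P I w) (R I w) he (by rw [a1]) (by rw [a3]; ring)
        have o2 := opp e (Q I w) (R I w) he (by rw [a2]; ring) (by rw [a3]; ring)
        have hz : R I w = 0 := by
          rcases o1 with o1 | o1
          · rcases o2 with o2 | o2
            · exact absurd ⟨o1, o2⟩ nPQ
            · exact o2
          · exact o1
        obtain ⟨m', n', c1, c2⟩ := zR hz
        apply G_inj_fin hw' c1 c2
        · have := Int.odd_iff.mp hm; omega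
        · have := Int.even_iff.mp hn; omega
      · rw [hm.neg_one_zpow] at a3 a4
        rw [hn.neg_one_zpow] at a2 a4
        have o1 := opp e (P I w) (Q I w) he (by rw [a1]) (by rw [a2]; ring)
        have o2 := opp e (P I w) (R I w) he (by rw [a1]) (by rw [a3]; ring)
        have hz : P I w = 0 := by
          rcases o1 with o1 | o1
          · exact o1
          · rcases o2 with o2 | o2
            · exact o2
            · exact absurd ⟨o1, o2⟩ nQR
        obtain ⟨m', n', c1, c2⟩ := zP hz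
        apply G_inj_fin hw' c1 c2
        · have := Int.odd_iff.mp hm; omega
        · have := Int.odd_iff.mp hn; omega
  · -- w' - w in the lattice
    obtain ⟨m, n, hmn⟩ := (S_zero _).1 hc
    have hw' : w' = w + m + n * I := by linear_combination hmn
    obtain ⟨e, he, a1, a2, a3, a4⟩ := G_inj_all m n w
    rw [← hw'] at a1 a2 a3 a4
    rw [hP] at a1
    rw [hQ] at a2
    rw [hR] at a3
    rw [hS] at a4
    rcases Int.even_or_odd m with hm | hm
    · rcases Int.even_or_odd n with hn | hn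
      · obtain ⟨m', hm'⟩ := hm
        obtain ⟨n', hn'⟩ := hn
        refine ⟨m', n', ?_⟩
        rw [hw', hm', hn']
        push_cast
        ring
      · exfalso
        rw [hm.neg_one_zpow] at a3 a4
        rw [hn.neg_one_zpow] at a2 a4
        have o1 := opp e (P I w) (Q I w) he (by rw [a1]) (by rw [a2]; ring)
        have o4 := opp e (R I w) (S I w) he (by rw [a3]; ring) (by rw [a4]; ring)
        rcases o1 with o1 | o1
        · rcases o4 with o4 | o4
          · exact nPR ⟨o1, o4⟩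
          · exact nPS ⟨o1, o4⟩
        · rcases o4 with o4 | o4
          · exact nQR ⟨o1, o4⟩
          · exact nQS ⟨o1, o4⟩
    · exfalso
      rcases Int.even_or_odd n with hn | hn
      · rw [hm.neg_one_zpow] at a3 a4
        rw [hn.neg_one_zpow] at a2 a4
        have o1 := opp e (P I w) (R I w) he (by rw [a1]) (by rw [a3]; ring)
        have o4 := opp e (Q I w) (S I w) he (by rw [a2]; ring) (by rw [a4]; ring)
        rcases o1 with o1 | o1
        · rcases o4 with o4 | o4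
          · exact nPQ ⟨o1, o4⟩
          · exact nPS ⟨o1, o4⟩
        · rcases o4 with o4 | o4
          · exact nQR ⟨o4, o1⟩
          · exact nRS ⟨o1, o4⟩
      · rw [hm.neg_one_zpow] at a3 a4
        rw [hn.neg_one_zpow] at a2 a4
        have o1 := opp e (P I w) (Q I w) he (by rw [a1]) (by rw [a2]; ring)
        have o4 := opp e (S I w) (R I w) he (by rw [a4]; ring) (by rw [a3]; ring)
        rcases o1 with o1 | o1
        · rcases o4 with o4 | o4
          · exact nPS ⟨o1, o4⟩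
          · exact nPR ⟨o1, o4⟩
        · rcases o4 with o4 | o4
          · exact nQS ⟨o1, o4⟩
          · exact nQR ⟨o1, o4⟩

end Pool.Agent.Helper344.Ent
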