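import Pool.Agent.Helper344.Ent.Defs
import Pool.Agent.Helper344.Ent.P_squares
import Pool.Agent.Helper344.Ent.P_PQR_zero
import Pool.Agent.Helper344.Ent.P_Q0R0
import Pool.Agent.Helper344.Ent.P_consts



namespace Pool.Agent.Helper344.Ent
open Complex Filter Topology
open scoped Real


theorem G_mem (w F : ℂ) (hF : F ≠ 0) : F • G w ∈ Xset := by
  obtain ⟨hP0, hQ0, hR0, hA0, hB0, hk, c1, c2, c3⟩ := consts
  obtain ⟨s1, s2, s3, s4⟩ := squares (τ := I) (by rw [I_im]; exact zero_lt_one) w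
  obtain ⟨a, ha⟩ : ∃ a, a = A I 0 := ⟨_, rfl⟩
  obtain ⟨b, hb⟩ : ∃ b, b = B I 0 := ⟨_, rfl⟩
  obtain ⟨x, hx⟩ : ∃ x, x = A I w := ⟨_, rfl⟩
  obtain ⟨y, hy⟩ : ∃ y, y = B I w := ⟨_, rfl⟩
  rw [← ha, ← hb, ← hx, ← hy] at s1 s2 s3 s4
  rw [← ha, ← hb] at c1 c2 c3
  have hab : a ^ 2 - b ^ 2 = 2 * a * b := by rw [← c2, c3]
  have hkap : kap ^ 2 * Q I 0 ^ 2 = P I 0 ^ 2 := by
    unfold kap
    field_simp
  have hQ02 : Q I 0 ^ 2 ≠ 0 := pow_ne_zero 2 hQ0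
  have e1 : kap ^ 2 * P I w ^ 2 = Q I w ^ 2 + R I w ^ 2 := by
    apply mul_left_cancel₀ hQ02
    calc Q I 0 ^ 2 * (kap ^ 2 * P I w ^ 2) = (kap ^ 2 * Q I 0 ^ 2) * P I w ^ 2 := by ring
      _ = (a ^ 2 + b ^ 2) * (a * x + b * y) := by rw [hkap, c1, s1]
      _ = (a ^ 2 - b ^ 2) * ((a * x - b * y) + (a * y + b * x)) := by
        linear_combination (-(b * x + a * y)) * hab
      _ = Q I 0 ^ 2 * (Q I w ^ 2 + R I w ^ 2) := by rw [c2, s2, s3]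
  have e2 : kap ^ 2 * S I w ^ 2 = Q I w ^ 2 - R I w ^ 2 := by
    apply mul_left_cancel₀ hQ02
    calc Q I 0 ^ 2 * (kap ^ 2 * S I w ^ 2) = (kap ^ 2 * Q I 0 ^ 2) * S I w ^ 2 := by ring
      _ = (a ^ 2 + b ^ 2) * (b * x - a * y) := by rw [hkap, c1, s4]
      _ = (a ^ 2 - b ^ 2) * ((a * x - b * y) - (a * y + b * x)) := by
        linear_combination (-(a * x) + b * y) * hab
      _ = Q I 0 ^ 2 * (Q I w ^ 2 - R I w ^ 2) := by rw [c2, s2, s3]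
  refine ⟨?_, ?_, ?_⟩
  · show (F * (kap * P I w)) ^ 2 = (F * Q I w) ^ 2 + (F * R I w) ^ 2
    linear_combination F ^ 2 * e1
  · show (F * (kap * S I w)) ^ 2 = (F * Q I w) ^ 2 - (F * R I w) ^ 2
    linear_combination F ^ 2 * e2
  · show F * Q I w ≠ 0 ∨ F * R I w ≠ 0
    by_contra hcon
    push Not at hcon
    have q0 : Q I w = 0 := (mul_eq_zero.1 hcon.1).resolve_left hF
    have r0 : R I w = 0 := (mul_eq_zero.1 hcon.2).resolve_left hF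
    obtain ⟨m, n, h1⟩ := (PQR_zero w).2.1.1 q0
    obtain ⟨m', n', h2⟩ := (PQR_zero w).2.2.1 r0
    have h3 := congrArg Complex.im (h1.symm.trans h2)
    simp at h3
    have h4 : ((1 + 2 * n : ℤ) : ℝ) = ((2 * n' : ℤ) : ℝ) := by
      push_cast
      linarith
    have h5 : 1 + 2 * n = 2 * n' := by exact_mod_cast h4
    omega

end Pool.Agent.Helper344.Ent
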