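import Pool.Agent.Helper344.Ent.Defs
import Pool.Agent.Helper344.Ent.P_squares
import Pool.Agent.Helper344.Ent.P_parity
import Pool.Agent.Helper344.Ent.P_PQR_zero
import Pool.Agent.Helper344.Ent.P_consts
import Pool.Agent.Helper344.Ent.P_G_one
import Pool.Agent.Helper344.Ent.P_AB_surj
import Pool.Agent.Helper344.Ent.P_G_half



namespace Pool.Agent.Helper344.Ent
open Complex Filter Topology
open scoped Real


def Gsurj_good (x0 x1 x2 x3 : ℂ) : Prop :=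
  ∃ w F : ℂ, F ≠ 0 ∧ x0 = F * Q I w ∧ x1 = F * R I w ∧ x2 = F * (kap * P I w) ∧
    x3 = F * (kap * S I w)

theorem Gsurj_f3 (x0 x1 x2 x3 : ℂ) (h : Gsurj_good x0 x1 x2 x3) : Gsurj_good x0 x1 x2 (-x3) := by
  obtain ⟨w, F, hF, h0, h1, h2, h3⟩ := h
  obtain ⟨p1, p2, p3, p4⟩ := parity I w
  refine ⟨-w, F, hF, ?_, ?_, ?_, ?_⟩
  · rw [p2, h0]
  · rw [p3, h1]
  · rw [p1, h2]
  · rw [p4, h3]; ring

theorem Gsurj_f13 (x0 x1 x2 x3 : ℂ) (h : Gsurj_good x0 x1 x2 x3) :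
    Gsurj_good x0 (-x1) x2 (-x3) := by
  obtain ⟨w, F, hF, h0, h1, h2, h3⟩ := h
  have g0 := congrFun (G_one w) 0
  have g1 := congrFun (G_one w) 1
  have g2 := congrFun (G_one w) 2
  have g3 := congrFun (G_one w) 3
  change Q I (w + 1) = Q I w at g0
  change R I (w + 1) = - R I w at g1
  change kap * P I (w + 1) = kap * P I w at g2
  change kap * S I (w + 1) = - (kap * S I w) at g3
  refine ⟨w + 1, F, hF, ?_, ?_, ?_, ?_⟩
  · rw [g0, h0]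
  · rw [g1, h1]; ring
  · rw [g2, h2]
  · rw [g3, h3]; ring

theorem Gsurj_f23 (x0 x1 x2 x3 : ℂ) (h : Gsurj_good x0 x1 x2 x3) :
    Gsurj_good x0 x1 (-x2) (-x3) := by
  obtain ⟨w, F, hF, h0, h1, h2, h3⟩ := h
  have g0 := congrFun (G_half w) 0
  have g1 := congrFun (G_half w) 1
  have g2 := congrFun (G_half w) 2
  have g3 := congrFun (G_half w) 3
  obtain ⟨e, he⟩ : ∃ e : ℂ, e = - cexp (π - 2 * π * I * w) := ⟨_, rfl⟩
  have he0 : e ≠ 0 := by rw [he]; exact neg_ne_zero.2 (exp_ne_zero _)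
  rw [← he] at g0 g1 g2 g3
  change Q I (w + 1 + I) = e * Q I w at g0
  change R I (w + 1 + I) = e * R I w at g1
  change kap * P I (w + 1 + I) = e * (- (kap * P I w)) at g2
  change kap * S I (w + 1 + I) = e * (- (kap * S I w)) at g3
  refine ⟨w + 1 + I, F / e, div_ne_zero hF he0, ?_, ?_, ?_, ?_⟩
  · rw [g0, h0]; field_simp
  · rw [g1, h1]; field_simp
  · rw [g2, h2]; field_simp
  · rw [g3, h3]; field_simp

theorem Gsurj_f1 (x0 x1 x2 x3 : ℂ) (h : Gsurj_good x0 x1 x2 x3) : Gsurj_good x0 (-x1) x2 x3 := by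
  have := Gsurj_f3 _ _ _ _ (Gsurj_f13 _ _ _ _ h)
  rwa [neg_neg] at this

theorem Gsurj_f2 (x0 x1 x2 x3 : ℂ) (h : Gsurj_good x0 x1 x2 x3) : Gsurj_good x0 x1 (-x2) x3 := by
  have := Gsurj_f3 _ _ _ _ (Gsurj_f23 _ _ _ _ h)
  rwa [neg_neg] at this

theorem Gsurj_neg (x0 x1 x2 x3 : ℂ) (h : Gsurj_good x0 x1 x2 x3) :
    Gsurj_good (-x0) (-x1) (-x2) (-x3) := by
  obtain ⟨w, F, hF, h0, h1, h2, h3⟩ := h
  exact ⟨w, -F, neg_ne_zero.2 hF, by rw [h0]; ring, by rw [h1]; ring, by rw [h2]; ring,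
    by rw [h3]; ring⟩

theorem Gsurj_f0 (x0 x1 x2 x3 : ℂ) (h : Gsurj_good x0 x1 x2 x3) : Gsurj_good (-x0) x1 x2 x3 := by
  have := Gsurj_neg _ _ _ _ (Gsurj_f1 _ _ _ _ (Gsurj_f2 _ _ _ _ (Gsurj_f3 _ _ _ _ h)))
  rwa [neg_neg, neg_neg, neg_neg] at this

theorem G_surj (v : Fin 4 → ℂ) (hv : v ∈ Xset) : ∃ w F : ℂ, F ≠ 0 ∧ v = F • G w := by
  obtain ⟨hv2, hv3, hv01⟩ := hv
  obtain ⟨hP0, hQ0, hR0, ha0, hb0, hk0, cP, cQ, cQ'⟩ := consts
  obtain ⟨a, ha⟩ : ∃ a, a = A I 0 := ⟨_, rfl⟩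
  obtain ⟨b, hb⟩ : ∃ b, b = B I 0 := ⟨_, rfl⟩
  rw [← ha] at ha0
  rw [← hb] at hb0
  rw [← ha, ← hb] at cP cQ cQ'
  have hab : a ^ 2 + b ^ 2 ≠ 0 := by rw [← cP]; exact pow_ne_zero 2 hP0
  have hrel : a ^ 2 - b ^ 2 = 2 * a * b := by rw [← cQ, cQ']
  have hkap : kap ^ 2 * (2 * a * b) = a ^ 2 + b ^ 2 := by
    unfold kap
    rw [div_pow, ← cP, ← cQ']
    field_simp
  obtain ⟨α, hα⟩ : ∃ α, α = (a * v 0 ^ 2 + b * v 1 ^ 2) / (a ^ 2 + b ^ 2) := ⟨_, rfl⟩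
  obtain ⟨β, hβ⟩ : ∃ β, β = (a * v 1 ^ 2 - b * v 0 ^ 2) / (a ^ 2 + b ^ 2) := ⟨_, rfl⟩
  have e0 : a * α - b * β = v 0 ^ 2 := by
    rw [hα, hβ]
    field_simp
    ring
  have e1 : a * β + b * α = v 1 ^ 2 := by
    rw [hα, hβ]
    field_simp
    ring
  obtain ⟨w, hw⟩ := AB_surj α β
  obtain ⟨s1, s2, s3, s4⟩ := squares (τ := I) (by simp) w
  rw [← ha, ← hb] at s1 s2 s3 s4
  have hnz : ¬ (A I w = 0 ∧ B I w = 0) := by
    rintro ⟨h1, h2⟩
    rw [h1, h2] at s2 s3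
    have hq : Q I w = 0 := by
      have : Q I w ^ 2 = 0 := by rw [s2]; ring
      exact pow_eq_zero_iff (by norm_num) |>.1 this
    have hr : R I w = 0 := by
      have : R I w ^ 2 = 0 := by rw [s3]; ring
      exact pow_eq_zero_iff (by norm_num) |>.1 this
    obtain ⟨m, n, h3⟩ := (PQR_zero w).2.1.1 hq
    obtain ⟨m', n', h4⟩ := (PQR_zero w).2.2.1 hr
    rw [h3] at h4
    have h5 := congrArg Complex.re h4
    simp at h5
    have h6 : (2 * m : ℝ) = 1 + 2 * m' := by linarith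
    have h7 : (2 * m : ℤ) = 1 + 2 * m' := by exact_mod_cast h6
    omega
  have hαβ : ¬ (α = 0 ∧ β = 0) := by
    rintro ⟨h1, h2⟩
    rw [h1, h2] at e0 e1
    rcases hv01 with h | h
    · exact (pow_ne_zero 2 h) (by rw [← e0]; ring)
    · exact (pow_ne_zero 2 h) (by rw [← e1]; ring)
  obtain ⟨l, hl1, hl2⟩ : ∃ l : ℂ, A I w = l * α ∧ B I w = l * β := by
    by_cases hα0 : α = 0
    · have hβ0 : β ≠ 0 := fun h => hαβ ⟨hα0, h⟩
      refine ⟨B I w / β, ?_, ?_⟩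
      · rw [hα0, zero_mul] at hw
        rw [hα0, mul_zero]
        exact (mul_eq_zero.1 hw).resolve_left hβ0
      · field_simp
    · refine ⟨A I w / α, ?_, ?_⟩
      · field_simp
      · field_simp
        linear_combination -hw
  have hl0 : l ≠ 0 := by
    rintro rfl
    exact hnz ⟨by rw [hl1]; ring, by rw [hl2]; ring⟩
  obtain ⟨μ, hμ⟩ := IsAlgClosed.exists_pow_nat_eq l (n := 2) (by norm_num)
  have hμ0 : μ ≠ 0 := by
    rintro rfl
    exact hl0 (by rw [← hμ]; ring)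
  have q0 : Q I w ^ 2 = (μ * v 0) ^ 2 := by
    rw [s2, hl1, hl2, mul_pow, hμ, ← e0]; ring
  have q1 : R I w ^ 2 = (μ * v 1) ^ 2 := by
    rw [s3, hl1, hl2, mul_pow, hμ, ← e1]; ring
  have q2 : (kap * P I w) ^ 2 = (μ * v 2) ^ 2 := by
    have h1 : (kap * P I w) ^ 2 = Q I w ^ 2 + R I w ^ 2 := by
      have h2 : (2 * a * b) * (kap * P I w) ^ 2 = (2 * a * b) * (Q I w ^ 2 + R I w ^ 2) := by
        rw [mul_pow, s1, s2, s3]
        linear_combination (a * A I w + b * B I w) * hkap + (a * A I w - b * B I w) * hrel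
      exact mul_left_cancel₀ (by simp [ha0, hb0]) h2
    rw [h1, q0, q1, mul_pow, mul_pow, mul_pow, hv2]; ring
  have q3 : (kap * S I w) ^ 2 = (μ * v 3) ^ 2 := by
    have h1 : (kap * S I w) ^ 2 = Q I w ^ 2 - R I w ^ 2 := by
      have h2 : (2 * a * b) * (kap * S I w) ^ 2 = (2 * a * b) * (Q I w ^ 2 - R I w ^ 2) := by
        rw [mul_pow, s4, s2, s3]
        linear_combination (b * A I w - a * B I w) * hkap - (b * A I w + a * B I w) * hrel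
      exact mul_left_cancel₀ (by simp [ha0, hb0]) h2
    rw [h1, q0, q1, mul_pow, mul_pow, mul_pow, hv3]; ring
  have g : Gsurj_good (Q I w) (R I w) (kap * P I w) (kap * S I w) :=
    ⟨w, 1, one_ne_zero, by ring, by ring, by ring, by ring⟩
  have g0 : Gsurj_good (μ * v 0) (R I w) (kap * P I w) (kap * S I w) := by
    rcases sq_eq_sq_iff_eq_or_eq_neg.1 q0 with e | e
    · rwa [← e]
    · have := Gsurj_f0 _ _ _ _ g
      rwa [e, neg_neg] at this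
  have g1 : Gsurj_good (μ * v 0) (μ * v 1) (kap * P I w) (kap * S I w) := by
    rcases sq_eq_sq_iff_eq_or_eq_neg.1 q1 with e | e
    · rwa [← e]
    · have := Gsurj_f1 _ _ _ _ g0
      rwa [e, neg_neg] at this
  have g2 : Gsurj_good (μ * v 0) (μ * v 1) (μ * v 2) (kap * S I w) := by
    rcases sq_eq_sq_iff_eq_or_eq_neg.1 q2 with e | e
    · rwa [← e]
    · have := Gsurj_f2 _ _ _ _ g1
      rwa [e, neg_neg] at this
  have g3 : Gsurj_good (μ * v 0) (μ * v 1) (μ * v 2) (μ * v 3) := by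
    rcases sq_eq_sq_iff_eq_or_eq_neg.1 q3 with e | e
    · rwa [← e]
    · have := Gsurj_f3 _ _ _ _ g2
      rwa [e, neg_neg] at this
  obtain ⟨z, F, hF, t0, t1, t2, t3⟩ := g3
  refine ⟨z, μ⁻¹ * F, mul_ne_zero (inv_ne_zero hμ0) hF, ?_⟩
  funext i
  fin_cases i
  · show v 0 = μ⁻¹ * F * Q I z
    rw [mul_assoc, ← t0, inv_mul_cancel_left₀ hμ0]
  · show v 1 = μ⁻¹ * F * R I z
    rw [mul_assoc, ← t1, inv_mul_cancel_left₀ hμ0]
  · show v 2 = μ⁻¹ * F * (kap * P I z)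
    rw [mul_assoc, ← t2, inv_mul_cancel_left₀ hμ0]
  · show v 3 = μ⁻¹ * F * (kap * S I z)
    rw [mul_assoc, ← t3, inv_mul_cancel_left₀ hμ0]

end Pool.Agent.Helper344.Ent
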