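import Pool.Agent.Helper344.Ent.Defs
import Pool.Agent.Helper344.Ent.P_G_mem
import Pool.Agent.Helper344.Ent.P_G_diff
import Pool.Agent.Helper344.Ent.P_G_one
import Pool.Agent.Helper344.Ent.P_G_add
import Pool.Agent.Helper344.Ent.P_G_surj



namespace Pool.Agent.Helper344.Ent
open Complex Filter Topology
open scoped Real


theorem G_proper_red (v : Fin 4 → ℂ) (hv : v ∈ Xset) :
    ∃ w F : ℂ, w ∈ (Set.Icc (0:ℝ) 2 ×ℂ Set.Icc (0:ℝ) 2) ∧ F ≠ 0 ∧ v = F • G w := by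
  obtain ⟨w', F', hF', rfl⟩ := G_surj v hv
  obtain ⟨m, hm⟩ : ∃ m : ℤ, m = ⌊w'.re / 2⌋ := ⟨_, rfl⟩
  obtain ⟨n, hn⟩ : ∃ n : ℤ, n = ⌊w'.im / 2⌋ := ⟨_, rfl⟩
  obtain ⟨w, hw⟩ : ∃ w : ℂ, w = w' - 2 * m - 2 * n * I := ⟨_, rfl⟩
  have hw' : w' = w + 2 * m + 2 * n * I := by rw [hw]; ring
  have h1 := G_add m n w
  rw [← hw'] at h1
  refine ⟨w, F' * jj n w, ?_, ?_, ?_⟩
  · rw [Complex.mem_reProdIm]
    have hre : w.re = w'.re - 2 * m := by
      rw [hw]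
      simp
    have him : w.im = w'.im - 2 * n := by
      rw [hw]
      simp
    rw [hre, him]
    have a1 := Int.floor_le (w'.re / 2)
    have a2 := Int.lt_floor_add_one (w'.re / 2)
    have b1 := Int.floor_le (w'.im / 2)
    have b2 := Int.lt_floor_add_one (w'.im / 2)
    rw [← hm] at a1 a2
    rw [← hn] at b1 b2
    refine ⟨⟨by linarith, by linarith⟩, ⟨by linarith, by linarith⟩⟩
  · apply mul_ne_zero hF'
    unfold jj
    exact Complex.exp_ne_zero _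
  · rw [h1, smul_smul]

theorem G_proper (x : ℕ → Fin 4 → ℂ) (x0 : Fin 4 → ℂ) (hx0 : x0 ∈ Xset) (hx : ∀ k, x k ∈ Xset)
    (hlim : Tendsto x atTop (𝓝 x0)) :
    ∃ (ψ : ℕ → ℕ) (w F : ℕ → ℂ) (w0 F0 : ℂ), StrictMono ψ ∧ (∀ k, F k ≠ 0) ∧ F0 ≠ 0 ∧
      (∀ k, x (ψ k) = F k • G (w k)) ∧ Tendsto w atTop (𝓝 w0) ∧ Tendsto F atTop (𝓝 F0) := by
  choose w F hw hF hxF using fun k => G_proper_red (x k) (hx k)
  have hcomp : IsCompact (Set.Icc (0:ℝ) 2 ×ℂ Set.Icc (0:ℝ) 2) := isCompact_Icc.reProdIm isCompact_Icc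
  obtain ⟨w0, _, φ, hφ, hlimw⟩ := hcomp.tendsto_subseq hw
  obtain ⟨_, hGc, hG0⟩ := G_diff
  have hlimx : Tendsto (fun k => x (φ k)) atTop (𝓝 x0) := hlim.comp hφ.tendsto_atTop
  have hlimw' : Tendsto (fun k => w (φ k)) atTop (𝓝 w0) := hlimw
  have hlimG : Tendsto (fun k => G (w (φ k))) atTop (𝓝 (G w0)) := (hGc.tendsto w0).comp hlimw'
  obtain ⟨i, hi⟩ : ∃ i, G w0 i ≠ 0 := by
    by_contra hcon
    push Not at hcon
    exact hG0 w0 (funext hcon)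
  have hlimGi : Tendsto (fun k => G (w (φ k)) i) atTop (𝓝 (G w0 i)) := (tendsto_pi_nhds.mp hlimG) i
  have hlimxi : Tendsto (fun k => x (φ k) i) atTop (𝓝 (x0 i)) := (tendsto_pi_nhds.mp hlimx) i
  have hlimF : Tendsto (fun k => F (φ k)) atTop (𝓝 (x0 i / G w0 i)) := by
    apply (hlimxi.div hlimGi hi).congr'
    filter_upwards [hlimGi.eventually_ne hi] with k hk
    have h1 := congrFun (hxF (φ k)) i
    show x (φ k) i / G (w (φ k)) i = F (φ k)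
    rw [h1, Pi.smul_apply, smul_eq_mul, mul_div_assoc, div_self hk, mul_one]
  have hx0eq : x0 = (x0 i / G w0 i) • G w0 := by
    have h1 : Tendsto (fun k => x (φ k)) atTop (𝓝 ((x0 i / G w0 i) • G w0)) := by
      have h2 : (fun k => x (φ k)) = fun k => F (φ k) • G (w (φ k)) := funext fun k => hxF (φ k)
      rw [h2]
      exact hlimF.smul hlimG
    exact tendsto_nhds_unique hlimx h1
  refine ⟨φ, fun k => w (φ k), fun k => F (φ k), w0, x0 i / G w0 i, hφ, fun k => hF (φ k), ?_,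
    fun k => hxF (φ k), hlimw', hlimF⟩
  intro h0
  rw [h0, zero_smul] at hx0eq
  rcases hx0.2.2 with h | h
  · exact h (congrFun hx0eq 0)
  · exact h (congrFun hx0eq 1)

end Pool.Agent.Helper344.Ent
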