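import Pool.Agent.Helper344.Ent.Defs



namespace Pool.Agent.Helper344.Ent
open Complex Filter Topology
open scoped Real


theorem desc1 {φ G : ℂ → ℂ} (hφ : Differentiable ℂ φ) (hs : Function.Surjective φ)
    (hG : Differentiable ℂ G) (h : ∀ z z', φ z = φ z' → G z = G z') :
    ∃ g : ℂ → ℂ, Differentiable ℂ g ∧ ∀ z, G z = g (φ z) := by
  classical
  let g : ℂ → ℂ := fun w => G (Classical.choose (hs w))
  have hgφ : ∀ z, G z = g (φ z) := fun z => h _ _ (Classical.choose_spec (hs (φ z))).symm
  have hnc : ¬ ∃ w, ∀ z, φ z = w := by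
    rintro ⟨w, hw⟩
    obtain ⟨z1, h1⟩ := hs (w + 1)
    rw [hw] at h1
    simp at h1
  have hopen : IsOpenMap φ := by
    have han : AnalyticOnNhd ℂ φ Set.univ := fun z _ => hφ.analyticAt z
    exact han.is_constant_or_isOpenMap.resolve_left hnc
  have hcont : Continuous g := by
    rw [continuous_def]
    intro V hV
    have : g ⁻¹' V = φ '' (G ⁻¹' V) := by
      ext w
      constructor
      · intro hw
        obtain ⟨z, rfl⟩ := hs w
        refine ⟨z, ?_, rfl⟩
        change G z ∈ V
        rw [hgφ z]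
        exact hw
      · rintro ⟨z, hz, rfl⟩
        change g (φ z) ∈ V
        rw [← hgφ]
        exact hz
    rw [this]
    exact hopen _ (hV.preimage hG.continuous)
  refine ⟨g, fun w0 => ?_, hgφ⟩
  obtain ⟨z0, rfl⟩ := hs w0
  apply AnalyticAt.differentiableAt
  refine Complex.analyticAt_of_differentiable_on_punctured_nhds_of_continuousAt ?_
    hcont.continuousAt
  have hd : ∀ᶠ z in 𝓝[≠] z0, deriv φ z ≠ 0 := by
    have hda : AnalyticAt ℂ (deriv φ) z0 := (hφ.analyticAt z0).deriv
    rcases hda.eventually_eq_zero_or_eventually_ne_zero with h0 | h0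
    · exfalso
      have hz : ∀ z, deriv φ z = 0 := by
        have han : AnalyticOnNhd ℂ (deriv φ) Set.univ := fun z _ => (hφ.analyticAt z).deriv
        intro z
        exact han.eqOn_zero_of_preconnected_of_eventuallyEq_zero isPreconnected_univ
          (Set.mem_univ z0) h0 (Set.mem_univ z)
      exact hnc ⟨φ 0, fun z => is_const_of_deriv_eq_zero hφ hz z 0⟩
    · exact h0
  rw [eventually_nhdsWithin_iff] at hd
  obtain ⟨N, hN, hNo, hz0⟩ := eventually_nhds_iff.mp hd
  rw [eventually_nhdsWithin_iff, eventually_nhds_iff]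
  refine ⟨φ '' N, ?_, hopen _ hNo, ⟨z0, hz0, rfl⟩⟩
  rintro _ ⟨z, hz, rfl⟩ hne
  have hzne : z ≠ z0 := fun e => hne (by rw [e]; rfl)
  have hd0 : deriv φ z ≠ 0 := hN z hz hzne
  have hst : HasStrictDerivAt φ (deriv φ z) z := (hφ.analyticAt z).hasStrictDerivAt
  have hψ := (hst.to_localInverse hd0).hasDerivAt.differentiableAt
  have hev := hst.eventually_right_inverse hd0
  have hg' : g =ᶠ[𝓝 (φ z)] fun w => G (hst.localInverse φ (deriv φ z) z hd0 w) := by
    filter_upwards [hev] with w hw
    rw [hgφ, hw]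
  exact (hG.differentiableAt.comp _ hψ).congr_of_eventuallyEq hg'

end Pool.Agent.Helper344.Ent
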