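import Pool.Agent.Helper344.Ent.Defs
import Pool.Agent.Helper344.Ent.P_parity
import Pool.Agent.Helper344.Ent.P_diffT
import Pool.Agent.Helper344.Ent.P_mult1
import Pool.Agent.Helper344.Ent.P_desc1



namespace Pool.Agent.Helper344.Ent
open Complex Filter Topology
open scoped Real


theorem QR_desc_inv (G : ℂ → ℂ) (he : ∀ z, G (-z) = G z) (hp : ∀ z, G (z + 2) = G z)
    (z z' : ℂ) (h : Complex.cos (π * z) = Complex.cos (π * z')) : G z = G z' := by
  have hper : ∀ (k : ℤ) (w : ℂ), G (w + k * 2) = G w := fun k w =>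
    (Function.Periodic.int_mul (f := G) (c := 2) hp k) w
  have hpi : (π : ℂ) ≠ 0 := by exact_mod_cast Real.pi_ne_zero
  obtain ⟨k, hk | hk⟩ := Complex.cos_eq_cos_iff.mp h
  · have h1 : z' = z + k * 2 := by
      apply mul_left_cancel₀ hpi
      rw [hk]
      ring
    rw [h1, hper]
  · have h1 : z' = -z + k * 2 := by
      apply mul_left_cancel₀ hpi
      rw [hk]
      ring
    rw [h1, hper, he]

theorem QR_desc : ∃ f g : ℂ → ℂ, Differentiable ℂ f ∧ Differentiable ℂ g ∧
    (∀ z, Q I z = f (Complex.cos (π * z))) ∧ (∀ z, R I z = g (Complex.cos (π * z))) := by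
  have hφ : Differentiable ℂ (fun z : ℂ => Complex.cos (π * z)) := by fun_prop
  have hpi : (π : ℂ) ≠ 0 := by exact_mod_cast Real.pi_ne_zero
  have hs : Function.Surjective (fun z : ℂ => Complex.cos (π * z)) := by
    intro w
    obtain ⟨z, hz⟩ := Complex.cos_surjective w
    refine ⟨z / π, ?_⟩
    change Complex.cos (π * (z / π)) = w
    rw [mul_div_cancel₀ z hpi, hz]
  have hQ2 : ∀ z, Q I (z + 2) = Q I z := by
    intro z
    have e : z + 2 = (z + 1) + 1 := by ring
    rw [e, (mult1 (z + 1)).2.1, (mult1 z).2.1]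
  have hR2 : ∀ z, R I (z + 2) = R I z := by
    intro z
    have e : z + 2 = (z + 1) + 1 := by ring
    rw [e, (mult1 (z + 1)).2.2.1, (mult1 z).2.2.1, neg_neg]
  obtain ⟨f, hf, hf'⟩ := desc1 hφ hs diffT.2.1
    (QR_desc_inv (Q I) (fun z => (parity I z).2.1) hQ2)
  obtain ⟨g, hg, hg'⟩ := desc1 hφ hs diffT.2.2.1
    (QR_desc_inv (R I) (fun z => (parity I z).2.2.1) hR2)
  exact ⟨f, g, hf, hg, hf', hg'⟩

end Pool.Agent.Helper344.Ent
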