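import Pool.Agent.Helper344.Ent.Defs
import Pool.Agent.Helper344.Ent.P_diffT
import Pool.Agent.Helper344.Ent.P_P_S
import Pool.Agent.Helper344.Ent.P_Kp_diff
import Pool.Agent.Helper344.Ent.P_Th_simple
import Pool.Agent.Helper344.Ent.P_S_Th



namespace Pool.Agent.Helper344.Ent
open Complex Filter Topology
open scoped Real


theorem Q_simple (m n : ℤ) : deriv (Q I) (I / 2 + m + n * I) ≠ 0 := by
  obtain ⟨c, hc, hST⟩ := S_Th
  obtain ⟨hT0, hT1⟩ := Th_simple m n
  set E : ℂ → ℂ := fun z => cexp (π * I * (z - I / 2)) * (I * cexp (- π / 4 + π * I * (z - I / 2)))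
    with hE
  have hEne : ∀ z, E z ≠ 0 := fun z =>
    mul_ne_zero (Complex.exp_ne_zero _) (mul_ne_zero Complex.I_ne_zero (Complex.exp_ne_zero _))
  have hEd : Differentiable ℂ E := by
    rw [hE]; fun_prop
  have key : ∀ z, E z * Q I z = c * Th (z - I / 2) := by
    intro z
    rw [← hST, P_S]
    have : Q I z = P I (z - I / 2 + (1 + I) / 2) := by
      unfold Q; congr 1; ring
    rw [this, hE]
    ring
  set z0 : ℂ := I / 2 + m + n * I with hz0
  have hz : z0 - I / 2 = m + n * I := by rw [hz0]; ring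
  have hQ0 : Q I z0 = 0 := by
    have := key z0
    rw [hz, hT0, mul_zero] at this
    exact (mul_eq_zero.1 this).resolve_left (hEne z0)
  intro hd
  have h1 : deriv (fun z => E z * Q I z) z0 = deriv E z0 * Q I z0 + E z0 * deriv (Q I) z0 :=
    deriv_mul (hEd z0) (diffT.2.1 z0)
  have h2 : deriv (fun z => c * Th (z - I / 2)) z0 = c * deriv Th (z0 - I / 2) := by
    rw [deriv_const_mul_field, deriv_comp_sub_const]
  have h3 : (fun z => E z * Q I z) = (fun z => c * Th (z - I / 2)) := funext key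
  rw [h3, h2, hQ0, hd, mul_zero, mul_zero, add_zero, hz] at h1
  exact (mul_ne_zero hc hT1) h1

end Pool.Agent.Helper344.Ent
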