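import Pool.Agent.Helper344.Ent.Defs



namespace Pool.Agent.Helper344.Ent
open Complex Filter Topology
open scoped Real


theorem int_const {α : Type} [TopologicalSpace α] [PreconnectedSpace α] [Nonempty α] (f : α → ℂ)
    (hf : Continuous f) (h : ∀ x, ∃ k : ℤ, f x = k) : ∃ k : ℤ, ∀ x, f x = k := by
  choose k hk using h
  have h1 : Continuous (fun x => (k x : ℝ)) := by
    have h2 : (fun x => (k x : ℝ)) = fun x => (f x).re := by
      funext x
      rw [hk x]
      simp
    rw [h2]
    exact Complex.continuous_re.comp hf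
  have h3 : Continuous k :=
    Int.isClosedEmbedding_coe_real.isEmbedding.continuous_iff.2 h1
  obtain ⟨x0⟩ := ‹Nonempty α›
  refine ⟨k x0, fun x => ?_⟩
  rw [hk x]
  have h4 : k x = k x0 := PreconnectedSpace.constant ‹_› h3
  rw [h4]

end Pool.Agent.Helper344.Ent
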