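import Pool.Agent.Helper344.Ent.Defs



namespace Pool.Agent.Helper344.Ent
open Complex Filter Topology
open scoped Real


theorem log2 (F : ℝ × ℝ → ℂ) (hF : Continuous F) (h0 : ∀ x, F x ≠ 0) :
    ∃ c : ℝ × ℝ → ℂ, Continuous c ∧ ∀ x, F x = cexp (2 * π * I * c x) := by
  obtain ⟨g, ⟨-, hg⟩, -⟩ := Complex.isCoveringMapOn_exp.existsUnique_continuousMap_lifts
    (⟨F, hF⟩ : C(ℝ × ℝ, ℂ)) (a₀ := (0 : ℝ × ℝ)) (e₀ := Complex.log (F 0))
    (by show cexp (Complex.log (F 0)) = F 0; exact Complex.exp_log (h0 0))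
    (fun a => by simpa using h0 a)
  refine ⟨fun x => g x / (2 * π * I), g.continuous.div_const _, fun x => ?_⟩
  have h1 : cexp (g x) = F x := congrFun hg x
  rw [mul_div_cancel₀ _ Complex.two_pi_I_ne_zero, h1]

end Pool.Agent.Helper344.Ent
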