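import Pool.Agent.Helper344.Ent.Defs
import Pool.Agent.Helper344.Ent.P_log2
import Pool.Agent.Helper344.Ent.P_int_const



namespace Pool.Agent.Helper344.Ent
open Complex Filter Topology
open scoped Real


theorem Wind2_ex (U : ℝ × ℝ → ℂ) (hU : Continuous U) (h0 : ∀ x, U x ≠ 0)
    (h1 : ∀ z t, U (z + 1, t) = U (z, t)) : ∃ k : ℤ, Wind2 U k := by
  obtain ⟨c, hc, hcU⟩ := log2 U hU h0
  have hpi : (2 * (π : ℂ) * I) ≠ 0 := Complex.two_pi_I_ne_zero
  have hint : ∀ x : ℝ × ℝ, ∃ k : ℤ, c (x.1 + 1, x.2) - c x = k := by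
    intro x
    have h2 : cexp (2 * π * I * c (x.1 + 1, x.2)) = cexp (2 * π * I * c x) := by
      rw [← hcU, ← hcU]
      exact h1 x.1 x.2
    obtain ⟨n, hn⟩ := Complex.exp_eq_exp_iff_exists_int.mp h2
    refine ⟨n, ?_⟩
    apply mul_left_cancel₀ hpi
    linear_combination hn
  have hcont : Continuous (fun x : ℝ × ℝ => c (x.1 + 1, x.2) - c x) := by
    refine (hc.comp ?_).sub hc
    exact (continuous_fst.add continuous_const).prodMk continuous_snd
  obtain ⟨k, hk⟩ := int_const _ hcont hint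
  refine ⟨k, c, hc, hcU, fun x => ?_⟩
  rw [← hk x]
  ring

end Pool.Agent.Helper344.Ent
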