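import Pool.Agent.Helper344.Ent.Defs



namespace Pool.Agent.Helper344.Ent
open Complex Filter Topology
open scoped Real


theorem Wind2_mul {U V : ℝ × ℝ → ℂ} {k k' : ℤ} (h : Wind2 U k) (h' : Wind2 V k') :
    Wind2 (fun x => U x * V x) (k + k') := by
  obtain ⟨c, hc, hU, hk⟩ := h
  obtain ⟨d, hd, hV, hk'⟩ := h'
  refine ⟨fun x => c x + d x, hc.add hd, fun x => ?_, fun x => ?_⟩
  · show U x * V x = cexp (2 * π * I * (c x + d x))
    rw [hU x, hV x, ← Complex.exp_add]
    congr 1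
    ring
  · show c (x.1 + 1, x.2) + d (x.1 + 1, x.2) = c x + d x + ((k + k' : ℤ) : ℂ)
    rw [hk x, hk' x]
    push_cast
    ring

end Pool.Agent.Helper344.Ent
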