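import Pool.Agent.Helper344.Ent.Defs



namespace Pool.Agent.Helper344.Ent
open Complex Filter Topology
open scoped Real


theorem Wind2_sp (k : ℤ) : Wind2 (res (sp k)) (4 * k) := by
  refine ⟨fun x => 4 * (k : ℂ) * (x.1 : ℂ), ?_, ?_, ?_⟩
  · exact continuous_const.mul (Complex.continuous_ofReal.comp continuous_fst)
  · intro x
    unfold res sp
    congr 1
    ring
  · intro x
    push_cast
    ring

end Pool.Agent.Helper344.Ent
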