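import Pool.Agent.Helper344.Ent.Defs
import Pool.Agent.Helper344.Ent.P_int_const



namespace Pool.Agent.Helper344.Ent
open Complex Filter Topology
open scoped Real


theorem Wind2_unique {U : ℝ × ℝ → ℂ} {k k' : ℤ} (h : Wind2 U k) (h' : Wind2 U k') : k = k' := by
  obtain ⟨c, hc, hU, hk⟩ := h
  obtain ⟨c', hc', hU', hk'⟩ := h'
  obtain ⟨K, hK⟩ := int_const (fun x => c x - c' x) (hc.sub hc') (by
    intro x
    have h1 : cexp (2 * π * I * c x) = cexp (2 * π * I * c' x) := by rw [← hU, ← hU']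
    rw [Complex.exp_eq_exp_iff_exists_int] at h1
    obtain ⟨n, hn⟩ := h1
    refine ⟨n, ?_⟩
    have h2 : (2 * π * I : ℂ) ≠ 0 := Complex.two_pi_I_ne_zero
    have h3 : (2 * π * I : ℂ) * (c x - c' x) = (2 * π * I : ℂ) * n := by
      linear_combination hn
    exact mul_left_cancel₀ h2 h3)
  have h1 := hK (0, 0)
  have h2 := hK ((0 : ℝ) + 1, 0)
  have h3 := hk (0, 0)
  have h4 := hk' (0, 0)
  simp only at h1 h2 h3 h4
  rw [h3, h4] at h2
  have h5 : (k : ℂ) = (k' : ℂ) := by linear_combination h2 - h1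
  exact_mod_cast h5

end Pool.Agent.Helper344.Ent
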