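import Pool.Agent.Helper344.Ent.Defs
import Pool.Agent.Helper344.DPRM

namespace Pool.Agent.Helper344.Ent

theorem dprm {p : ℕ → Prop} (hp : REPred p) : Dioph {v : Unit → ℕ | p (v ())} :=
  Pool.Agent.Helper344.DP.dprm hp

end Pool.Agent.Helper344.Ent
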