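import Pool.Agent.Helper344.Ent.Defs
import Pool.Agent.Helper344.Ent.P_dprm



namespace Pool.Agent.Helper344.Ent
open Complex Filter Topology
open scoped Real


/-- satisfaction of constraints over an arbitrary type of variables -/
def fixed_constr_sat {W : Type} (a : W → ℤ) (c : ℕ × W × W × W) : Prop :=
  if c.1 = 0 then a c.2.1 = 1 else if c.1 = 1 then a c.2.1 + a c.2.2.1 = a c.2.2.2
  else a c.2.1 * a c.2.2.1 = a c.2.2.2

/-- renaming -/
def fixed_constr_ren {W W' : Type} (e : W → W') (c : ℕ × W × W × W) : ℕ × W' × W' × W' :=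
  (c.1, e c.2.1, e c.2.2.1, e c.2.2.2)

theorem fixed_constr_sat_ren {W W' : Type} (e : W → W') (a : W' → ℤ) (c : ℕ × W × W × W) :
    fixed_constr_sat a (fixed_constr_ren e c) ↔ fixed_constr_sat (a ∘ e) c := Iff.rfl

/-- `f` is represented by a list of constraints -/
def fixed_constr_Q {γ : Type} (f : (γ → ℕ) → ℤ) : Prop :=
  ∃ (δ : Type) (L : List (ℕ × (γ ⊕ δ) × (γ ⊕ δ) × (γ ⊕ δ))) (o : γ ⊕ δ),
    (∀ v : γ → ℕ, ∃ u : δ → ℤ, ∀ c ∈ L, fixed_constr_sat (Sum.elim (fun i => (v i : ℤ)) u) c) ∧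
    (∀ a : γ ⊕ δ → ℤ, (∀ c ∈ L, fixed_constr_sat a c) → a o = f (fun i => (a (.inl i)).toNat))

theorem fixed_constr_op {γ : Type} (op : ℤ → ℤ → ℤ)
    (K : ∀ {W : Type}, W → W → W → ℕ × W × W × W)
    (hK : ∀ {W : Type} (a : W → ℤ) (x y z : W), fixed_constr_sat a (K x y z) ↔ a z = op (a x) (a y))
    {f g : (γ → ℕ) → ℤ} (hf : fixed_constr_Q f) (hg : fixed_constr_Q g) :
    fixed_constr_Q (fun v => op (f v) (g v)) := by
  obtain ⟨δ1, L1, o1, hc1, hs1⟩ := hf
  obtain ⟨δ2, L2, o2, hc2, hs2⟩ := hg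
  let e1 : γ ⊕ δ1 → γ ⊕ (δ1 ⊕ δ2 ⊕ Unit) := Sum.map id Sum.inl
  let e2 : γ ⊕ δ2 → γ ⊕ (δ1 ⊕ δ2 ⊕ Unit) := Sum.map id (Sum.inr ∘ Sum.inl)
  refine ⟨δ1 ⊕ δ2 ⊕ Unit, L1.map (fixed_constr_ren e1) ++ L2.map (fixed_constr_ren e2) ++
    [K (e1 o1) (e2 o2) (.inr (.inr (.inr ())))], .inr (.inr (.inr ())), ?_, ?_⟩
  · intro v
    obtain ⟨u1, hu1⟩ := hc1 v
    obtain ⟨u2, hu2⟩ := hc2 v
    refine ⟨Sum.elim u1 (Sum.elim u2 (fun _ =>
      op (Sum.elim (fun i => (v i : ℤ)) u1 o1) (Sum.elim (fun i => (v i : ℤ)) u2 o2))), ?_⟩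
    set a : γ ⊕ (δ1 ⊕ δ2 ⊕ Unit) → ℤ := Sum.elim (fun i => (v i : ℤ)) (Sum.elim u1 (Sum.elim u2
      (fun _ => op (Sum.elim (fun i => (v i : ℤ)) u1 o1) (Sum.elim (fun i => (v i : ℤ)) u2 o2))))
      with ha
    have h1 : a ∘ e1 = Sum.elim (fun i => (v i : ℤ)) u1 := by
      funext w
      rcases w with w | w <;> rfl
    have h2 : a ∘ e2 = Sum.elim (fun i => (v i : ℤ)) u2 := by
      funext w
      rcases w with w | w <;> rfl
    intro c hc
    simp only [List.mem_append, List.mem_map, List.mem_singleton] at hc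
    rcases hc with (⟨c', hc', rfl⟩ | ⟨c', hc', rfl⟩) | rfl
    · rw [fixed_constr_sat_ren, h1]
      exact hu1 c' hc'
    · rw [fixed_constr_sat_ren, h2]
      exact hu2 c' hc'
    · rw [hK]
      have h3 : a (e1 o1) = Sum.elim (fun i => (v i : ℤ)) u1 o1 := congrFun h1 o1
      have h4 : a (e2 o2) = Sum.elim (fun i => (v i : ℤ)) u2 o2 := congrFun h2 o2
      rw [h3, h4]
      rfl
  · intro a ha
    have h1 : ∀ c ∈ L1, fixed_constr_sat (a ∘ e1) c := by
      intro c hc
      rw [← fixed_constr_sat_ren]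
      apply ha
      simp only [List.mem_append, List.mem_map]
      exact Or.inl (Or.inl ⟨c, hc, rfl⟩)
    have h2 : ∀ c ∈ L2, fixed_constr_sat (a ∘ e2) c := by
      intro c hc
      rw [← fixed_constr_sat_ren]
      apply ha
      simp only [List.mem_append, List.mem_map]
      exact Or.inl (Or.inr ⟨c, hc, rfl⟩)
    have h3 := ha (K (e1 o1) (e2 o2) (.inr (.inr (.inr ())))) (by simp)
    rw [hK] at h3
    have h4 := hs1 _ h1
    have h5 := hs2 _ h2
    have h6 : a (e1 o1) = f (fun i => (a (.inl i)).toNat) := h4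
    have h7 : a (e2 o2) = g (fun i => (a (.inl i)).toNat) := h5
    rw [h3, h6, h7]

theorem fixed_constr_sub {γ : Type} {f g : (γ → ℕ) → ℤ} (hf : fixed_constr_Q f)
    (hg : fixed_constr_Q g) : fixed_constr_Q (fun v => f v - g v) := by
  refine fixed_constr_op (fun x y => x - y) (fun x y z => (1, z, y, x)) ?_ hf hg
  intro W a x y z
  unfold fixed_constr_sat
  simp only [one_ne_zero, if_false, if_true]
  constructor <;> intro h <;> linarith

theorem fixed_constr_mul {γ : Type} {f g : (γ → ℕ) → ℤ} (hf : fixed_constr_Q f)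
    (hg : fixed_constr_Q g) : fixed_constr_Q (fun v => f v * g v) := by
  refine fixed_constr_op (fun x y => x * y) (fun x y z => (2, x, y, z)) ?_ hf hg
  intro W a x y z
  unfold fixed_constr_sat
  simp only [OfNat.ofNat_ne_zero, if_false, OfNat.ofNat_ne_one]
  constructor <;> intro h <;> linarith

theorem fixed_constr_zero {γ : Type} : fixed_constr_Q (fun _ : γ → ℕ => (0 : ℤ)) := by
  refine ⟨Unit, [(1, .inr (), .inr (), .inr ())], .inr (), ?_, ?_⟩
  · intro v
    refine ⟨fun _ => 0, ?_⟩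
    intro c hc
    rw [List.mem_singleton] at hc
    subst hc
    simp [fixed_constr_sat]
  · intro a ha
    have := ha _ (List.mem_singleton_self _)
    simp [fixed_constr_sat] at this
    exact this

theorem fixed_constr_one {γ : Type} : fixed_constr_Q (fun _ : γ → ℕ => (1 : ℤ)) := by
  refine ⟨Unit, [(0, .inr (), .inr (), .inr ())], .inr (), ?_, ?_⟩
  · intro v
    refine ⟨fun _ => 1, ?_⟩
    intro c hc
    rw [List.mem_singleton] at hc
    subst hc
    simp [fixed_constr_sat]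
  · intro a ha
    have := ha _ (List.mem_singleton_self _)
    simp [fixed_constr_sat] at this
    exact this

theorem fixed_constr_const {γ : Type} (n : ℤ) : fixed_constr_Q (fun _ : γ → ℕ => n) := by
  induction n using Int.induction_on with
  | zero => exact fixed_constr_zero
  | succ n ih =>
    have := fixed_constr_sub ih (fixed_constr_sub (γ := γ) fixed_constr_zero fixed_constr_one)
    simpa using this
  | pred n ih =>
    exact fixed_constr_sub ih fixed_constr_one

theorem fixed_constr_proj {γ : Type} (i : γ) : fixed_constr_Q (fun v : γ → ℕ => (v i : ℤ)) := by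
  refine ⟨Fin 10, [(2, .inr 0, .inr 0, .inr 4), (2, .inr 1, .inr 1, .inr 5),
    (2, .inr 2, .inr 2, .inr 6), (2, .inr 3, .inr 3, .inr 7), (1, .inr 4, .inr 5, .inr 8),
    (1, .inr 6, .inr 7, .inr 9), (1, .inr 8, .inr 9, .inl i)], .inl i, ?_, ?_⟩
  · intro v
    obtain ⟨a, b, c, d, h⟩ := Nat.sum_four_squares (v i)
    refine ⟨![a, b, c, d, a ^ 2, b ^ 2, c ^ 2, d ^ 2, a ^ 2 + b ^ 2, c ^ 2 + d ^ 2], ?_⟩
    have h' : (a : ℤ) ^ 2 + (b : ℤ) ^ 2 + ((c : ℤ) ^ 2 + (d : ℤ) ^ 2) = (v i : ℤ) := by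
      rw [← h]; push_cast; ring
    intro x hx
    simp only [List.mem_cons, List.not_mem_nil, or_false] at hx
    rcases hx with rfl | rfl | rfl | rfl | rfl | rfl | rfl
    · simp [fixed_constr_sat, sq]
    · simp [fixed_constr_sat, sq]
    · simp [fixed_constr_sat, sq]
    · simp [fixed_constr_sat, sq]
    · simp [fixed_constr_sat]
    · simp [fixed_constr_sat]
    · simpa [fixed_constr_sat] using h'
  · intro a ha
    simp only [List.mem_cons, List.not_mem_nil, or_false, forall_eq_or_imp, forall_eq,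
      fixed_constr_sat, OfNat.ofNat_ne_zero, if_false, OfNat.ofNat_ne_one, one_ne_zero,
      if_true] at ha
    obtain ⟨h1, h2, h3, h4, h5, h6, h7⟩ := ha
    have : 0 ≤ a (.inl i) := by
      rw [← h7, ← h5, ← h6, ← h1, ← h2, ← h3, ← h4]
      exact add_nonneg (add_nonneg (mul_self_nonneg _) (mul_self_nonneg _))
        (add_nonneg (mul_self_nonneg _) (mul_self_nonneg _))
    exact (Int.toNat_of_nonneg this).symm

theorem fixed_constr_poly {γ : Type} {f : (γ → ℕ) → ℤ} (hf : IsPoly f) : fixed_constr_Q f := by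
  induction hf with
  | proj i => exact fixed_constr_proj i
  | const n => exact fixed_constr_const n
  | sub _ _ h1 h2 => exact fixed_constr_sub h1 h2
  | mul _ _ h1 h2 => exact fixed_constr_mul h1 h2

theorem fixed_constr {p : ℕ → Prop} (hp : REPred p) : ∃ D : List (ℕ × ℕ × ℕ × ℕ), ∃ M : ℕ,
    (∀ c ∈ D, c.2.1 < M ∧ c.2.2.1 < M ∧ c.2.2.2 < M) ∧
    ∀ n : ℕ, p n ↔ ∃ x : ℕ → ℤ, x 0 = n ∧ ∀ c ∈ D, sat x c := by
  obtain ⟨β, f, hf⟩ := dprm hp
  obtain ⟨δ, L, o, hc, hs⟩ := fixed_constr_poly f.isPoly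
  letI : DecidableEq ((Unit ⊕ β) ⊕ δ) := Classical.decEq _
  letI : BEq ((Unit ⊕ β) ⊕ δ) := instBEqOfDecidableEq
  haveI : LawfulBEq ((Unit ⊕ β) ⊕ δ) := by infer_instance
  let w0 : (Unit ⊕ β) ⊕ δ := .inl (.inl ())
  let L' := (1, o, o, o) :: L
  let l := w0 :: L'.flatMap (fun c => [c.2.1, c.2.2.1, c.2.2.2])
  let e : (Unit ⊕ β) ⊕ δ → ℕ := fun w => l.idxOf w
  have he0 : e w0 = 0 := by
    show l.idxOf w0 = 0
    exact List.idxOf_cons_self
  have hget : ∀ w ∈ l, l.getD (e w) w0 = w := by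
    intro w hw
    have h1 : l.idxOf w < l.length := List.idxOf_lt_length_iff.2 hw
    show l.getD (l.idxOf w) w0 = w
    rw [List.getD_eq_getElem _ _ h1]
    exact List.getElem_idxOf h1
  refine ⟨L'.map (fixed_constr_ren e), l.length + 1, ?_, ?_⟩
  · intro c hc
    rw [List.mem_map] at hc
    obtain ⟨c', -, rfl⟩ := hc
    exact ⟨Nat.lt_succ_of_le List.idxOf_le_length, Nat.lt_succ_of_le List.idxOf_le_length,
      Nat.lt_succ_of_le List.idxOf_le_length⟩
  · intro n
    have hpn := hf (fun _ => n)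
    change p n ↔ _ at hpn
    rw [hpn]
    constructor
    · rintro ⟨t, ht⟩
      obtain ⟨u, hu⟩ := hc (Sum.elim (fun _ => n) t)
      set a : (Unit ⊕ β) ⊕ δ → ℤ :=
        Sum.elim (fun i => ((Sum.elim (fun _ => n) t i : ℕ) : ℤ)) u with ha
      have hao : a o = 0 := by
        rw [hs a hu, ← ht]
        congr 1
      refine ⟨fun k => a (l.getD k w0), ?_, ?_⟩
      · show a (l.getD 0 w0) = n
        rfl
      · intro c hc'
        rw [List.mem_map] at hc'
        obtain ⟨c', hc', rfl⟩ := hc'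
        have hx : ∀ w ∈ l, ((fun k => a (l.getD k w0)) ∘ e) w = a w := by
          intro w hw
          show a (l.getD (e w) w0) = a w
          rw [hget w hw]
        have hm : ∀ w ∈ [c'.2.1, c'.2.2.1, c'.2.2.2], w ∈ l := by
          intro w hw
          apply List.mem_cons_of_mem
          rw [List.mem_flatMap]
          exact ⟨c', hc', hw⟩
        have hsat : fixed_constr_sat a c' := by
          rcases List.mem_cons.1 hc' with rfl | h
          · simp [fixed_constr_sat, hao]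
          · exact hu c' h
        show fixed_constr_sat ((fun k => a (l.getD k w0)) ∘ e) c'
        unfold fixed_constr_sat at hsat ⊢
        rw [hx _ (hm _ (by simp)), hx _ (hm _ (by simp)), hx _ (hm _ (by simp))]
        exact hsat
    · rintro ⟨x, hx0, hx⟩
      have ha : ∀ c ∈ L', fixed_constr_sat (x ∘ e) c := by
        intro c hc'
        exact hx _ (List.mem_map_of_mem hc')
      have h0 : (x ∘ e) o = 0 := by
        have := ha (1, o, o, o) List.mem_cons_self
        simp only [fixed_constr_sat, one_ne_zero, if_false, if_true] at this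
        linarith
      have h1 := hs (x ∘ e) (fun c hc' => ha c (List.mem_cons_of_mem _ hc'))
      rw [h0] at h1
      refine ⟨fun b => ((x ∘ e) (.inl (.inr b))).toNat, ?_⟩
      rw [h1]
      congr 1
      funext i
      rcases i with i | i
      · show n = ((x ∘ e) w0).toNat
        rw [Function.comp_apply, he0, hx0]
        simp
      · rfl

end Pool.Agent.Helper344.Ent
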