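import Pool.Agent.Helper344.Ent.Defs
import Pool.Agent.Helper344.Ent.P_fixed_constr



namespace Pool.Agent.Helper344.Ent
open Complex Filter Topology
open scoped Real


def h400_f (D : List (ℕ × ℕ × ℕ × ℕ)) (N n : ℕ) : List (ℕ × ℕ × ℕ × ℕ) :=
  D ++ ([(0, N, 0, 0), (1, N + 1, N + 1, N + 1)] ++ ((1, N + 1 + n, N + 1, 0) ::
    (List.range n).map (fun k => (1, N + 1 + k, N, N + 2 + k))))

theorem h400_f_primrec (D : List (ℕ × ℕ × ℕ × ℕ)) (N : ℕ) : Primrec (h400_f D N) := by
  have h1 : Primrec₂ (fun (_ : ℕ) (k : ℕ) => ((1, N + 1 + k, N, N + 2 + k) : ℕ × ℕ × ℕ × ℕ)) :=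
    Primrec.pair (Primrec.const 1) (Primrec.pair (Primrec.nat_add.comp (Primrec.const (N + 1))
      Primrec.snd) (Primrec.pair (Primrec.const N)
      (Primrec.nat_add.comp (Primrec.const (N + 2)) Primrec.snd)))
  have h2 : Primrec (fun n : ℕ => (List.range n).map
      (fun k => ((1, N + 1 + k, N, N + 2 + k) : ℕ × ℕ × ℕ × ℕ))) :=
    Primrec.list_map Primrec.list_range h1
  have h3 : Primrec (fun n : ℕ => ((1, N + 1 + n, N + 1, 0) : ℕ × ℕ × ℕ × ℕ)) :=
    Primrec.pair (Primrec.const 1) (Primrec.pair (Primrec.nat_add.comp (Primrec.const (N + 1))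
      Primrec.id) (Primrec.const (N + 1, 0)))
  unfold h400_f
  exact Primrec.list_append.comp (Primrec.const D) (Primrec.list_append.comp
    (Primrec.const [(0, N, 0, 0), (1, N + 1, N + 1, N + 1)]) (Primrec.list_cons.comp h3 h2))

theorem h400_iff (D : List (ℕ × ℕ × ℕ × ℕ)) (N : ℕ) (hN0 : 0 < N)
    (hD : ∀ c ∈ D, c.2.1 < N ∧ c.2.2.1 < N ∧ c.2.2.2 < N) (n : ℕ) :
    ZSolv (h400_f D N n) ↔ ∃ x : ℕ → ℤ, x 0 = n ∧ ∀ c ∈ D, sat x c := by
  constructor
  · rintro ⟨x, hx⟩
    have m1 : ∀ c ∈ D, sat x c := fun c hc => hx c (List.mem_append_left _ hc)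
    have m2 : x N = 1 := by
      have := hx (0, N, 0, 0) (by
        unfold h400_f
        simp)
      unfold sat at this
      simpa using this
    have m3 : x (N + 1) + x (N + 1) = x (N + 1) := by
      have := hx (1, N + 1, N + 1, N + 1) (by
        unfold h400_f
        simp)
      unfold sat at this
      simpa using this
    have m4 : x (N + 1 + n) + x (N + 1) = x 0 := by
      have := hx (1, N + 1 + n, N + 1, 0) (by
        unfold h400_f
        simp)
      unfold sat at this
      simpa using this
    have m5 : ∀ k < n, x (N + 1 + k) + x N = x (N + 2 + k) := by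
      intro k hk
      have := hx (1, N + 1 + k, N, N + 2 + k) (by
        unfold h400_f
        apply List.mem_append_right
        apply List.mem_append_right
        apply List.mem_cons_of_mem
        rw [List.mem_map]
        exact ⟨k, List.mem_range.mpr hk, rfl⟩)
      unfold sat at this
      simpa using this
    have m6 : ∀ k ≤ n, x (N + 1 + k) = k := by
      intro k
      induction k with
      | zero =>
        intro _
        rw [Nat.add_zero, Nat.cast_zero]
        linarith
      | succ k ih =>
        intro hk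
        have e1 := m5 k (by omega)
        rw [ih (by omega), m2] at e1
        have e2 : N + 2 + k = N + 1 + (k + 1) := by ring
        rw [e2] at e1
        rw [← e1]
        push_cast
        ring
    refine ⟨x, ?_, m1⟩
    have e1 := m6 n le_rfl
    have e2 := m6 0 (Nat.zero_le _)
    rw [Nat.add_zero, Nat.cast_zero] at e2
    rw [← m4, e1, e2, add_zero]
  · rintro ⟨x, hx0, hx⟩
    obtain ⟨y, hy⟩ : ∃ y : ℕ → ℤ, y = fun i => if i < N then x i else if i = N then 1 else
      (i : ℤ) - (N + 1) := ⟨_, rfl⟩
    have y1 : ∀ i < N, y i = x i := by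
      intro i hi
      rw [hy]
      exact if_pos hi
    have y2 : y N = 1 := by
      rw [hy]
      simp
    have y3 : ∀ i, N < i → y i = (i : ℤ) - (N + 1) := by
      intro i hi
      rw [hy]
      show (if i < N then x i else if i = N then 1 else (i : ℤ) - (N + 1)) = _
      rw [if_neg (by omega), if_neg (by omega)]
    refine ⟨y, ?_⟩
    intro c hc
    unfold h400_f at hc
    rcases List.mem_append.mp hc with h | h
    · obtain ⟨d1, d2, d3⟩ := hD c h
      have := hx c h
      unfold sat at this ⊢
      rw [y1 _ d1, y1 _ d2, y1 _ d3]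
      exact this
    · rcases List.mem_append.mp h with h | h
      · simp only [List.mem_cons, List.not_mem_nil, or_false] at h
        rcases h with rfl | rfl
        · unfold sat
          simpa using y2
        · have e1 := y3 (N + 1) (by omega)
          unfold sat
          simp only [one_ne_zero, if_false, if_true]
          rw [e1]
          push_cast
          ring
      · rcases List.mem_cons.mp h with rfl | h
        · have e1 := y3 (N + 1) (by omega)
          have e2 := y3 (N + 1 + n) (by omega)
          have e3 := y1 0 hN0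
          unfold sat
          simp only [one_ne_zero, if_false, if_true]
          rw [e1, e2, e3, hx0]
          push_cast
          ring
        · obtain ⟨k, -, rfl⟩ := List.mem_map.mp h
          have e1 := y3 (N + 1 + k) (by omega)
          have e2 := y3 (N + 2 + k) (by omega)
          unfold sat
          simp only [one_ne_zero, if_false, if_true]
          rw [e1, e2, y2]
          push_cast
          ring

theorem arith : ¬ ComputablePred ZSolv := by
  intro h
  obtain ⟨p, hp⟩ : ∃ p : ℕ → Prop, p = fun n =>
    (Nat.Partrec.Code.eval (Denumerable.ofNat Nat.Partrec.Code n) 0).Dom := ⟨_, rfl⟩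
  have hre : REPred p := by
    rw [hp]
    exact (Nat.Partrec.Code.eval_part.comp (Primrec.ofNat Nat.Partrec.Code).to_comp
      (Computable.const 0)).dom_re
  obtain ⟨D, M, hD, hiff⟩ := fixed_constr hre
  have hD' : ∀ c ∈ D, c.2.1 < M + 1 ∧ c.2.2.1 < M + 1 ∧ c.2.2.2 < M + 1 := by
    intro c hc
    obtain ⟨h1, h2, h3⟩ := hD c hc
    exact ⟨by omega, by omega, by omega⟩
  have hf : Computable (h400_f D (M + 1)) := (h400_f_primrec D (M + 1)).to_comp
  obtain ⟨inst, hc⟩ := h
  have h1 : ComputablePred (fun n => ZSolv (h400_f D (M + 1) n)) :=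
    ⟨fun n => inst (h400_f D (M + 1) n), hc.comp hf⟩
  have h2 : ComputablePred p := h1.of_eq (fun n => by
    rw [h400_iff D (M + 1) (Nat.succ_pos _) hD' n, hiff n])
  obtain ⟨inst2, hc2⟩ := h2
  have h3 : ComputablePred (fun c : Nat.Partrec.Code => p (Encodable.encode c)) :=
    ⟨fun c => inst2 (Encodable.encode c), hc2.comp Computable.encode⟩
  apply ComputablePred.halting_problem 0
  apply h3.of_eq
  intro c
  rw [hp]
  show (Nat.Partrec.Code.eval (Denumerable.ofNat Nat.Partrec.Code (Encodable.encode c)) 0).Dom ↔ _
  rw [Denumerable.ofNat_encode]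

end Pool.Agent.Helper344.Ent
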