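import Pool.Agent.Helper344.Ent.Defs



namespace Pool.Agent.Helper344.Ent
open Complex Filter Topology
open scoped Real


theorem lat_const {α : Type} [TopologicalSpace α] [PreconnectedSpace α] [Nonempty α] (f : α → ℂ)
    (hf : Continuous f) (h : ∀ x, ∃ m n : ℤ, f x = 2 * m + 2 * n * I) :
    ∃ m n : ℤ, ∀ x, f x = 2 * m + 2 * n * I := by
  choose m n hmn using h
  have hm : Continuous m := by
    rw [Int.isClosedEmbedding_coe_real.isEmbedding.continuous_iff]
    have e : (fun x => ((m x : ℤ) : ℝ)) = fun x => (f x).re / 2 := by
      funext x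
      rw [hmn x]
      simp
    show Continuous (fun x => ((m x : ℤ) : ℝ))
    rw [e]
    exact (Complex.continuous_re.comp hf).div_const 2
  have hn : Continuous n := by
    rw [Int.isClosedEmbedding_coe_real.isEmbedding.continuous_iff]
    have e : (fun x => ((n x : ℤ) : ℝ)) = fun x => (f x).im / 2 := by
      funext x
      rw [hmn x]
      simp
    show Continuous (fun x => ((n x : ℤ) : ℝ))
    rw [e]
    exact (Complex.continuous_im.comp hf).div_const 2
  obtain ⟨x0⟩ := (inferInstance : Nonempty α)
  refine ⟨m x0, n x0, fun x => ?_⟩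
  have e1 : m x = m x0 := PreconnectedSpace.constant inferInstance hm
  have e2 : n x = n x0 := PreconnectedSpace.constant inferInstance hn
  rw [hmn x, e1, e2]

end Pool.Agent.Helper344.Ent
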