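import Pool.Agent.Helper344.Ent.Defs
import Pool.Agent.Helper344.Ent.P_G_diff
import Pool.Agent.Helper344.Ent.P_G_one
import Pool.Agent.Helper344.Ent.P_G_add
import Pool.Agent.Helper344.Ent.P_G_inj
import Pool.Agent.Helper344.Ent.P_lat_const



namespace Pool.Agent.Helper344.Ent
open Complex Filter Topology
open scoped Real


theorem aux_Tw_smul (c : ℂ) (v : Fin 4 → ℂ) : Tw (c • v) = c • Tw v := by
  funext i
  fin_cases i <;> simp [Tw]

theorem aux_jj (n : ℤ) (w : ℂ) : jj n (w + 1) = jj n w := by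
  unfold jj
  have h1 : (4 * π * (n : ℂ) ^ 2 - 4 * π * I * n * (w + 1) : ℂ)
      = (4 * π * (n : ℂ) ^ 2 - 4 * π * I * n * w) + ((-(2 * n) : ℤ) : ℂ) * (2 * π * I) := by
    push_cast
    ring
  rw [h1, Complex.exp_add, Complex.exp_int_mul_two_pi_mul_I, mul_one]

theorem glueT (φ F : ℝ × ℝ → ℂ) (hφ : Continuous φ) (hF : ∀ x, F x ≠ 0) (a : ℝ)
    (h : ∀ z, F (z, a) • G (φ (z, a)) = Tw (F (z, -a) • G (φ (z, -a)))) :
    ∃ m n : ℤ, ∀ z, φ (z, a) = φ (z, -a) + (2 * m + 1) + 2 * n * I ∧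
      F (z, a) * jj n (φ (z, -a)) = F (z, -a) := by
  have key : ∀ z : ℝ, F (z, a) • G (φ (z, a)) = F (z, -a) • G (φ (z, -a) + 1) := by
    intro z
    rw [h z, aux_Tw_smul, G_one]
  have h1 : ∀ z : ℝ, ∃ m n : ℤ, φ (z, a) - φ (z, -a) - 1 = 2 * m + 2 * n * I := by
    intro z
    have h2 : G (φ (z, a)) = (F (z, -a) / F (z, a)) • G (φ (z, -a) + 1) := by
      have h3 := congrArg (fun v => (F (z, a))⁻¹ • v) (key z)
      beta_reduce at h3
      rw [smul_smul, smul_smul, inv_mul_cancel₀ (hF _), one_smul] at h3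
      rw [h3]
      congr 1
      rw [div_eq_mul_inv, mul_comm]
    obtain ⟨m, n, hmn⟩ := G_inj (φ (z, -a) + 1) (φ (z, a)) (F (z, -a) / F (z, a))
      (div_ne_zero (hF _) (hF _)) h2
    refine ⟨m, n, ?_⟩
    rw [hmn]
    ring
  obtain ⟨m, n, hmn⟩ := lat_const (fun z : ℝ => φ (z, a) - φ (z, -a) - 1) (by fun_prop) h1
  refine ⟨m, n, fun z => ?_⟩
  have h4 : φ (z, a) = φ (z, -a) + (2 * m + 1) + 2 * n * I := by
    have := hmn z
    beta_reduce at this
    linear_combination this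
  refine ⟨h4, ?_⟩
  have h5 : G (φ (z, a)) = jj n (φ (z, -a)) • G (φ (z, -a) + 1) := by
    have h6 : φ (z, a) = (φ (z, -a) + 1) + 2 * m + 2 * n * I := by
      rw [h4]; ring
    rw [h6, G_add, aux_jj]
  have h7 := key z
  rw [h5, smul_smul] at h7
  exact smul_left_injective ℂ (G_diff.2.2 (φ (z, -a) + 1)) h7

end Pool.Agent.Helper344.Ent
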