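import Pool.Agent.Helper344.Ent.Defs
import Pool.Agent.Helper344.Ent.P_G_mem
import Pool.Agent.Helper344.Ent.P_G_diff
import Pool.Agent.Helper344.Ent.P_G_add
import Pool.Agent.Helper344.Ent.P_G_surj
import Pool.Agent.Helper344.Ent.P_G_inj
import Pool.Agent.Helper344.Ent.P_G_proper



namespace Pool.Agent.Helper344.Ent
open Complex Filter Topology
open scoped Real


theorem jj_cocycle (m₂ n₁ n₂ : ℤ) (w : ℂ) :
    jj (n₁ + n₂) w = jj n₂ w * jj n₁ (w + 2 * m₂ + 2 * n₂ * I) := by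
  unfold jj
  rw [← Complex.exp_add]
  have h : cexp (-(2 * π * I) * ((4 * n₁ * m₂ : ℤ) : ℂ)) = 1 := by
    rw [Complex.exp_eq_one_iff]
    exact ⟨-(4 * n₁ * m₂), by push_cast; ring⟩
  rw [← mul_one (cexp (4 * π * ((n₁ + n₂ : ℤ) : ℂ) ^ 2 - 4 * π * I * ((n₁ + n₂ : ℤ) : ℂ) * w)), ← h,
    ← Complex.exp_add]
  congr 1
  push_cast
  linear_combination (8 * (π:ℂ) * n₁ * n₂) * Complex.I_sq

theorem jj_ne (n : ℤ) (w : ℂ) : jj n w ≠ 0 := Complex.exp_ne_zero _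

theorem jj_zero (w : ℂ) : jj 0 w = 1 := by simp [jj]

theorem jj_cont (n : ℤ) : Continuous (jj n) := by
  unfold jj
  fun_prop

/-- the total space -/
abbrev EE : Type := ℂ × {F : ℂ // F ≠ 0}

noncomputable instance instActEE : AddAction (ℤ × ℤ) EE where
  vadd g e := (e.1 + 2 * g.1 + 2 * g.2 * I, ⟨e.2.1 * (jj g.2 e.1)⁻¹,
    mul_ne_zero e.2.2 (inv_ne_zero (jj_ne _ _))⟩)
  zero_vadd e := by
    apply Prod.ext
    · show e.1 + 2 * ((0:ℤ):ℂ) + 2 * ((0:ℤ):ℂ) * I = e.1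
      simp
    · apply Subtype.ext
      show e.2.1 * (jj 0 e.1)⁻¹ = e.2.1
      rw [jj_zero]; simp
  add_vadd g h e := by
    apply Prod.ext
    · show e.1 + 2 * ((g.1 + h.1 : ℤ):ℂ) + 2 * ((g.2 + h.2 : ℤ):ℂ) * I
        = (e.1 + 2 * (h.1:ℂ) + 2 * (h.2:ℂ) * I) + 2 * (g.1:ℂ) + 2 * (g.2:ℂ) * I
      push_cast; ring
    · apply Subtype.ext
      show e.2.1 * (jj (g.2 + h.2) e.1)⁻¹
        = (e.2.1 * (jj h.2 e.1)⁻¹) * (jj g.2 (e.1 + 2 * (h.1:ℂ) + 2 * (h.2:ℂ) * I))⁻¹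
      rw [jj_cocycle h.1, mul_inv, ← mul_assoc]

theorem vadd_fst (g : ℤ × ℤ) (e : EE) : (g +ᵥ e).1 = e.1 + 2 * (g.1:ℂ) + 2 * (g.2:ℂ) * I := rfl

theorem vadd_snd (g : ℤ × ℤ) (e : EE) : (g +ᵥ e).2.1 = e.2.1 * (jj g.2 e.1)⁻¹ := rfl

/-- the covering map -/
noncomputable def pp (e : EE) : {v : Fin 4 → ℂ // v ∈ Xset} := ⟨e.2.1 • G e.1, G_mem _ _ e.2.2⟩

theorem pp_cont : Continuous pp := by
  unfold pp
  refine Continuous.subtype_mk ?_ _
  exact (continuous_subtype_val.comp continuous_snd).smul (G_diff.2.1.comp continuous_fst)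

theorem pp_quot : IsQuotientMap pp := by
  rw [isQuotientMap_iff_isClosed]
  constructor
  · rintro ⟨v, hv⟩
    obtain ⟨w, F, hF, h⟩ := G_surj v hv
    exact ⟨(w, ⟨F, hF⟩), Subtype.ext h.symm⟩
  · intro C
    constructor
    · intro hC
      exact hC.preimage pp_cont
    · intro hC
      apply IsSeqClosed.isClosed
      intro x x0 hx hlim
      have hlim' : Tendsto (fun k => (x k).1) atTop (𝓝 x0.1) :=
        (continuous_subtype_val.tendsto x0).comp hlim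
      obtain ⟨ψ, w, F, w0, F0, hψ, hF, hF0, hxF, hw, hFl⟩ :=
        G_proper (fun k => (x k).1) x0.1 x0.2 (fun k => (x k).2) hlim'
      set e : ℕ → EE := fun k => (w k, ⟨F k, hF k⟩) with he
      set e0 : EE := (w0, ⟨F0, hF0⟩) with he0
      have hpe : ∀ k, pp (e k) = x (ψ k) := fun k => Subtype.ext (hxF k).symm
      have hel : Tendsto e atTop (𝓝 e0) := by
        rw [nhds_prod_eq]
        refine Tendsto.prodMk hw ?_
        rw [tendsto_subtype_rng]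
        exact hFl
      have he0C : e0 ∈ pp ⁻¹' C := by
        refine hC.mem_of_tendsto hel (Eventually.of_forall fun k => ?_)
        show pp (e k) ∈ C
        rw [hpe]
        exact hx (ψ k)
      have h1 : Tendsto (fun k => pp (e k)) atTop (𝓝 (pp e0)) := (pp_cont.tendsto e0).comp hel
      have h2 : Tendsto (fun k => pp (e k)) atTop (𝓝 x0) := by
        have : (fun k => pp (e k)) = fun k => x (ψ k) := funext hpe
        rw [this]
        exact hlim.comp hψ.tendsto_atTop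
      rw [tendsto_nhds_unique h2 h1]
      exact he0C

theorem pp_orbit {e₁ e₂ : EE} : pp e₁ = pp e₂ ↔ e₁ ∈ AddAction.orbit (ℤ × ℤ) e₂ := by
  constructor
  · intro h
    have h1 : e₁.2.1 • G e₁.1 = e₂.2.1 • G e₂.1 := congrArg Subtype.val h
    have h2 : G e₁.1 = (e₁.2.1⁻¹ * e₂.2.1) • G e₂.1 := by
      rw [mul_smul, ← h1, smul_smul, inv_mul_cancel₀ e₁.2.2, one_smul]
    obtain ⟨m, n, hmn⟩ := G_inj e₂.1 e₁.1 _ (mul_ne_zero (inv_ne_zero e₁.2.2) e₂.2.2) h2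
    refine ⟨(m, n), ?_⟩
    have h3 := G_add m n e₂.1
    rw [← hmn] at h3
    rw [h3, smul_smul] at h1
    have h4 : e₁.2.1 * jj n e₂.1 = e₂.2.1 := smul_left_injective ℂ (G_diff.2.2 e₂.1) h1
    apply Prod.ext
    · exact hmn.symm
    · apply Subtype.ext
      show e₂.2.1 * (jj n e₂.1)⁻¹ = e₁.2.1
      rw [← h4, mul_assoc, mul_inv_cancel₀ (jj_ne _ _), mul_one]
  · rintro ⟨g, rfl⟩
    apply Subtype.ext
    show (g +ᵥ e₂).2.1 • G (g +ᵥ e₂).1 = e₂.2.1 • G e₂.1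
    rw [vadd_fst, vadd_snd, G_add, smul_smul, mul_assoc, inv_mul_cancel₀ (jj_ne _ _), mul_one]

theorem pp_cov : IsAddQuotientCoveringMap pp (ℤ × ℤ) where
  toIsQuotientMap := pp_quot
  continuous_const_vadd g := by
    show Continuous (fun e : EE => ((e.1 + 2 * (g.1:ℂ) + 2 * (g.2:ℂ) * I, ⟨e.2.1 * (jj g.2 e.1)⁻¹,
      mul_ne_zero e.2.2 (inv_ne_zero (jj_ne _ _))⟩) : EE))
    refine Continuous.prodMk ?_ ?_
    · exact (continuous_fst.add continuous_const).add continuous_const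
    · refine Continuous.subtype_mk ?_ _
      exact (continuous_subtype_val.comp continuous_snd).mul
        (((jj_cont g.2).comp continuous_fst).inv₀ (fun e => jj_ne _ _))
  apply_eq_iff_mem_orbit := pp_orbit
  disjoint e := by
    refine ⟨Prod.fst ⁻¹' Metric.ball e.1 (1 / 2), continuous_fst.continuousAt.preimage_mem_nhds
      (Metric.ball_mem_nhds _ (by norm_num)), ?_⟩
    rintro g ⟨_, ⟨e', he', rfl⟩, hge⟩
    simp only [Set.mem_preimage, Metric.mem_ball, dist_eq_norm] at he' hge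
    rw [vadd_fst] at hge
    have h1 : ‖2 * (g.1:ℂ) + 2 * (g.2:ℂ) * I‖ < 1 := by
      have h2 : 2 * (g.1:ℂ) + 2 * (g.2:ℂ) * I
          = (e'.1 + 2 * (g.1:ℂ) + 2 * (g.2:ℂ) * I - e.1) - (e'.1 - e.1) := by ring
      rw [h2]
      refine (norm_sub_le _ _).trans_lt ?_
      linarith
    have hre : (2 * (g.1:ℂ) + 2 * (g.2:ℂ) * I).re = 2 * (g.1:ℝ) := by simp
    have him : (2 * (g.1:ℂ) + 2 * (g.2:ℂ) * I).im = 2 * (g.2:ℝ) := by simp
    have h3 := (Complex.abs_re_le_norm (2 * (g.1:ℂ) + 2 * (g.2:ℂ) * I)).trans_lt h1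
    have h4 := (Complex.abs_im_le_norm (2 * (g.1:ℂ) + 2 * (g.2:ℂ) * I)).trans_lt h1
    rw [hre, abs_lt] at h3
    rw [him, abs_lt] at h4
    have h5 : (-1:ℤ) < 2 * g.1 ∧ 2 * g.1 < 1 := by
      constructor <;> [exact_mod_cast h3.1; exact_mod_cast h3.2]
    have h6 : (-1:ℤ) < 2 * g.2 ∧ 2 * g.2 < 1 := by
      constructor <;> [exact_mod_cast h4.1; exact_mod_cast h4.2]
    apply Prod.ext
    · show g.1 = 0
      omega
    · show g.2 = 0
      omega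

theorem lift_thm (v : ℝ × ℝ → (Fin 4 → ℂ)) (hv : Continuous v) (hX : ∀ x, v x ∈ Xset)
    (w0 F0 : ℂ) (hF0 : F0 ≠ 0) (h0 : v (0, 0) = F0 • G w0) :
    ∃ φ F : ℝ × ℝ → ℂ, Continuous φ ∧ Continuous F ∧ (∀ x, F x ≠ 0) ∧
      (∀ x, v x = F x • G (φ x)) ∧ φ (0, 0) = w0 ∧ F (0, 0) = F0 := by
  have hcov : IsCoveringMap pp := pp_cov.isCoveringMap
  obtain ⟨Fl, ⟨hF1, hF2⟩, -⟩ := hcov.existsUnique_continuousMap_lifts
    (⟨fun x => ⟨v x, hX x⟩, hv.subtype_mk _⟩ : C(ℝ × ℝ, {v : Fin 4 → ℂ // v ∈ Xset})) (0, 0)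
    ((w0, ⟨F0, hF0⟩) : EE) (Subtype.ext h0.symm)
  refine ⟨fun x => (Fl x).1, fun x => (Fl x).2.1, continuous_fst.comp Fl.continuous,
    continuous_subtype_val.comp (continuous_snd.comp Fl.continuous), fun x => (Fl x).2.2, ?_, ?_, ?_⟩
  · intro x
    have h := congrFun hF2 x
    exact (congrArg Subtype.val h).symm
  · show (Fl (0, 0)).1 = w0
    rw [hF1]
  · show (Fl (0, 0)).2.1 = F0
    rw [hF1]

end Pool.Agent.Helper344.Ent
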