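import Pool.Agent.Helper344.Ent.Defs
import Pool.Agent.Helper344.Ent.P_G_diff
import Pool.Agent.Helper344.Ent.P_G_add
import Pool.Agent.Helper344.Ent.P_G_inj
import Pool.Agent.Helper344.Ent.P_lat_const



namespace Pool.Agent.Helper344.Ent
open Complex Filter Topology
open scoped Real


theorem period (φ F : ℝ × ℝ → ℂ) (hφ : Continuous φ) (hF : ∀ x, F x ≠ 0)
    (hp : ∀ z t, F (z + 1, t) • G (φ (z + 1, t)) = F (z, t) • G (φ (z, t))) :
    ∃ m n : ℤ, ∀ z t, φ (z + 1, t) = φ (z, t) + 2 * m + 2 * n * I ∧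
      F (z + 1, t) * jj n (φ (z, t)) = F (z, t) := by
  have hcont : Continuous fun x : ℝ × ℝ => φ (x.1 + 1, x.2) - φ x :=
    (hφ.comp ((continuous_fst.add continuous_const).prodMk continuous_snd)).sub hφ
  have hpt : ∀ x : ℝ × ℝ, ∃ m n : ℤ, φ (x.1 + 1, x.2) - φ x = 2 * m + 2 * n * I := by
    rintro ⟨z, t⟩
    have h1 : G (φ (z + 1, t)) = (F (z, t) / F (z + 1, t)) • G (φ (z, t)) := by
      have h2 := congrArg (fun v => (F (z + 1, t))⁻¹ • v) (hp z t)
      simp only [smul_smul] at h2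
      rw [inv_mul_cancel₀ (hF _), one_smul] at h2
      rw [h2]
      congr 1
      rw [div_eq_mul_inv, mul_comm]
    obtain ⟨m, n, h⟩ := G_inj (φ (z, t)) (φ (z + 1, t)) _ (div_ne_zero (hF _) (hF _)) h1
    refine ⟨m, n, ?_⟩
    simp only
    rw [h]
    ring
  obtain ⟨m, n, h⟩ := lat_const _ hcont hpt
  refine ⟨m, n, fun z t => ?_⟩
  have h1 : φ (z + 1, t) = φ (z, t) + 2 * m + 2 * n * I := by
    have h2 := h (z, t)
    simp only at h2
    rw [sub_eq_iff_eq_add] at h2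
    rw [h2]
    ring
  refine ⟨h1, ?_⟩
  have h3 := hp z t
  rw [h1, G_add m n, smul_smul] at h3
  have h4 : (F (z + 1, t) * jj n (φ (z, t)) - F (z, t)) • G (φ (z, t)) = 0 := by
    rw [sub_smul, h3, sub_self]
  rcases smul_eq_zero.mp h4 with h5 | h5
  · exact sub_eq_zero.mp h5
  · exact absurd h5 (G_diff.2.2 _)

end Pool.Agent.Helper344.Ent
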