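import Pool.Agent.Helper344.Ent.Defs
import Pool.Agent.Helper344.Ent.P_log2
import Pool.Agent.Helper344.Ent.P_int_const



namespace Pool.Agent.Helper344.Ent
open Complex Filter Topology
open scoped Real


theorem wind_formula (φ F : ℝ × ℝ → ℂ) (hφ : Continuous φ) (hFc : Continuous F)
    (hF : ∀ x, F x ≠ 0) (m n : ℤ)
    (hp : ∀ z t, φ (z + 1, t) = φ (z, t) + 2 * m + 2 * n * I ∧
      F (z + 1, t) * jj n (φ (z, t)) = F (z, t))
    (a : ℝ) (U : ℝ × ℝ → ℂ) (k : ℤ) (hU : Wind2 U k) (m' n' : ℤ)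
    (hg : ∀ z, φ (z, a) = φ (z, -a) + m' + 2 * n' * I ∧
      F (z, a) * jj n' (φ (z, -a)) = U (z, a) * F (z, -a)) :
    k = 2 * n * m' - 4 * n' * m := by
  obtain ⟨c, hc, hcF⟩ := log2 F hFc hF
  obtain ⟨d, hd, hdU, hdk⟩ := hU
  have hpi : (2 * π * I : ℂ) ≠ 0 := Complex.two_pi_I_ne_zero
  obtain ⟨N, hN⟩ := int_const (fun x : ℝ × ℝ => c (x.1 + 1, x.2) - 2 * I * (n : ℂ) ^ 2 -
      2 * n * φ x - c x) (by fun_prop) (by
    intro x
    have h1 := (hp x.1 x.2).2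
    rw [hcF, hcF (x.1, x.2), jj, ← Complex.exp_add, Complex.exp_eq_exp_iff_exists_int] at h1
    obtain ⟨j, hj⟩ := h1
    refine ⟨j, ?_⟩
    apply mul_left_cancel₀ hpi
    linear_combination hj - 4 * π * (n : ℂ) ^ 2 * Complex.I_mul_I)
  obtain ⟨N', hN'⟩ := int_const (fun z : ℝ => c (z, a) - 2 * I * (n' : ℂ) ^ 2 -
      2 * n' * φ (z, -a) - d (z, a) - c (z, -a)) (by fun_prop) (by
    intro z
    have h1 := (hg z).2
    rw [hcF, hcF (z, -a), hdU, jj, ← Complex.exp_add, ← Complex.exp_add,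
      Complex.exp_eq_exp_iff_exists_int] at h1
    obtain ⟨j, hj⟩ := h1
    refine ⟨j, ?_⟩
    apply mul_left_cancel₀ hpi
    linear_combination hj - 4 * π * (n' : ℂ) ^ 2 * Complex.I_mul_I)
  have e1 := hN (0, a)
  have e2 := hN (0, -a)
  have e3 := hN' 0
  have e4 := hN' (0 + 1)
  have e5 := hdk (0, a)
  have e6 := (hp 0 (-a)).1
  have e7 := (hg 0).1
  simp only at e1 e2 e3 e4 e5
  have hfin : (k : ℂ) = 2 * n * m' - 4 * n' * m := by
    linear_combination e1 - e2 + e3 - e4 - e5 - 2 * n' * e6 + 2 * n * e7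
  exact_mod_cast hfin

end Pool.Agent.Helper344.Ent
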