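import Pool.Agent.Helper344.Ent.Defs
import Pool.Agent.Helper344.Ent.P_G_diff
import Pool.Agent.Helper344.Ent.P_G_add
import Pool.Agent.Helper344.Ent.P_G_surj
import Pool.Agent.Helper344.Ent.P_G_inj
import Pool.Agent.Helper344.Ent.P_lift_thm
import Pool.Agent.Helper344.Ent.P_lat_const
import Pool.Agent.Helper344.Ent.P_Wind2_ex
import Pool.Agent.Helper344.Ent.P_Wind2_unique
import Pool.Agent.Helper344.Ent.P_Wind2_sp
import Pool.Agent.Helper344.Ent.P_period
import Pool.Agent.Helper344.Ent.P_glue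
import Pool.Agent.Helper344.Ent.P_glueT
import Pool.Agent.Helper344.Ent.P_wind_formula



namespace Pool.Agent.Helper344.Ent
open Complex Filter Topology
open scoped Real


theorem lat_inj {a b c d : ℤ} (h : (2 : ℂ) * a + 2 * b * I = 2 * c + 2 * d * I) : a = c ∧ b = d := by
  have hre := congrArg Complex.re h
  have him := congrArg Complex.im h
  simp at hre him
  exact ⟨by exact_mod_cast hre, by exact_mod_cast him⟩

theorem mul_sound (ve va : ℝ × ℝ → (Fin 4 → ℂ)) (hve : Continuous ve) (hva : Continuous va)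
    (hXe : ∀ x, ve x ∈ Xset) (hXa : ∀ x, va x ∈ Xset)
    (hpe : ∀ z t, ve (z + 1, t) = ve (z, t)) (hpa : ∀ z t, va (z + 1, t) = va (z, t))
    (h0 : ∀ t, ve (0, t) = va (0, t))
    (U V W : ℝ × ℝ → ℂ) (hU : Continuous U) (hV : Continuous V) (hW : Continuous W)
    (hU0 : ∀ x, U x ≠ 0) (hV0 : ∀ x, V x ≠ 0) (hW0 : ∀ x, W x ≠ 0)
    (hU1 : ∀ z t, U (z + 1, t) = U (z, t)) (hV1 : ∀ z t, V (z + 1, t) = V (z, t))
    (hW1 : ∀ z t, W (z + 1, t) = W (z, t))
    (e1 : ∀ z : ℝ, ve (z, 1) = cexp (8 * π * I * z) • ve (z, -1))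
    (e2 : ∀ z : ℝ, ve (z, 2) = V (z, 2) • ve (z, -2))
    (e3 : ∀ z : ℝ, ve (z, 3) = Tw (ve (z, -3)))
    (a1 : ∀ z : ℝ, va (z, 1) = U (z, 1) • va (z, -1))
    (a2 : ∀ z : ℝ, va (z, 2) = W (z, 2) • va (z, -2))
    (a3 : ∀ z : ℝ, va (z, 3) = Tw (va (z, -3))) :
    ∃ x y : ℤ, Wind2 U (4 * x) ∧ Wind2 V (4 * y) ∧ Wind2 W (4 * (x * y)) := by
  obtain ⟨w0, F0, hF0, h00⟩ := G_surj (ve (0, 0)) (hXe (0, 0))
  obtain ⟨φe, Fe, hφe, hFec, hFe, hve', hφe0, hFe0⟩ := lift_thm ve hve hXe w0 F0 hF0 h00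
  have h00' : va (0, 0) = F0 • G w0 := by rw [← h0 0]; exact h00
  obtain ⟨φa, Fa, hφa, hFac, hFa, hva', hφa0, hFa0⟩ := lift_thm va hva hXa w0 F0 hF0 h00'
  obtain ⟨me, ne, hpe'⟩ := period φe Fe hφe hFe (by
    intro z t; rw [← hve', ← hve']; exact hpe z t)
  obtain ⟨ma, na, hpa'⟩ := period φa Fa hφa hFa (by
    intro z t; rw [← hva', ← hva']; exact hpa z t)
  -- lifts agree along z = 0
  have hagree : ∀ t : ℝ, φe (0, t) = φa (0, t) := by
    have hlat : ∀ t : ℝ, ∃ m n : ℤ, φe (0, t) - φa (0, t) = 2 * m + 2 * n * I := by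
      intro t
      have e := h0 t
      rw [hve', hva'] at e
      have hG : G (φe (0, t)) = (Fa (0, t) / Fe (0, t)) • G (φa (0, t)) := by
        have h1 : (Fe (0, t))⁻¹ • (Fe (0, t) • G (φe (0, t))) = (Fe (0, t))⁻¹ • (Fa (0, t) • G (φa (0, t))) := by
          rw [e]
        rw [smul_smul, inv_mul_cancel₀ (hFe _), one_smul, smul_smul] at h1
        rw [h1, div_eq_inv_mul]
      obtain ⟨m, n, hmn⟩ := G_inj (φa (0, t)) (φe (0, t)) (Fa (0, t) / Fe (0, t))
        (div_ne_zero (hFa _) (hFe _)) hG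
      exact ⟨m, n, by rw [hmn]; ring⟩
    have hcont : Continuous (fun t : ℝ => φe (0, t) - φa (0, t)) := by
      have hc : Continuous (fun t : ℝ => ((0 : ℝ), t)) := by fun_prop
      exact (hφe.comp hc).sub (hφa.comp hc)
    obtain ⟨m, n, hmn⟩ := lat_const (fun t : ℝ => φe (0, t) - φa (0, t)) hcont hlat
    have h000 := hmn 0
    simp only [hφe0, hφa0, sub_self] at h000
    intro t
    have := hmn t
    rw [← h000] at this
    exact sub_eq_zero.mp this
  obtain ⟨mf, nf, hf⟩ := glue φe Fe hφe hFe 1 (fun z => cexp (8 * π * I * z))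
    (fun z => Complex.exp_ne_zero _) (by
      intro z
      have := e1 z
      rw [hve', hve'] at this
      exact this)
  obtain ⟨mb, nb, hb⟩ := glue φe Fe hφe hFe 2 (fun z => V (z, 2)) (fun z => hV0 _) (by
      intro z
      have := e2 z
      rw [hve', hve'] at this
      exact this)
  obtain ⟨mh, nh, hh⟩ := glueT φe Fe hφe hFe 3 (by
      intro z
      have := e3 z
      rw [hve', hve'] at this
      exact this)
  obtain ⟨mf', nf', hf'⟩ := glue φa Fa hφa hFa 1 (fun z => U (z, 1)) (fun z => hU0 _) (by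
      intro z
      have := a1 z
      rw [hva', hva'] at this
      exact this)
  obtain ⟨mb', nb', hb'⟩ := glue φa Fa hφa hFa 2 (fun z => W (z, 2)) (fun z => hW0 _) (by
      intro z
      have := a2 z
      rw [hva', hva'] at this
      exact this)
  obtain ⟨mh', nh', hh'⟩ := glueT φa Fa hφa hFa 3 (by
      intro z
      have := a3 z
      rw [hva', hva'] at this
      exact this)
  obtain ⟨rfl, rfl⟩ : mf = mf' ∧ nf = nf' := by
    apply lat_inj
    have h1 := (hf 0).1
    have h2 := (hf' 0).1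
    rw [hagree, hagree] at h1
    linear_combination h2 - h1
  obtain ⟨rfl, rfl⟩ : mb = mb' ∧ nb = nb' := by
    apply lat_inj
    have h1 := (hb 0).1
    have h2 := (hb' 0).1
    rw [hagree, hagree] at h1
    linear_combination h2 - h1
  obtain ⟨rfl, rfl⟩ : mh = mh' ∧ nh = nh' := by
    apply lat_inj
    have h1 := (hh 0).1
    have h2 := (hh' 0).1
    rw [hagree, hagree] at h1
    linear_combination h2 - h1
  obtain ⟨kU, hkU⟩ := Wind2_ex U hU hU0 hU1
  obtain ⟨kV, hkV⟩ := Wind2_ex V hV hV0 hV1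
  obtain ⟨kW, hkW⟩ := Wind2_ex W hW hW0 hW1
  have w4 : Wind2 (fun x : ℝ × ℝ => cexp (8 * π * I * x.1)) 4 := by
    refine ⟨fun x => 4 * (x.1 : ℂ), by fun_prop, fun x => by congr 1; ring, fun x => by push_cast; ring⟩
  have w0' : Wind2 (fun _ : ℝ × ℝ => (1 : ℂ)) 0 := by
    refine ⟨fun x => 0, by fun_prop, fun x => by simp, fun x => by simp⟩
  have q1 := wind_formula φe Fe hφe hFec hFe me ne hpe' 1 _ 4 w4 (2 * mf) nf (by
    intro z
    refine ⟨?_, (hf z).2⟩
    rw [(hf z).1]; push_cast; ring)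
  have q2 := wind_formula φe Fe hφe hFec hFe me ne hpe' 2 _ kV hkV (2 * mb) nb (by
    intro z
    refine ⟨?_, (hb z).2⟩
    rw [(hb z).1]; push_cast; ring)
  have q3 := wind_formula φe Fe hφe hFec hFe me ne hpe' 3 _ 0 w0' (2 * mh + 1) nh (by
    intro z
    refine ⟨?_, by rw [(hh z).2]; ring⟩
    rw [(hh z).1]; push_cast; ring)
  have p1 := wind_formula φa Fa hφa hFac hFa ma na hpa' 1 _ kU hkU (2 * mf) nf (by
    intro z
    refine ⟨?_, (hf' z).2⟩
    rw [(hf' z).1]; push_cast; ring)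
  have p2 := wind_formula φa Fa hφa hFac hFa ma na hpa' 2 _ kW hkW (2 * mb) nb (by
    intro z
    refine ⟨?_, (hb' z).2⟩
    rw [(hb' z).1]; push_cast; ring)
  have p3 := wind_formula φa Fa hφa hFac hFa ma na hpa' 3 _ 0 w0' (2 * mh + 1) nh (by
    intro z
    refine ⟨?_, by rw [(hh' z).2]; ring⟩
    rw [(hh' z).1]; push_cast; ring)
  have r1 : ne * mf - nf * me = 1 := by linarith
  have r3 : ne * (2 * mh + 1) = 2 * nh * me := by linarith
  have r3' : na * (2 * mh + 1) = 2 * nh * ma := by linarith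
  have hodd : (2 * mh + 1 : ℤ) ≠ 0 := by omega
  have r4 : ne * ma = na * me := by
    apply mul_right_cancel₀ hodd
    linear_combination ma * r3 - me * r3'
  have hma : ma = (na * mf - nf * ma) * me := by linear_combination (-ma) * r1 + mf * r4
  have hna : na = (na * mf - nf * ma) * ne := by linear_combination (-na) * r1 + nf * r4
  refine ⟨na * mf - nf * ma, ne * mb - nb * me, ?_, ?_, ?_⟩
  · have : kU = 4 * (na * mf - nf * ma) := by rw [p1]; ring
    rwa [this] at hkU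
  · have : kV = 4 * (ne * mb - nb * me) := by rw [q2]; ring
    rwa [this] at hkV
  · have : kW = 4 * ((na * mf - nf * ma) * (ne * mb - nb * me)) := by
      rw [p2]
      linear_combination 4 * mb * hna - 4 * nb * hma
    rwa [this] at hkW

end Pool.Agent.Helper344.Ent
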