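import Pool.Agent.Helper344.Ent.Defs
import Pool.Agent.Helper344.Ent.P_mul_sound



namespace Pool.Agent.Helper344.Ent
open Complex Filter Topology
open Ex
open scoped Real


theorem sound_append (w : ℕ → ℂ × ℂ → ℂ) (a b : List Ex) (h : SatF w (a ++ b)) :
    SatF w a ∧ SatF w b :=
  ⟨fun e he => h e (List.mem_append_left _ he), fun e he => h e (List.mem_append_right _ he)⟩

theorem sound_pt (w : ℕ → ℂ × ℂ → ℂ) (i k : ℕ) (h : SatF w (tPt i k)) (x : ℂ × ℂ) :
    (fun c : Fin 4 => w (i + c) x) ∈ Xset := by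
  unfold SatF tPt at h
  simp only [List.mem_cons, List.not_mem_nil, or_false, forall_eq_or_imp, forall_eq] at h
  obtain ⟨h1, h2, h3⟩ := h
  have h1 := h1 x
  have h2 := h2 x
  have h3 := h3 x
  simp only [evF] at h1 h2 h3
  have e0 : i + ((0 : Fin 4) : ℕ) = i := rfl
  have e1 : i + ((1 : Fin 4) : ℕ) = i + 1 := rfl
  have e2 : i + ((2 : Fin 4) : ℕ) = i + 2 := rfl
  have e3 : i + ((3 : Fin 4) : ℕ) = i + 3 := rfl
  refine ⟨?_, ?_, ?_⟩
  · simp only [e0, e1, e2]
    linear_combination h1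
  · simp only [e0, e1, e3]
    linear_combination h2
  · simp only [e0, e1]
    by_contra hcon
    push Not at hcon
    rw [hcon.1, hcon.2] at h3
    simp at h3

theorem sound_gl (w : ℕ → ℂ × ℂ → ℂ) (i h : ℕ) (U d : Ex) (H : SatF w (tGl i h U d)) (x : ℂ × ℂ)
    (hd : evF w d x = 0) (c : Fin 4) :
    w (i + c) x = evF w U x * w (i + c) (x.1, -x.2) := by
  unfold SatF tGl at H
  simp only [List.mem_cons, List.not_mem_nil, or_false, forall_eq_or_imp, forall_eq] at H
  obtain ⟨h1, h2, h3, h4⟩ := H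
  have h1 := h1 x
  have h2 := h2 x
  have h3 := h3 x
  have h4 := h4 x
  simp only [evF, hd, zero_mul, sub_zero] at h1 h2 h3 h4
  fin_cases c
  · exact sub_eq_zero.1 h1
  · exact sub_eq_zero.1 h2
  · exact sub_eq_zero.1 h3
  · exact sub_eq_zero.1 h4

theorem sound_tw (w : ℕ → ℂ × ℂ → ℂ) (i h : ℕ) (H : SatF w (tTw i h)) (z : ℂ) :
    (fun c : Fin 4 => w (i + c) (z, 3)) = Tw (fun c : Fin 4 => w (i + c) (z, -3)) := by
  unfold SatF tTw at H
  simp only [List.mem_cons, List.not_mem_nil, or_false, forall_eq_or_imp, forall_eq] at H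
  obtain ⟨h1, h2, h3, h4⟩ := H
  have h1 := h1 (z, 3)
  have h2 := h2 (z, 3)
  have h3 := h3 (z, 3)
  have h4 := h4 (z, 3)
  have hthree : (3 : ℂ) - (1 + (1 + 1)) = 0 := by norm_num
  simp only [evF, three, hthree, zero_mul, sub_zero] at h1 h2 h3 h4
  funext c
  fin_cases c
  · exact sub_eq_zero.1 h1
  · exact eq_neg_of_add_eq_zero_left h2
  · exact sub_eq_zero.1 h3
  · exact eq_neg_of_add_eq_zero_left h4

theorem sound_eq (w : ℕ → ℂ × ℂ → ℂ) (i i' h : ℕ) (H : SatF w (tEq i i' h)) (t : ℂ) :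
    (fun c : Fin 4 => w (i + c) (0, t)) = (fun c : Fin 4 => w (i' + c) (0, t)) := by
  unfold SatF tEq at H
  simp only [List.mem_cons, List.not_mem_nil, or_false, forall_eq_or_imp, forall_eq] at H
  obtain ⟨h1, h2, h3, h4⟩ := H
  have h1 := h1 (0, t)
  have h2 := h2 (0, t)
  have h3 := h3 (0, t)
  have h4 := h4 (0, t)
  have hsv : sv 0 - 1 = 0 := by simp [sv]
  simp only [evF, hsv, zero_mul, sub_zero] at h1 h2 h3 h4
  funext c
  fin_cases c
  · exact sub_eq_zero.1 h1
  · exact sub_eq_zero.1 h2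
  · exact sub_eq_zero.1 h3
  · exact sub_eq_zero.1 h4

theorem sound (w : ℕ → ℂ × ℂ → ℂ) (hw : ∀ j, Continuous (w j))
    (hp : ∀ j z t, w j (z + 1, t) = w j (z, t)) (k : ℕ)
    (h : SatF w (tMulG k)) :
    ∃ x y : ℤ, Wind2 (res (w 0)) (4 * x) ∧ Wind2 (res (w 1)) (4 * y) ∧
      Wind2 (res (w k)) (4 * (x * y)) := by
  unfold tMulG at h
  obtain ⟨h, hEq⟩ := sound_append w _ _ h
  obtain ⟨h, hA3⟩ := sound_append w _ _ h
  obtain ⟨h, hA2⟩ := sound_append w _ _ h
  obtain ⟨h, hA1⟩ := sound_append w _ _ h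
  obtain ⟨h, hE3⟩ := sound_append w _ _ h
  obtain ⟨h, hE2⟩ := sound_append w _ _ h
  obtain ⟨h, hE1⟩ := sound_append w _ _ h
  obtain ⟨h, hPa⟩ := sound_append w _ _ h
  obtain ⟨h, hPe⟩ := sound_append w _ _ h
  unfold SatF at h
  simp only [List.mem_cons, List.not_mem_nil, or_false, forall_eq_or_imp, forall_eq] at h
  obtain ⟨u1, u2, u3⟩ := h
  simp only [evF] at u1 u2 u3
  have hcast : Continuous (fun x : ℝ × ℝ => ((x.1 : ℂ), (x.2 : ℂ))) := by fun_prop
  have hres : ∀ j, Continuous (res (w j)) := fun j => (hw j).comp hcast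
  have hresp : ∀ j (z t : ℝ), res (w j) (z + 1, t) = res (w j) (z, t) := by
    intro j z t
    unfold res
    simp only
    push_cast
    exact hp j z t
  refine mul_sound (fun x c => w (6 + c) ((x.1 : ℂ), (x.2 : ℂ)))
    (fun x c => w (10 + c) ((x.1 : ℂ), (x.2 : ℂ)))
    (continuous_pi fun c => (hw _).comp hcast) (continuous_pi fun c => (hw _).comp hcast)
    (fun x => sound_pt w 6 14 hPe _) (fun x => sound_pt w 10 16 hPa _) ?_ ?_ ?_
    (res (w 0)) (res (w 1)) (res (w k)) (hres 0) (hres 1) (hres k) ?_ ?_ ?_ (hresp 0) (hresp 1)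
    (hresp k) ?_ ?_ ?_ ?_ ?_ ?_
  · intro z t
    funext c
    exact hresp (6 + c) z t
  · intro z t
    funext c
    exact hresp (10 + c) z t
  · intro t
    have := sound_eq w 6 10 42 hEq (t : ℂ)
    simp only [Complex.ofReal_zero]
    exact this
  · intro x hx
    have := u1 ((x.1 : ℂ), (x.2 : ℂ))
    unfold res at hx
    rw [hx, zero_mul, zero_sub] at this
    simp at this
  · intro x hx
    have := u2 ((x.1 : ℂ), (x.2 : ℂ))
    unfold res at hx
    rw [hx, zero_mul, zero_sub] at this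
    simp at this
  · intro x hx
    have := u3 ((x.1 : ℂ), (x.2 : ℂ))
    unfold res at hx
    rw [hx, zero_mul, zero_sub] at this
    simp at this
  · intro z
    funext c
    have := sound_gl w 6 18 s4 (sub et one) hE1 ((z : ℂ), (1 : ℂ)) (by simp [evF]) c
    have hs : evF w s4 ((z : ℂ), (1 : ℂ)) = cexp (8 * π * I * z) := by
      simp only [evF, s4, sv]
      rw [← Complex.exp_add, ← Complex.exp_add]
      congr 1
      ring
    rw [hs] at this
    simp only [Complex.ofReal_one, Complex.ofReal_neg, Pi.smul_apply, smul_eq_mul]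
    exact this
  · intro z
    funext c
    have := sound_gl w 6 22 (var 1) (sub et two) hE2 ((z : ℂ), (2 : ℂ))
      (by simp only [evF, two]; norm_num) c
    simp only [Complex.ofReal_ofNat, Complex.ofReal_neg, Pi.smul_apply, smul_eq_mul, res]
    exact this
  · intro z
    have := sound_tw w 6 26 hE3 (z : ℂ)
    simp only [Complex.ofReal_ofNat, Complex.ofReal_neg]
    exact this
  · intro z
    funext c
    have := sound_gl w 10 30 (var 0) (sub et one) hA1 ((z : ℂ), (1 : ℂ)) (by simp [evF]) c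
    simp only [Complex.ofReal_one, Complex.ofReal_neg, Pi.smul_apply, smul_eq_mul, res]
    exact this
  · intro z
    funext c
    have := sound_gl w 10 34 (var k) (sub et two) hA2 ((z : ℂ), (2 : ℂ))
      (by simp only [evF, two]; norm_num) c
    simp only [Complex.ofReal_ofNat, Complex.ofReal_neg, Pi.smul_apply, smul_eq_mul, res]
    exact this
  · intro z
    have := sound_tw w 10 38 hA3 (z : ℂ)
    simp only [Complex.ofReal_ofNat, Complex.ofReal_neg]
    exact this

end Pool.Agent.Helper344.Ent
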