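import Pool.Agent.Helper344.Ent.Defs
import Pool.Agent.Helper344.Ent.P_Wind2_unique
import Pool.Agent.Helper344.Ent.P_Wind2_mul
import Pool.Agent.Helper344.Ent.P_Wind2_sp
import Pool.Agent.Helper344.Ent.P_sound



namespace Pool.Agent.Helper344.Ent
open Complex Filter Topology
open Ex
open scoped Real


theorem bwd_local (w : ℕ → ℂ × ℂ → ℂ) (hw : ∀ j, Continuous (w j))
    (hp : ∀ j z t, w j (z + 1, t) = w j (z, t)) (k : ℕ) (h : SatF w (tT k)) :
    (k = 0 → Wind2 (res (w 0)) (4 * 1)) ∧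
    (k = 1 → ∃ a b : ℤ, Wind2 (res (w 0)) (4 * a) ∧ Wind2 (res (w 1)) (4 * b) ∧
      Wind2 (res (w 2)) (4 * (a + b))) ∧
    (k ≠ 0 → k ≠ 1 → ∃ a b : ℤ, Wind2 (res (w 0)) (4 * a) ∧ Wind2 (res (w 1)) (4 * b) ∧
      Wind2 (res (w 2)) (4 * (a * b))) := by
  refine ⟨?_, ?_, ?_⟩
  · intro hk
    have h1 : SatF w tOne := by
      have : tT k = tOne := by simp [tT, hk]
      rw [← this]; exact h
    have h2 : res (w 0) = res (sp 1) := by
      funext x
      have h3 := h1 (sub (var 0) s4) (by simp [tOne]) ((x.1 : ℂ), (x.2 : ℂ))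
      simp only [evF, s4] at h3
      have h4 : w 0 ((x.1 : ℂ), (x.2 : ℂ)) = sv (x.1 : ℂ) * sv (x.1 : ℂ) * (sv (x.1 : ℂ) * sv (x.1 : ℂ)) :=
        sub_eq_zero.1 h3
      show w 0 ((x.1 : ℂ), (x.2 : ℂ)) = sp 1 ((x.1 : ℂ), (x.2 : ℂ))
      rw [h4]
      simp only [sv, sp, ← Complex.exp_add]
      congr 1
      push_cast
      ring
    rw [h2]
    exact Wind2_sp 1
  · intro hk
    have h0 : SatF w tAdd := by
      have : tT k = tAdd := by simp [tT, hk]
      rw [← this]; exact h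
    have hM : SatF w (tMulG 46) := fun e he => h0 e (by
      unfold tAdd; exact List.mem_cons_of_mem _ he)
    obtain ⟨a, b, ha, hb, -⟩ := sound w hw hp 46 hM
    refine ⟨a, b, ha, hb, ?_⟩
    have h2 : res (w 2) = fun x => res (w 0) x * res (w 1) x := by
      funext x
      have h3 := h0 (sub (var 2) (mul (var 0) (var 1))) (by unfold tAdd; exact List.mem_cons_self)
        ((x.1 : ℂ), (x.2 : ℂ))
      simp only [evF] at h3
      exact sub_eq_zero.1 h3
    rw [h2, mul_add]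
    exact Wind2_mul ha hb
  · intro hk0 hk1
    have h0 : SatF w (tMulG 2) := by
      have : tT k = tMulG 2 := by simp [tT, hk0, hk1, tMul]
      rw [← this]; exact h
    obtain ⟨a, b, ha, hb, hc⟩ := sound w hw hp 2 h0
    exact ⟨a, b, ha, hb, hc⟩

end Pool.Agent.Helper344.Ent
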