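import Pool.Agent.Helper344.Ent.Defs



namespace Pool.Agent.Helper344.Ent
open Complex Filter Topology
open scoped Real


theorem evalP_cont (ρ : ℕ → ℂ × ℂ → ℂ) (h : ∀ j, Continuous (ρ j)) (p : Pol) :
    Continuous fun y => evalP (fun i => ρ i y) p := by
  have hprod : ∀ l : List ℕ, Continuous fun y => (l.map (fun i => ρ i y)).prod := by
    intro l
    induction l with
    | nil => simpa using continuous_const
    | cons a l ih =>
      simp only [List.map_cons, List.prod_cons]
      exact (h a).mul ih
  unfold evalP
  induction p with
  | nil => simpa using continuous_const
  | cons m p ih =>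
    simp only [List.map_cons, List.sum_cons]
    exact (continuous_const.mul (hprod m.2)).add ih

end Pool.Agent.Helper344.Ent
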