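import Pool.Agent.Helper344.Ent.Defs
import Pool.Agent.Helper344.Ent.P_EV_inj
import Pool.Agent.Helper344.Ent.P_EV_code
import Pool.Agent.Helper344.Ent.P_evalP_cont



namespace Pool.Agent.Helper344.Ent
open Complex Filter Topology
open scoped Real


theorem codes_iff (ρ : ℕ → ℂ × ℂ → ℂ) (h0 : ∀ y, ρ 0 y = y.1) (h1 : ∀ y, ρ 1 y = y.2)
    (hc : ∀ j, Continuous (ρ j)) (T : List Ex) :
    (∀ p ∈ codes T, ∀ y, evalP (fun i => ρ i y) p = 0) ↔
      SatF (fun j => EV fun c => ρ (2 + 4 * j + c)) T := by
  constructor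
  · intro h e he x
    rw [EV_code ρ h0 h1 e x]
    have hz : ∀ c : Fin 4, ∀ y, evalP (fun i => ρ i y) (code e c) = 0 := by
      intro c y
      apply h _ _ y
      unfold codes
      rw [List.mem_flatMap]
      refine ⟨e, he, ?_⟩
      fin_cases c <;> simp
    unfold EV
    simp only [hz]
    ring
  · intro h p hp y
    unfold codes at hp
    rw [List.mem_flatMap] at hp
    obtain ⟨e, he, hp⟩ := hp
    have hinj := EV_inj (f := fun c y => evalP (fun i => ρ i y) (code e c))
      (fun c => evalP_cont ρ hc (code e c))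
      (fun x => by rw [← EV_code ρ h0 h1 e x]; exact h e he x)
    simp only [List.mem_cons, List.not_mem_nil, or_false] at hp
    rcases hp with rfl | rfl | rfl | rfl
    · exact hinj 0 y
    · exact hinj 1 y
    · exact hinj 2 y
    · exact hinj 3 y

end Pool.Agent.Helper344.Ent
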