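import Pool.Agent.Helper344.Ent.Defs



namespace Pool.Agent.Helper344.Ent
open Complex Filter Topology
open scoped Real


theorem evalP_ren (ρ : ℕ → ℂ) (f : ℕ → ℕ) (p : Pol) :
    evalP ρ (p.map fun mo => (mo.1, mo.2.map f)) = evalP (fun i => ρ (f i)) p := by
  unfold evalP
  rw [List.map_map]
  congr 1
  refine List.map_congr_left fun m _ => ?_
  simp only [Function.comp_apply, List.map_map]
  rfl

end Pool.Agent.Helper344.Ent
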