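import Pool.Agent.Helper344.Ent.Defs



namespace Pool.Agent.Helper344.Ent
open Complex Filter Topology
open scoped Real


theorem solv_fwd {n : ℕ} (hn : 2 ≤ n) (T : List Pol) (h : Solv n T) :
    ∃ ρ : ℕ → ℂ × ℂ → ℂ, (∀ j, Differentiable ℂ (ρ j)) ∧ (∀ y, ρ 0 y = y.1) ∧ (∀ y, ρ 1 y = y.2) ∧
      ∀ p ∈ T, ∀ y, evalP (fun j => ρ j y) p = 0 := by
  obtain ⟨ρ, hd, hv, hp⟩ := h
  let E : ℂ × ℂ → Fin n → ℂ := fun y i => if (i : ℕ) = 0 then y.1 else if (i : ℕ) = 1 then y.2 else 0
  have hE : Differentiable ℂ E := by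
    refine differentiable_pi.mpr fun i => ?_
    show Differentiable ℂ fun y : ℂ × ℂ =>
      if (i : ℕ) = 0 then y.1 else if (i : ℕ) = 1 then y.2 else 0
    split_ifs
    · exact differentiable_fst
    · exact differentiable_snd
    · exact differentiable_const _
  refine ⟨fun j y => ρ j (E y), fun j => (hd j).comp hE, ?_, ?_, fun p hpT y => hp p hpT (E y)⟩
  · intro y
    have := hv ⟨0, by omega⟩ (E y)
    simpa [E] using this
  · intro y
    have := hv ⟨1, by omega⟩ (E y)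
    simpa [E] using this

end Pool.Agent.Helper344.Ent
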