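import Pool.Agent.Helper344.Ent.Defs
import Pool.Agent.Helper344.Ent.P_EV_hol
import Pool.Agent.Helper344.Ent.P_Wind2_unique
import Pool.Agent.Helper344.Ent.P_evalP_ren
import Pool.Agent.Helper344.Ent.P_codes_iff
import Pool.Agent.Helper344.Ent.P_solv_fwd
import Pool.Agent.Helper344.Ent.P_bwd_local



namespace Pool.Agent.Helper344.Ent
open Complex Filter Topology
open scoped Real


theorem backward_ren0 (n : ℕ) (c : ℕ × ℕ × ℕ × ℕ) (r : Fin 4) :
    ren n c (2 + 4 * 0 + (r : ℕ)) = n + 2 * (4 * c.2.1 + (r : ℕ)) := by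
  have := r.2
  unfold ren
  rw [if_neg (by omega), if_pos (by omega)]
  congr 3
  omega

theorem backward_ren1 (n : ℕ) (c : ℕ × ℕ × ℕ × ℕ) (r : Fin 4) :
    ren n c (2 + 4 * 1 + (r : ℕ)) = n + 2 * (4 * c.2.2.1 + (r : ℕ)) := by
  have := r.2
  unfold ren
  rw [if_neg (by omega), if_neg (by omega), if_pos (by omega)]
  congr 3
  omega

theorem backward_ren2 (n : ℕ) (c : ℕ × ℕ × ℕ × ℕ) (r : Fin 4) :
    ren n c (2 + 4 * 2 + (r : ℕ)) = n + 2 * (4 * c.2.2.2 + (r : ℕ)) := by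
  have := r.2
  unfold ren
  rw [if_neg (by omega), if_neg (by omega), if_neg (by omega), if_pos (by omega)]
  congr 3
  omega

theorem backward {n : ℕ} (hn : 2 ≤ n) (C : List (ℕ × ℕ × ℕ × ℕ)) (h : Solv n (tr n C)) :
    ZSolv C := by
  classical
  obtain ⟨ρ, hρ, hρ0, hρ1, hρs⟩ := solv_fwd hn _ h
  set U : ℕ → ℂ × ℂ → ℂ := fun i => EV (fun r : Fin 4 => ρ (n + 2 * (4 * i + (r : ℕ)))) with hU
  set x : ℕ → ℤ := fun i =>
    if h : ∃ a : ℤ, Wind2 (res (U i)) (4 * a) then h.choose else 0 with hx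
  have hxa : ∀ i (a : ℤ), Wind2 (res (U i)) (4 * a) → x i = a := by
    intro i a ha
    have hex : ∃ a : ℤ, Wind2 (res (U i)) (4 * a) := ⟨a, ha⟩
    have h1 : x i = hex.choose := by
      show (if h : ∃ a : ℤ, Wind2 (res (U i)) (4 * a) then h.choose else 0) = _
      rw [dif_pos hex]
    have h2 := Wind2_unique ha hex.choose_spec
    rw [h1]
    omega
  refine ⟨x, fun c hc => ?_⟩
  have hcodes : ∀ p ∈ codes (tT c.1), ∀ y, evalP (fun i => ρ (ren n c i) y) p = 0 := by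
    intro p hp y
    have hmem : (p.map fun mo => (mo.1, mo.2.map (ren n c))) ∈ tr n C := by
      unfold tr
      rw [List.mem_flatMap]
      refine ⟨c, hc, ?_⟩
      rw [List.mem_map]
      exact ⟨p, hp, rfl⟩
    have h1 := hρs _ hmem y
    rw [evalP_ren (fun j => ρ j y) (ren n c) p] at h1
    exact h1
  have hsat := (codes_iff (fun m => ρ (ren n c m))
    (fun y => by
      have : ren n c 0 = 0 := by unfold ren; rw [if_pos (by omega)]
      show ρ (ren n c 0) y = y.1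
      rw [this]; exact hρ0 y)
    (fun y => by
      have : ren n c 1 = 1 := by unfold ren; rw [if_pos (by omega)]
      show ρ (ren n c 1) y = y.2
      rw [this]; exact hρ1 y)
    (fun j => (hρ _).continuous) (tT c.1)).mp hcodes
  have hHol : ∀ j : ℕ, Hol (EV fun r : Fin 4 => ρ (ren n c (2 + 4 * j + (r : ℕ)))) :=
    fun j => EV_hol (fun r => hρ _)
  have hloc := bwd_local (fun j => EV fun r : Fin 4 => ρ (ren n c (2 + 4 * j + (r : ℕ))))
    (fun j => (hHol j).1.continuous) (fun j z t => (hHol j).2 z t) c.1 hsat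
  have w0 : (EV fun r : Fin 4 => ρ (ren n c (2 + 4 * 0 + (r : ℕ)))) = U c.2.1 := by
    rw [hU]
    simp only [backward_ren0]
  have w1 : (EV fun r : Fin 4 => ρ (ren n c (2 + 4 * 1 + (r : ℕ)))) = U c.2.2.1 := by
    rw [hU]
    simp only [backward_ren1]
  have w2 : (EV fun r : Fin 4 => ρ (ren n c (2 + 4 * 2 + (r : ℕ)))) = U c.2.2.2 := by
    rw [hU]
    simp only [backward_ren2]
  simp only [w0, w1, w2] at hloc
  obtain ⟨l0, l1, l2⟩ := hloc
  unfold sat
  by_cases hk0 : c.1 = 0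
  · rw [if_pos hk0]
    exact hxa _ 1 (l0 hk0)
  · rw [if_neg hk0]
    by_cases hk1 : c.1 = 1
    · rw [if_pos hk1]
      obtain ⟨a, b, ha, hb, hab⟩ := l1 hk1
      rw [hxa _ a ha, hxa _ b hb, hxa _ _ hab]
    · rw [if_neg hk1]
      obtain ⟨a, b, ha, hb, hab⟩ := l2 hk0 hk1
      rw [hxa _ a ha, hxa _ b hb, hxa _ _ hab]

end Pool.Agent.Helper344.Ent
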