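import Pool.Agent.Helper344.Ent.Defs
import Pool.Agent.Helper344.Ent.P_div1



namespace Pool.Agent.Helper344.Ent
open Complex Filter Topology
open scoped Real


theorem dslope_entire {f : ℂ → ℂ} (hf : Differentiable ℂ f) (a : ℂ) :
    Differentiable ℂ (dslope f a) := by
  rw [← differentiableOn_univ]
  exact (Complex.differentiableOn_dslope Filter.univ_mem).2 hf.differentiableOn

theorem lagr {ι : Type} {f g : ℂ → ℂ} (hf : Differentiable ℂ f) (hg : Differentiable ℂ g)
    (c : ι → ℂ) (hc : Function.Injective c) (hz : ∀ z, f z = 0 ↔ ∃ k, z = c k)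
    (hd : ∀ k, deriv f (c k) ≠ 0) (hgc : ∀ k, g (c k) ≠ 0)
    (hsum : Summable fun k => ‖(deriv f (c k) * g (c k))⁻¹‖)
    (hfin : ∀ r : ℝ, {k | ‖c k‖ ≤ r}.Finite) :
    ∃ a b : ℂ → ℂ, Differentiable ℂ a ∧ Differentiable ℂ b ∧ ∀ z, a z * f z + b z * g z = 1 := by
  have hf0 : ∀ k, f (c k) = 0 := fun k => (hz _).2 ⟨k, rfl⟩
  set T : ι → ℂ → ℂ := fun k z => (deriv f (c k) * g (c k))⁻¹ * dslope f (c k) z with hT
  have hTd : ∀ k, Differentiable ℂ (T k) := fun k => (dslope_entire hf (c k)).const_mul _
  have hb : Differentiable ℂ (fun z => ∑' k, T k z) := by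
    intro z₀
    obtain ⟨r, hr⟩ : ∃ r, r = ‖z₀‖ + 1 := ⟨_, rfl⟩
    -- bounds on the closed ball
    have hcomp : IsCompact (Metric.closedBall (0 : ℂ) r) := isCompact_closedBall 0 r
    obtain ⟨M, hM⟩ := hcomp.exists_bound_of_continuousOn hf.continuous.continuousOn
    have hBex : ∀ k, ∃ B, ∀ z ∈ Metric.closedBall (0 : ℂ) r, ‖dslope f (c k) z‖ ≤ B := fun k =>
      hcomp.exists_bound_of_continuousOn (dslope_entire hf (c k)).continuous.continuousOn
    choose B hB using hBex
    have hr0 : 0 ≤ r := by rw [hr]; positivity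
    have h0mem : (0 : ℂ) ∈ Metric.closedBall (0 : ℂ) r := Metric.mem_closedBall_self hr0
    have hM0 : 0 ≤ M := (norm_nonneg _).trans (hM 0 h0mem)
    have hu : Summable (fun k => ‖(deriv f (c k) * g (c k))⁻¹‖ * M +
        {k | ‖c k‖ ≤ r + 1}.indicator (fun k => ‖(deriv f (c k) * g (c k))⁻¹‖ * B k) k) := by
      refine (hsum.mul_right M).add ?_
      exact summable_of_hasFiniteSupport
        ((hfin (r + 1)).subset Set.support_indicator_subset)
    have hmain := Complex.differentiableOn_tsum_of_summable_norm hu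
      (fun k => (hTd k).differentiableOn) (Metric.isOpen_ball (x := (0 : ℂ)) (ε := r))
      (by
        intro k z hzr
        have hzr' : z ∈ Metric.closedBall (0 : ℂ) r := Metric.ball_subset_closedBall hzr
        rw [hT]
        simp only [norm_mul]
        by_cases hk : ‖c k‖ ≤ r + 1
        · rw [Set.indicator_of_mem (show k ∈ {k | ‖c k‖ ≤ r + 1} from hk)]
          have h1 := mul_le_mul_of_nonneg_left (hB k z hzr')
            (norm_nonneg (deriv f (c k) * g (c k))⁻¹)
          have h2 : 0 ≤ ‖(deriv f (c k) * g (c k))⁻¹‖ * M := by positivity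
          simp only [norm_inv, norm_mul] at h1 h2 ⊢
          linarith
        · rw [Set.indicator_of_notMem (show k ∉ {k | ‖c k‖ ≤ r + 1} from hk), add_zero]
          have h1 : ‖dslope f (c k) z‖ ≤ M := by
            have h2 := sub_smul_dslope f (c k) z
            rw [hf0 k, sub_zero, smul_eq_mul] at h2
            have h3 : ‖z - c k‖ * ‖dslope f (c k) z‖ = ‖f z‖ := by
              rw [← norm_mul, h2]
            have h4 : 1 ≤ ‖z - c k‖ := by
              have h5 : ‖c k‖ - ‖z‖ ≤ ‖z - c k‖ := by
                rw [norm_sub_rev]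
                exact norm_sub_norm_le _ _
              have h6 : ‖z‖ ≤ r := by simpa using hzr'
              push Not at hk
              linarith
            have h7 := hM z hzr'
            have h8 := norm_nonneg (dslope f (c k) z)
            nlinarith
          have h2 := mul_le_mul_of_nonneg_left h1 (norm_nonneg (deriv f (c k) * g (c k))⁻¹)
          simp only [norm_inv, norm_mul] at h2 ⊢
          exact h2)
    refine hmain.differentiableAt (Metric.isOpen_ball.mem_nhds ?_)
    rw [mem_ball_zero_iff, hr]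
    linarith
  have hbc : ∀ j, ∑' k, T k (c j) = (g (c j))⁻¹ := by
    intro j
    rw [tsum_eq_single j]
    · show (deriv f (c j) * g (c j))⁻¹ * dslope f (c j) (c j) = _
      rw [dslope_same, mul_inv]
      have := hd j
      field_simp
    · intro k hk
      show (deriv f (c k) * g (c k))⁻¹ * dslope f (c k) (c j) = 0
      have hne : c j ≠ c k := fun h => hk (hc h.symm)
      rw [dslope_of_ne f hne, slope_def_field, hf0, hf0]
      simp
  obtain ⟨a, ha, hab⟩ := div1 (f := fun z => 1 - (∑' k, T k z) * g z) (g := f)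
    ((differentiable_const 1).sub (hb.mul hg)) hf (by
      intro z hzf
      obtain ⟨k, rfl⟩ := (hz z).1 hzf
      refine ⟨?_, hd k⟩
      show 1 - (∑' k', T k' (c k)) * g (c k) = 0
      rw [hbc k, inv_mul_cancel₀ (hgc k), sub_self])
  refine ⟨a, fun z => ∑' k, T k z, ha, hb, fun z => ?_⟩
  have h : 1 - (∑' k, T k z) * g z = f z * a z := hab z
  show a z * f z + (∑' k, T k z) * g z = 1
  linear_combination -h

end Pool.Agent.Helper344.Ent
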