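import Pool.Agent.Helper344.Ent.Defs
import Pool.Agent.Helper344.Ent.P_diffT
import Pool.Agent.Helper344.Ent.P_mult1
import Pool.Agent.Helper344.Ent.P_multI
import Pool.Agent.Helper344.Ent.P_PQR_zero
import Pool.Agent.Helper344.Ent.P_Q_simple
import Pool.Agent.Helper344.Ent.P_lagr
import Pool.Agent.Helper344.Ent.P_QR_desc



namespace Pool.Agent.Helper344.Ent
open Complex Filter Topology
open scoped Real


theorem bez_cosz (m n : ℤ) : Complex.cos (π * (I / 2 + m + n * I)) =
    (-1) ^ m * ((Real.cosh (π * (n + 1 / 2)) : ℝ) : ℂ) := by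
  have h : (π : ℂ) * (I / 2 + m + n * I) = ((π * (n + 1 / 2) : ℝ) : ℂ) * I + m * π := by
    push_cast; ring
  have h2 := Complex.cos_antiperiodic.add_int_mul_eq (x := ((π * (n + 1 / 2) : ℝ) : ℂ) * I) m
  rw [h, h2, Complex.cos_mul_I, Complex.ofReal_cosh, Int.negOnePow_def]
  rcases Int.even_or_odd m with hm | hm
  · rw [hm.neg_one_zpow, hm.neg_one_zpow]; simp
  · rw [hm.neg_one_zpow, hm.neg_one_zpow]; simp

theorem bez_sinz (m n : ℤ) : ‖Complex.sin (π * (I / 2 + m + n * I))‖ =
    |Real.sinh (π * (n + 1 / 2))| := by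
  have h : (π : ℂ) * (I / 2 + m + n * I) = ((π * (n + 1 / 2) : ℝ) : ℂ) * I + m * π := by
    push_cast; ring
  have h2 := Complex.sin_antiperiodic.add_int_mul_eq (x := ((π * (n + 1 / 2) : ℝ) : ℂ) * I) m
  rw [h, h2, Complex.sin_mul_I, ← Complex.ofReal_sinh, Int.negOnePow_def]
  rcases Int.even_or_odd m with hm | hm
  · rw [hm.neg_one_zpow]
    simp only [Units.val_one, Int.cast_one, one_mul, norm_mul, Complex.norm_I, mul_one, Complex.norm_real,
      Real.norm_eq_abs]
  · rw [hm.neg_one_zpow]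
    simp only [Units.val_neg, Units.val_one, Int.cast_neg, Int.cast_one, one_mul, norm_mul, norm_neg, norm_one,
      Complex.norm_I, mul_one, Complex.norm_real, Real.norm_eq_abs]

theorem bez_Qd (m : ℤ) (n : ℕ) : ‖deriv (Q I) (I / 2 + m + n * I)‖ =
    Real.exp (π * n * (n + 1)) * ‖deriv (Q I) (I / 2)‖ := by
  have hQ : Differentiable ℂ (Q I) := diffT.2.1
  have h1 : ∀ z, deriv (Q I) (z + 1) = deriv (Q I) z := by
    intro z
    have := congrFun (congrArg deriv (funext fun z => (mult1 z).2.1 : (fun z => Q I (z + 1)) = fun z => Q I z)) z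
    rw [← this]
    exact (deriv_comp_add_const (Q I) 1 z).symm
  have h1m : ∀ (m : ℤ) z, deriv (Q I) (z + m) = deriv (Q I) z := by
    intro m z
    induction m using Int.induction_on with
    | zero => simp
    | succ k ih =>
      have : z + ((k + 1 : ℤ) : ℂ) = (z + ((k : ℤ) : ℂ)) + 1 := by push_cast; ring
      rw [this, h1, ih]
    | pred k ih =>
      have : z + ((-k : ℤ) : ℂ) = (z + ((-k - 1 : ℤ) : ℂ)) + 1 := by push_cast; ring
      rw [← ih, this, h1]
  have hI : ∀ z, Q I z = 0 → deriv (Q I) (z + I) = - cexp (π - 2 * π * I * z) * deriv (Q I) z := by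
    intro z hz
    have e : (fun z => Q I (z + I)) = fun z => - cexp (π - 2 * π * I * z) * Q I z :=
      funext fun z => (multI z).2.1
    have h2 : deriv (fun z => Q I (z + I)) z = deriv (Q I) (z + I) := deriv_comp_add_const (Q I) I z
    rw [← h2, e]
    have hd : DifferentiableAt ℂ (fun z : ℂ => - cexp (π - 2 * π * I * z)) z := by fun_prop
    have := deriv_fun_mul hd (hQ z)
    rw [this, hz]
    ring
  have key : ∀ n : ℕ, ‖deriv (Q I) (I / 2 + n * I)‖ =
      Real.exp (π * n * (n + 1)) * ‖deriv (Q I) (I / 2)‖ := by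
    intro n
    induction n with
    | zero => simp
    | succ n ih =>
      have e : I / 2 + ((n + 1 : ℕ) : ℂ) * I = (I / 2 + n * I) + I := by push_cast; ring
      have hz : Q I (I / 2 + n * I) = 0 := by
        rw [(PQR_zero _).2.1]
        exact ⟨0, n, by push_cast; ring⟩
      rw [e, hI _ hz, norm_mul, ih, norm_neg, Complex.norm_exp]
      have : ((π : ℂ) - 2 * π * I * (I / 2 + n * I)).re = 2 * π * (n + 1) := by
        have : (π : ℂ) - 2 * π * I * (I / 2 + n * I) = ((2 * π * (n + 1) : ℝ) : ℂ) := by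
          push_cast
          linear_combination (-(π : ℂ) - 2 * π * n) * I_sq
        rw [this, Complex.ofReal_re]
      rw [this, ← mul_assoc, ← Real.exp_add]
      congr 2
      push_cast; ring
  have e : I / 2 + (m : ℂ) + n * I = (I / 2 + n * I) + m := by ring
  rw [e, h1m, key]

theorem bez_Rd (m : ℤ) (n : ℕ) : ‖R I (I / 2 + m + n * I)‖ =
    Real.exp (π * n * (n + 1)) * ‖R I (I / 2)‖ := by
  have h1 : ∀ z, ‖R I (z + 1)‖ = ‖R I z‖ := by
    intro z
    rw [(mult1 z).2.2.1, norm_neg]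
  have h1m : ∀ (m : ℤ) z, ‖R I (z + m)‖ = ‖R I z‖ := by
    intro m z
    induction m using Int.induction_on with
    | zero => simp
    | succ k ih =>
      have : z + ((k + 1 : ℤ) : ℂ) = (z + ((k : ℤ) : ℂ)) + 1 := by push_cast; ring
      rw [this, h1, ih]
    | pred k ih =>
      have : z + ((-k : ℤ) : ℂ) = (z + ((-k - 1 : ℤ) : ℂ)) + 1 := by push_cast; ring
      rw [← ih, this, h1]
  have key : ∀ n : ℕ, ‖R I (I / 2 + n * I)‖ =
      Real.exp (π * n * (n + 1)) * ‖R I (I / 2)‖ := by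
    intro n
    induction n with
    | zero => simp
    | succ n ih =>
      have e : I / 2 + ((n + 1 : ℕ) : ℂ) * I = (I / 2 + n * I) + I := by push_cast; ring
      rw [e, (multI _).2.2.1, norm_mul, ih, Complex.norm_exp]
      have : ((π : ℂ) - 2 * π * I * (I / 2 + n * I)).re = 2 * π * (n + 1) := by
        have : (π : ℂ) - 2 * π * I * (I / 2 + n * I) = ((2 * π * (n + 1) : ℝ) : ℂ) := by
          push_cast
          linear_combination (-(π : ℂ) - 2 * π * n) * I_sq
        rw [this, Complex.ofReal_re]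
      rw [this, ← mul_assoc, ← Real.exp_add]
      congr 2
      push_cast; ring
  have e : I / 2 + (m : ℂ) + n * I = (I / 2 + n * I) + m := by ring
  rw [e, h1m, key]

theorem bez_R0 (m n : ℤ) : R I (I / 2 + m + n * I) ≠ 0 := by
  intro h
  rw [(PQR_zero _).2.2] at h
  obtain ⟨m', n', h⟩ := h
  have := congrArg Complex.re h
  simp at this
  have h2 : (2 * m : ℤ) = 2 * m' + 1 := by
    have : (2 * m : ℝ) = 2 * m' + 1 := by linarith
    exact_mod_cast this
  omega

theorem bez : ∃ B0 B1 : ℂ → ℂ, Differentiable ℂ B0 ∧ Differentiable ℂ B1 ∧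
    (∀ z, B0 (z + 2) = B0 z) ∧ (∀ z, B1 (z + 2) = B1 z) ∧
    ∀ z, B0 z * Q I z + B1 z * R I z = 1 := by
  obtain ⟨f, g, hf, hg, hQf, hRg⟩ := QR_desc
  have hpi : (π : ℂ) ≠ 0 := by exact_mod_cast Real.pi_ne_zero
  let mm : Bool × ℕ → ℤ := fun k => if k.1 then 1 else 0
  let zz : Bool × ℕ → ℂ := fun k => I / 2 + (mm k : ℂ) + (k.2 : ℂ) * I
  let c : Bool × ℕ → ℂ := fun k => Complex.cos (π * zz k)
  have hcc : ∀ k : Bool × ℕ, c k = (-1) ^ (mm k) * ((Real.cosh (π * ((k.2 : ℝ) + 1 / 2)) : ℝ) : ℂ) := by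
    intro k
    have := bez_cosz (mm k) (k.2 : ℤ)
    simp only [Int.cast_natCast] at this
    exact this
  have hcosh : ∀ n : ℕ, 0 < Real.cosh (π * ((n : ℝ) + 1 / 2)) := fun n => Real.cosh_pos _
  have hcinj : Function.Injective c := by
    have hn : ∀ n n' : ℕ, Real.cosh (π * ((n : ℝ) + 1 / 2)) = Real.cosh (π * ((n' : ℝ) + 1 / 2)) → n = n' := by
      intro n n' h
      have h1 : |π * ((n : ℝ) + 1 / 2)| = |π * ((n' : ℝ) + 1 / 2)| :=
        le_antisymm (Real.cosh_le_cosh.1 h.le) (Real.cosh_le_cosh.1 h.ge)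
      rw [abs_of_pos (by positivity), abs_of_pos (by positivity)] at h1
      have h2 := mul_left_cancel₀ Real.pi_ne_zero h1
      have : (n : ℝ) = n' := by linarith
      exact_mod_cast this
    rintro ⟨b, n⟩ ⟨b', n'⟩ h
    rw [hcc, hcc] at h
    have p1 := hcosh n
    have p2 := hcosh n'
    have hnn := hn n n'
    dsimp only at h
    generalize Real.cosh (π * ((n : ℝ) + 1 / 2)) = X at h p1 hnn
    generalize Real.cosh (π * ((n' : ℝ) + 1 / 2)) = Y at h p2 hnn
    have h3 := congrArg Complex.re h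
    cases b <;> cases b' <;> simp [mm] at h3
    · rw [hnn h3]
    · exfalso; linarith
    · exfalso; linarith
    · rw [hnn h3]
  have hz : ∀ z, f z = 0 ↔ ∃ k, z = c k := by
    intro z
    obtain ⟨w, hw⟩ := Complex.cos_surjective z
    have hw' : z = Complex.cos (π * (w / π)) := by
      rw [mul_div_cancel₀ _ hpi]; exact hw.symm
    constructor
    · intro h
      rw [hw', ← hQf, (PQR_zero _).2.1] at h
      obtain ⟨m, n, h⟩ := h
      rw [hw', h, bez_cosz]
      have hpar : ∃ b : Bool, ((-1 : ℂ)) ^ m = (-1) ^ (if b then (1 : ℤ) else 0) := by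
        rcases Int.even_or_odd m with h | h
        · exact ⟨false, by rw [h.neg_one_zpow]; simp⟩
        · exact ⟨true, by rw [h.neg_one_zpow]; simp⟩
      obtain ⟨b, hb⟩ := hpar
      rcases le_or_gt 0 n with hn | hn
      · obtain ⟨n, rfl⟩ := Int.eq_ofNat_of_zero_le hn
        refine ⟨(b, n), ?_⟩
        rw [hcc, hb]
        simp [mm]
      · obtain ⟨n', hn'⟩ := Int.eq_ofNat_of_zero_le (show 0 ≤ -1 - n by omega)
        refine ⟨(b, n'), ?_⟩
        rw [hcc, hb]
        have : (n : ℝ) = -1 - n' := by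
          have : n = -1 - (n' : ℤ) := by omega
          rw [this]; push_cast; ring
        have e : π * ((n : ℝ) + 1 / 2) = -(π * ((n' : ℝ) + 1 / 2)) := by rw [this]; ring
        rw [e, Real.cosh_neg]
    · rintro ⟨k, rfl⟩
      show f (Complex.cos (π * zz k)) = 0
      rw [← hQf, (PQR_zero _).2.1]
      exact ⟨mm k, k.2, by simp [zz]⟩
  have hder : ∀ z, deriv (Q I) z = deriv f (Complex.cos (π * z)) * (-(π * Complex.sin (π * z))) := by
    intro z
    have e : Q I = fun z => f (Complex.cos (π * z)) := funext hQf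
    have h1 : HasDerivAt (fun z : ℂ => Complex.cos (π * z)) (-Complex.sin (π * z) * (π * 1)) z :=
      ((hasDerivAt_id z).const_mul (π : ℂ)).ccos
    have h2 := (hf (Complex.cos (π * z))).hasDerivAt.comp z h1
    rw [e]
    have h3 := h2.deriv
    simp only [Function.comp_def] at h3
    rw [h3]; ring
  have hQne : ∀ k, deriv (Q I) (zz k) ≠ 0 := by
    intro k
    have := Q_simple (mm k) (k.2 : ℤ)
    simpa [zz] using this
  have hRne : ∀ k, R I (zz k) ≠ 0 := by
    intro k
    have := bez_R0 (mm k) (k.2 : ℤ)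
    simpa [zz] using this
  have hd : ∀ k, deriv f (c k) ≠ 0 := by
    intro k h
    have := hder (zz k)
    rw [show Complex.cos (π * zz k) = c k from rfl, h, zero_mul] at this
    exact hQne k this
  have hgc : ∀ k, g (c k) ≠ 0 := by
    intro k h
    apply hRne k
    rw [hRg]; exact h
  have hQ0 : 0 < ‖deriv (Q I) (I / 2)‖ := by
    have := hQne (false, 0)
    simpa [zz, mm] using this
  have hR0 : 0 < ‖R I (I / 2)‖ := by
    have := hRne (false, 0)
    simpa [zz, mm] using this
  have hsum : Summable fun k => ‖(deriv f (c k) * g (c k))⁻¹‖ := by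
    set C : ℝ := π * Real.exp π / (‖deriv (Q I) (I / 2)‖ * ‖R I (I / 2)‖) with hC
    have hCpos : 0 < C := by positivity
    have hbd : ∀ k : Bool × ℕ, ‖(deriv f (c k) * g (c k))⁻¹‖ ≤ C * Real.exp (-π) ^ k.2 := by
      intro k
      have e1 := hder (zz k)
      have e2 : g (c k) = R I (zz k) := (hRg _).symm
      have hQn := bez_Qd (mm k) k.2
      have hRn := bez_Rd (mm k) k.2
      have hsn := bez_sinz (mm k) (k.2 : ℤ)
      simp only [Int.cast_natCast] at hsn
      change ‖deriv (Q I) (zz k)‖ = _ at hQn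
      change ‖R I (zz k)‖ = _ at hRn
      change ‖Complex.sin (π * zz k)‖ = _ at hsn
      have hsinh : |Real.sinh (π * ((k.2 : ℝ) + 1 / 2))| ≤ Real.exp (π * (k.2 + 1)) := by
        rw [abs_of_nonneg (Real.sinh_nonneg_iff.2 (by positivity)), Real.sinh_eq]
        have h1 : Real.exp (π * ((k.2 : ℝ) + 1 / 2)) ≤ Real.exp (π * (k.2 + 1)) :=
          Real.exp_le_exp.2 (by nlinarith [Real.pi_pos])
        have h2 := Real.exp_pos (-(π * ((k.2 : ℝ) + 1 / 2)))
        have h3 := Real.exp_pos (π * ((k.2 : ℝ) + 1 / 2))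
        linarith
      have hnorm : ‖deriv (Q I) (zz k)‖ ≤ ‖deriv f (c k)‖ * (π * Real.exp (π * (k.2 + 1))) := by
        rw [e1, norm_mul, norm_neg, norm_mul, hsn]
        have : ‖(π : ℂ)‖ = π := by
          rw [Complex.norm_real, Real.norm_of_nonneg Real.pi_pos.le]
        rw [this]
        gcongr
      rw [norm_inv, norm_mul, e2, hRn]
      rw [hQn] at hnorm
      have hfpos : 0 < ‖deriv f (c k)‖ := norm_pos_iff.2 (hd k)
      have hEpos : 0 < Real.exp (π * (k.2 : ℝ) * (k.2 + 1)) := Real.exp_pos _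
      rw [inv_le_iff_one_le_mul₀ (by positivity)]
      have hE2 : Real.exp (π * (k.2 + 1)) ≤ Real.exp π * Real.exp (-π) ^ k.2 *
          (Real.exp (π * (k.2 : ℝ) * (k.2 + 1)) * Real.exp (π * (k.2 : ℝ) * (k.2 + 1))) := by
        rw [← Real.exp_nat_mul, ← Real.exp_add, ← Real.exp_add, ← Real.exp_add]
        apply Real.exp_le_exp.2
        have hk : (0 : ℝ) ≤ k.2 := Nat.cast_nonneg _
        have : (k.2 : ℝ) ≤ (k.2 : ℝ) * k.2 := by
          rcases Nat.eq_zero_or_pos k.2 with h | h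
          · rw [h]; simp
          · have : (1 : ℝ) ≤ k.2 := by exact_mod_cast h
            nlinarith
        nlinarith [Real.pi_pos, mul_le_mul_of_nonneg_left this Real.pi_pos.le]
      have hmain : ‖deriv (Q I) (I / 2)‖ ≤ ‖deriv f (c k)‖ * (π * (Real.exp π * Real.exp (-π) ^ k.2)) *
          Real.exp (π * (k.2 : ℝ) * (k.2 + 1)) := by
        have h5 : Real.exp (π * k.2 * (k.2 + 1)) * ‖deriv (Q I) (I / 2)‖ ≤
            Real.exp (π * k.2 * (k.2 + 1)) * (‖deriv f (c k)‖ * (π * (Real.exp π * Real.exp (-π) ^ k.2)) *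
          Real.exp (π * (k.2 : ℝ) * (k.2 + 1))) := by
          calc _ ≤ ‖deriv f (c k)‖ * (π * Real.exp (π * (k.2 + 1))) := hnorm
            _ ≤ ‖deriv f (c k)‖ * (π * (Real.exp π * Real.exp (-π) ^ k.2 *
          (Real.exp (π * (k.2 : ℝ) * (k.2 + 1)) * Real.exp (π * (k.2 : ℝ) * (k.2 + 1))))) := by
                gcongr
            _ = _ := by ring
        exact le_of_mul_le_mul_left h5 hEpos
      have hCmul : C * (‖deriv (Q I) (I / 2)‖ * ‖R I (I / 2)‖) = π * Real.exp π := by
        rw [hC]; field_simp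
      have : 1 * (‖deriv (Q I) (I / 2)‖) ≤ (C * Real.exp (-π) ^ k.2 * (‖deriv f (c k)‖ *
          (Real.exp (π * ↑k.2 * (↑k.2 + 1)) * ‖R I (I / 2)‖))) * ‖deriv (Q I) (I / 2)‖ := by
        calc 1 * (‖deriv (Q I) (I / 2)‖) ≤ ‖deriv f (c k)‖ * (π * (Real.exp π * Real.exp (-π) ^ k.2)) *
          Real.exp (π * (k.2 : ℝ) * (k.2 + 1)) := by rw [one_mul]; exact hmain
          _ = ‖deriv f (c k)‖ * ((π * Real.exp π) * Real.exp (-π) ^ k.2) *
          Real.exp (π * (k.2 : ℝ) * (k.2 + 1)) := by ring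
          _ = _ := by rw [← hCmul]; ring
      exact le_of_mul_le_mul_right this hQ0
    have hs : Summable fun k : Bool × ℕ => C * Real.exp (-π) ^ k.2 := by
      have hgeo : Summable fun n : ℕ => C * Real.exp (-π) ^ n :=
        (summable_geometric_of_lt_one (Real.exp_pos _).le
          (Real.exp_lt_one_iff.2 (by linarith [Real.pi_pos]))).mul_left C
      have h0 : ∀ k : Bool × ℕ, 0 ≤ C * Real.exp (-π) ^ k.2 := fun k => by positivity
      rw [summable_prod_of_nonneg h0]
      exact ⟨fun _ => hgeo, Summable.of_finite⟩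
    exact Summable.of_nonneg_of_le (fun k => norm_nonneg _) hbd hs
  have hfin : ∀ r : ℝ, {k | ‖c k‖ ≤ r}.Finite := by
    intro r
    obtain ⟨N, hN⟩ := exists_nat_ge r
    apply Set.Finite.subset ((Set.finite_univ : (Set.univ : Set Bool).Finite).prod (Set.finite_Iic N))
    rintro ⟨b, n⟩ h
    refine ⟨trivial, ?_⟩
    simp only [Set.mem_setOf_eq] at h
    rw [hcc] at h
    have hn : ‖((-1 : ℂ)) ^ (mm (b, n)) * ((Real.cosh (π * ((n : ℝ) + 1 / 2)) : ℝ) : ℂ)‖ =
        Real.cosh (π * ((n : ℝ) + 1 / 2)) := by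
      rw [norm_mul, norm_zpow, norm_neg, norm_one, one_zpow, one_mul, Complex.norm_real,
        Real.norm_of_nonneg (hcosh n).le]
    rw [hn] at h
    have h4 : (n : ℝ) ≤ Real.cosh (π * ((n : ℝ) + 1 / 2)) := by
      rw [Real.cosh_eq]
      have h1 := Real.add_one_le_exp (π * ((n : ℝ) + 1 / 2))
      have h2 := Real.exp_pos (-(π * ((n : ℝ) + 1 / 2)))
      have h3 := Real.pi_gt_three
      have hn0 : (0 : ℝ) ≤ n := Nat.cast_nonneg n
      nlinarith
    simp only [Set.mem_Iic]
    have : (n : ℝ) ≤ N := by linarith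
    exact_mod_cast this
  obtain ⟨a, b, ha, hb, hab⟩ := lagr hf hg c hcinj hz hd hgc hsum hfin
  have hcd : Differentiable ℂ fun z : ℂ => Complex.cos (π * z) := by fun_prop
  refine ⟨fun z => a (Complex.cos (π * z)), fun z => b (Complex.cos (π * z)), ha.comp hcd,
    hb.comp hcd, ?_, ?_, ?_⟩
  · intro z
    have : (π : ℂ) * (z + 2) = π * z + 2 * π := by ring
    show a (Complex.cos (π * (z + 2))) = _
    rw [this, Complex.cos_add_two_pi]
  · intro z
    have : (π : ℂ) * (z + 2) = π * z + 2 * π := by ring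
    show b (Complex.cos (π * (z + 2))) = _
    rw [this, Complex.cos_add_two_pi]
  · intro z
    rw [hQf, hRg]
    exact hab _

end Pool.Agent.Helper344.Ent
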