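import Pool.Agent.Helper344.Ent.Defs



namespace Pool.Agent.Helper344.Ent
open Complex Filter Topology
open scoped Real


theorem osg24764_cont (g : ℂ × ℂ → ℂ → ℂ) (c : ℂ × ℂ → ℂ) (hc : Continuous c)
    (hg : Continuous fun q : (ℂ × ℂ) × ℂ => g q.1 q.2) (hd : ∀ p, Differentiable ℂ (g p)) :
    Continuous fun p => deriv (g p) (c p) := by
  have h2 : (2 * (π : ℂ) * I) ≠ 0 := Complex.two_pi_I_ne_zero
  have hform : ∀ p, deriv (g p) (c p) = (2 * (π : ℂ) * I)⁻¹ *
      ∫ θ in (0 : ℝ)..2 * π, (circleMap 0 1 θ * I) *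
        ((1 / (circleMap 0 1 θ) ^ 2) * g p (c p + circleMap 0 1 θ)) := by
    intro p
    have h := DifferentiableOn.deriv_eq_smul_circleIntegral (c := c p) (R := 1) one_pos
      ((hd p).differentiableOn)
    rw [circleIntegral] at h
    have e : ∀ θ : ℝ, deriv (circleMap (c p) 1) θ •
        ((1 / (circleMap (c p) 1 θ - c p) ^ 2) • g p (circleMap (c p) 1 θ)) =
        (circleMap 0 1 θ * I) *
        ((1 / (circleMap 0 1 θ) ^ 2) * g p (c p + circleMap 0 1 θ)) := by
      intro θ
      rw [deriv_circleMap, circleMap_sub_center, smul_eq_mul, smul_eq_mul]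
      congr 3
      simp [circleMap]
    simp only [e] at h
    rw [h, smul_eq_mul, inv_mul_cancel_left₀ h2]
  have heq : (fun p => deriv (g p) (c p)) = fun p => (2 * (π : ℂ) * I)⁻¹ *
      ∫ θ in (0 : ℝ)..2 * π, (circleMap 0 1 θ * I) *
        ((1 / (circleMap 0 1 θ) ^ 2) * g p (c p + circleMap 0 1 θ)) := funext hform
  rw [heq]
  apply Continuous.mul continuous_const
  apply intervalIntegral.continuous_parametric_intervalIntegral_of_continuous'
  have hcm : Continuous fun q : (ℂ × ℂ) × ℝ => circleMap 0 1 q.2 :=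
    (continuous_circleMap 0 1).comp continuous_snd
  have hne : ∀ q : (ℂ × ℂ) × ℝ, circleMap 0 1 q.2 ^ 2 ≠ 0 := by
    intro q
    apply pow_ne_zero
    exact circleMap_ne_center one_ne_zero
  have hg2 : Continuous fun q : (ℂ × ℂ) × ℝ => g q.1 (c q.1 + circleMap 0 1 q.2) :=
    hg.comp (continuous_fst.prodMk ((hc.comp continuous_fst).add hcm))
  exact (hcm.mul continuous_const).mul
    ((continuous_const.div (hcm.pow 2) hne).mul hg2)

theorem osg {F : ℂ × ℂ → ℂ} (hF : Continuous F) (h1 : ∀ z, Differentiable ℂ fun x => F (x, z))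
    (h2 : ∀ x, Differentiable ℂ fun z => F (x, z)) : Differentiable ℂ F := by
  intro u
  have c1 : Continuous fun p : ℂ × ℂ => deriv (fun x => F (x, p.2)) p.1 := by
    apply osg24764_cont (fun p x => F (x, p.2)) (fun p => p.1) continuous_fst
    · exact hF.comp (continuous_snd.prodMk (continuous_snd.comp continuous_fst))
    · intro p
      exact h1 p.2
  have c2 : Continuous fun p : ℂ × ℂ => deriv (fun z => F (p.1, z)) p.2 := by
    apply osg24764_cont (fun p z => F (p.1, z)) (fun p => p.2) continuous_snd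
    · exact hF.comp ((continuous_fst.comp continuous_fst).prodMk continuous_snd)
    · intro p
      exact h2 p.1
  have hK : Continuous fun w : ℂ => ContinuousLinearMap.toSpanSingleton ℂ w :=
    ContinuousLinearMap.toSpanSingletonCLE (𝕜 := ℂ) (E := ℂ) |>.continuous
  have hmain := hasStrictFDerivAt_uncurry_coprod (𝕜 := ℂ) (u := u)
    (f := fun x z => F (x, z))
    (f₁ := fun x z => ContinuousLinearMap.toSpanSingleton ℂ (deriv (fun x' => F (x', z)) x))
    (f₂ := fun x z => ContinuousLinearMap.toSpanSingleton ℂ (deriv (fun z' => F (x, z')) z))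
    (Filter.Eventually.of_forall fun v =>
      ((h1 v.2).differentiableAt (x := v.1)).hasDerivAt.hasFDerivAt)
    (Filter.Eventually.of_forall fun v =>
      ((h2 v.1).differentiableAt (x := v.2)).hasDerivAt.hasFDerivAt)
    ((hK.comp c1).continuousAt) ((hK.comp c2).continuousAt)
  exact hmain.hasFDerivAt.differentiableAt

end Pool.Agent.Helper344.Ent
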