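import Pool.Agent.Helper344.Ent.Defs
import Pool.Agent.Helper344.Ent.P_osg



namespace Pool.Agent.Helper344.Ent
open Complex Filter Topology
open scoped Real


theorem div2 {φ : ℂ → ℂ} (hφ : Differentiable ℂ φ) (hs : ∀ z, φ z = 0 → deriv φ z ≠ 0)
    {F : ℂ × ℂ → ℂ} (hF : Differentiable ℂ F) (h : ∀ x z, φ z = 0 → F (x, z) = 0) :
    ∃ g : ℂ × ℂ → ℂ, Differentiable ℂ g ∧ ∀ x z, F (x, z) = φ z * g (x, z) := by
  classical
  have hFx : ∀ z, Differentiable ℂ fun x => F (x, z) := fun z =>
    hF.comp (differentiable_id.prodMk (differentiable_const z))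
  have hFz : ∀ x, Differentiable ℂ fun z => F (x, z) := fun x =>
    hF.comp ((differentiable_const x).prodMk differentiable_id)
  let g : ℂ × ℂ → ℂ := fun p => if φ p.2 = 0 then deriv (fun z => F (p.1, z)) p.2 / deriv φ p.2
    else F p / φ p.2
  have hg0 : ∀ x z, φ z = 0 → g (x, z) = deriv (fun z => F (x, z)) z / deriv φ z := by
    intro x z hz
    simp [g, hz]
  have hg1 : ∀ x z, φ z ≠ 0 → g (x, z) = F (x, z) / φ z := by
    intro x z hz
    simp [g, hz]
  have hiso : ∀ a, φ a = 0 → ∀ᶠ z in 𝓝[≠] a, φ z ≠ 0 := fun a ha =>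
    (hφ a).hasDerivAt.eventually_ne (hs a ha)
  -- differentiability in `z`
  have hgz : ∀ x, Differentiable ℂ fun z => g (x, z) := by
    intro x z
    by_cases hz : φ z = 0
    · have h1 : DifferentiableAt ℂ (dslope (fun z => F (x, z)) z) z := by
        have := (Complex.differentiableOn_dslope (f := fun z => F (x, z)) (c := z)
          (s := Set.univ) univ_mem).2 (hFz x).differentiableOn
        exact this.differentiableAt univ_mem
      have h2 : DifferentiableAt ℂ (dslope φ z) z := by
        have := (Complex.differentiableOn_dslope (f := φ) (c := z)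
          (s := Set.univ) univ_mem).2 hφ.differentiableOn
        exact this.differentiableAt univ_mem
      have h3 : dslope φ z z ≠ 0 := by
        rw [dslope_same]
        exact hs z hz
      refine (h1.div h2 h3).congr_of_eventuallyEq ?_
      have hev := eventually_nhdsWithin_iff.1 (hiso z hz)
      filter_upwards [hev] with w hw
      by_cases hwz : w = z
      · subst hwz
        show g (x, w) = _
        rw [hg0 x w hz, Pi.div_apply, dslope_same, dslope_same]
      · have hw' := hw hwz
        have hwz' : w - z ≠ 0 := sub_ne_zero.2 hwz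
        show g (x, w) = _
        rw [hg1 x w hw', Pi.div_apply, dslope_of_ne _ hwz, dslope_of_ne _ hwz, slope_def_field,
          slope_def_field, hz, h x z hz, sub_zero, sub_zero]
        field_simp
    · have hcont : ∀ᶠ w in 𝓝 z, φ w ≠ 0 := hφ.continuous.continuousAt.eventually_ne hz
      refine (((hFz x) z).div (hφ z) hz).congr_of_eventuallyEq ?_
      filter_upwards [hcont] with w hw
      exact hg1 x w hw
  -- continuity at points with `φ z ≠ 0`
  have hc1 : ∀ x z, φ z ≠ 0 → ContinuousAt g (x, z) := by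
    intro x z hz
    have hcont : ∀ᶠ p : ℂ × ℂ in 𝓝 (x, z), φ p.2 ≠ 0 :=
      (hφ.continuous.comp continuous_snd).continuousAt.eventually_ne hz
    have h1 : ContinuousAt (fun p : ℂ × ℂ => F p / φ p.2) (x, z) :=
      hF.continuous.continuousAt.div (hφ.continuous.comp continuous_snd).continuousAt hz
    refine h1.congr ?_
    filter_upwards [hcont] with p hp
    exact (hg1 p.1 p.2 hp).symm
  have hc : Continuous g := by
    rw [continuous_iff_continuousAt]
    rintro ⟨x₀, a⟩
    by_cases ha : φ a = 0
    · obtain ⟨r, hr, hball⟩ := Metric.mem_nhdsWithin_iff.1 (hiso a ha)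
      set ρ := r / 2 with hρ
      have hρ0 : 0 < ρ := by positivity
      have hsph : ∀ ζ ∈ Metric.sphere a ρ, φ ζ ≠ 0 := by
        intro ζ hζ
        refine hball ⟨?_, ?_⟩
        · rw [Metric.mem_ball, Metric.mem_sphere.1 hζ]; linarith
        · intro e
          have : dist ζ a = 0 := by rw [Set.mem_singleton_iff.1 e, dist_self]
          rw [Metric.mem_sphere.1 hζ] at this
          linarith
      rw [Metric.continuousAt_iff]
      intro ε hε
      have hP : ∀ ζ ∈ Metric.sphere a ρ, ∀ᶠ p : ℂ × ℂ in 𝓝 (x₀, ζ),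
          ‖g (p.1, p.2) - g (x₀, p.2)‖ < ε / 2 := by
        intro ζ hζ
        have h1 : ContinuousAt (fun p : ℂ × ℂ => g (p.1, p.2)) (x₀, ζ) := hc1 x₀ ζ (hsph ζ hζ)
        have h2 : ContinuousAt (fun p : ℂ × ℂ => g (x₀, p.2)) (x₀, ζ) :=
          ((hgz x₀).continuous.comp continuous_snd).continuousAt
        have h3 := (h1.sub h2).norm
        have h4 : ‖g (x₀, ζ) - g (x₀, ζ)‖ < ε / 2 := by
          rw [sub_self, norm_zero]; positivity
        exact h3.eventually_lt_const h4
      have hev : ∀ᶠ x in 𝓝 x₀, ∀ ζ ∈ Metric.sphere a ρ, ‖g (x, ζ) - g (x₀, ζ)‖ < ε / 2 :=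
        (isCompact_sphere a ρ).eventually_forall_of_forall_eventually
          (P := fun x ζ => ‖g (x, ζ) - g (x₀, ζ)‖ < ε / 2) hP
      obtain ⟨δ₁, hδ₁, hd₁⟩ := Metric.eventually_nhds_iff.1 hev
      have hcz : ContinuousAt (fun z => g (x₀, z)) a := (hgz x₀).continuous.continuousAt
      obtain ⟨δ₂, hδ₂, hd₂⟩ := Metric.continuousAt_iff.1 hcz (ε / 2) (by positivity)
      refine ⟨min δ₁ (min δ₂ ρ), lt_min hδ₁ (lt_min hδ₂ hρ0), ?_⟩
      rintro ⟨x, z⟩ hxz
      have hxz' : dist x x₀ < δ₁ ∧ dist z a < min δ₂ ρ := by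
        rw [Prod.dist_eq] at hxz
        refine ⟨(le_max_left _ _).trans_lt (hxz.trans_le (min_le_left _ _)),
          (le_max_right _ _).trans_lt (hxz.trans_le (min_le_right _ _))⟩
      have hx := hd₁ hxz'.1
      have hmax : ‖g (x, z) - g (x₀, z)‖ ≤ ε / 2 := by
        have hdc : DiffContOnCl ℂ (fun z => g (x, z) - g (x₀, z)) (Metric.ball a ρ) :=
          ((hgz x).sub (hgz x₀)).diffContOnCl
        refine Complex.norm_le_of_forall_mem_frontier_norm_le Metric.isBounded_ball hdc ?_ ?_
        · intro ζ hζ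
          rw [frontier_ball a hρ0.ne'] at hζ
          exact (hx ζ hζ).le
        · exact subset_closure (Metric.mem_ball.2 (hxz'.2.trans_le (min_le_right _ _)))
      have hz2 : dist (g (x₀, z)) (g (x₀, a)) < ε / 2 := hd₂ (hxz'.2.trans_le (min_le_left _ _))
      calc dist (g (x, z)) (g (x₀, a)) ≤ dist (g (x, z)) (g (x₀, z)) +
            dist (g (x₀, z)) (g (x₀, a)) := dist_triangle _ _ _
        _ < ε := by
          rw [dist_eq_norm (g (x, z))]
          linarith
    · exact hc1 x₀ a ha
  -- differentiability in `x`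
  have hgx : ∀ z, Differentiable ℂ fun x => g (x, z) := by
    intro a
    by_cases ha : φ a = 0
    · let G : C(ℂ × ℂ, ℂ) := ⟨fun p => g (p.2, p.1), hc.comp continuous_swap⟩
      have hG : Tendsto G.curry (𝓝 a) (𝓝 (G.curry a)) := G.curry.continuous.tendsto a
      have hG' := ContinuousMap.tendsto_iff_tendstoLocallyUniformly.1 (hG.mono_left
        (nhdsWithin_le_nhds (s := {a}ᶜ)))
      have hU : TendstoLocallyUniformlyOn (fun z x => g (x, z)) (fun x => g (x, a)) (𝓝[≠] a)
          Set.univ := tendstoLocallyUniformlyOn_univ.2 hG'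
      have hD := hU.differentiableOn (by
        filter_upwards [hiso a ha] with z hz
        have : (fun x => g (x, z)) = fun x => F (x, z) / φ z := by
          funext x
          exact hg1 x z hz
        rw [this]
        exact ((hFx z).div_const _).differentiableOn) isOpen_univ
      exact differentiableOn_univ.1 hD
    · have : (fun x => g (x, a)) = fun x => F (x, a) / φ a := by
        funext x
        exact hg1 x a ha
      rw [this]
      exact (hFx a).div_const _
  refine ⟨g, osg hc hgx hgz, ?_⟩
  intro x z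
  by_cases hz : φ z = 0
  · rw [h x z hz, hz, zero_mul]
  · rw [hg1 x z hz]
    field_simp

end Pool.Agent.Helper344.Ent
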