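import Pool.Agent.Helper344.Ent.Defs
import Pool.Agent.Helper344.Ent.P_div2



namespace Pool.Agent.Helper344.Ent
open Complex Filter Topology
open scoped Real


theorem quot_s_zero (z : ℂ) : sv z - 1 = 0 ↔ ∃ n : ℤ, z = n := by
  unfold sv
  rw [sub_eq_zero, Complex.exp_eq_one_iff]
  have h2 : (2 * π * I : ℂ) ≠ 0 := Complex.two_pi_I_ne_zero
  constructor
  · rintro ⟨n, hn⟩
    refine ⟨n, ?_⟩
    apply mul_left_cancel₀ h2
    rw [hn, mul_comm]
  · rintro ⟨n, hn⟩
    refine ⟨n, ?_⟩
    rw [hn, mul_comm]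

theorem quot_s {F : ℂ × ℂ → ℂ} (hF : Hol F) (h : ∀ t, F (0, t) = 0) :
    ∃ g, Hol g ∧ ∀ z t, F (z, t) = (sv z - 1) * g (z, t) := by
  obtain ⟨hF1, hF2⟩ := hF
  have hnat : ∀ n : ℕ, ∀ z t, F (z + n, t) = F (z, t) := by
    intro n
    induction n with
    | zero => intro z t; simp
    | succ n ih =>
      intro z t
      push_cast
      rw [← add_assoc, hF2, ih]
  have hint : ∀ n : ℤ, ∀ t, F ((n : ℂ), t) = 0 := by
    intro n t
    rcases Int.eq_nat_or_neg n with ⟨k, rfl | rfl⟩
    · have := hnat k 0 t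
      rw [zero_add] at this
      push_cast
      rw [this, h]
    · have := hnat k (-(k : ℂ)) t
      rw [neg_add_cancel, h] at this
      push_cast
      exact this.symm
  have hsv : Differentiable ℂ (fun z => sv z - 1) := by
    unfold sv
    fun_prop
  have hper : ∀ z, sv (z + 1) = sv z := by
    intro z
    unfold sv
    rw [mul_add, mul_one, Complex.exp_add, Complex.exp_two_pi_mul_I, mul_one]
  obtain ⟨g0, hg0, hg0F⟩ := div2 hsv (fun z hz => by
      have hd : HasDerivAt (fun z => sv z - 1) (cexp (2 * π * I * z) * (2 * π * I)) z := by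
        unfold sv
        have h1 : HasDerivAt (fun z : ℂ => 2 * π * I * z) (2 * π * I) z := by
          simpa using (hasDerivAt_id z).const_mul (2 * π * I)
        exact h1.cexp.sub_const 1
      rw [hd.deriv]
      exact mul_ne_zero (Complex.exp_ne_zero _) Complex.two_pi_I_ne_zero)
    (F := fun x => F (x.2, x.1)) (hF1.comp (by fun_prop)) (fun x z hz => by
      obtain ⟨n, rfl⟩ := (quot_s_zero z).1 hz
      exact hint n x)
  refine ⟨fun x => g0 (x.2, x.1), ⟨hg0.comp (by fun_prop), ?_⟩, fun z t => hg0F t z⟩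
  intro z t
  have hdense : Dense {z : ℂ | ∃ n : ℤ, z = n}ᶜ := by
    apply Set.Countable.dense_compl ℝ
    have : {z : ℂ | ∃ n : ℤ, z = n} = Set.range (fun n : ℤ => (n : ℂ)) := by
      ext z
      constructor
      · rintro ⟨n, hn⟩
        exact ⟨n, hn.symm⟩
      · rintro ⟨n, hn⟩
        exact ⟨n, hn.symm⟩
    rw [this]
    exact Set.countable_range _
  have hc1 : Continuous (fun z : ℂ => g0 (t, z + 1)) := hg0.continuous.comp (by fun_prop)
  have hc2 : Continuous (fun z : ℂ => g0 (t, z)) := hg0.continuous.comp (by fun_prop)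
  have heq : Set.EqOn (fun z : ℂ => g0 (t, z + 1)) (fun z : ℂ => g0 (t, z))
      {z : ℂ | ∃ n : ℤ, z = n}ᶜ := by
    intro z hz
    have hz0 : sv z - 1 ≠ 0 := fun h0 => hz ((quot_s_zero z).1 h0)
    have h1 := hg0F t (z + 1)
    have h2 := hg0F t z
    simp only at h1 h2
    rw [hF2, h2, hper] at h1
    exact (mul_left_cancel₀ hz0 h1).symm
  have := Continuous.ext_on hdense hc1 hc2 heq
  exact congrFun this z

end Pool.Agent.Helper344.Ent
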