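import Pool.Agent.Helper344.Ent.Defs
import Pool.Agent.Helper344.Ent.P_div2



namespace Pool.Agent.Helper344.Ent
open Complex Filter Topology
open scoped Real


theorem quot_t {F : ℂ × ℂ → ℂ} (hF : Hol F) (a : ℂ) (h : ∀ z, F (z, a) = 0) :
    ∃ g, Hol g ∧ ∀ z t, F (z, t) = (t - a) * g (z, t) := by
  obtain ⟨g, hg', hg⟩ := div2 (φ := fun t : ℂ => t - a) (by fun_prop)
    (by
      intro z _
      have : deriv (fun t : ℂ => t - a) z = 1 := by simp
      rw [this]; exact one_ne_zero)
    (F := F) hF.1
    (by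
      intro x z hx
      have hx' : z = a := sub_eq_zero.1 hx
      subst hx'
      exact h x)
  refine ⟨g, ⟨hg', ?_⟩, fun z t => hg z t⟩
  intro z t
  have hc1 : Continuous fun t : ℂ => g (z + 1, t) :=
    hg'.continuous.comp (by fun_prop)
  have hc2 : Continuous fun t : ℂ => g (z, t) :=
    hg'.continuous.comp (by fun_prop)
  have hE : (fun t : ℂ => g (z + 1, t)) = fun t : ℂ => g (z, t) := by
    refine Continuous.ext_on (dense_compl_singleton a) hc1 hc2 ?_
    intro t ht
    have ht' : t - a ≠ 0 := sub_ne_zero.2 ht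
    have h1 := hg (z + 1) t
    have h2 := hg z t
    have h3 : F (z + 1, t) = F (z, t) := hF.2 z t
    rw [h1, h2] at h3
    exact mul_left_cancel₀ ht' h3
  exact congrFun hE t

end Pool.Agent.Helper344.Ent
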