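import Pool.Agent.Helper344.Ent.Defs
import Pool.Agent.Helper344.Ent.P_G_mem
import Pool.Agent.Helper344.Ent.P_G_diff
import Pool.Agent.Helper344.Ent.P_G_one
import Pool.Agent.Helper344.Ent.P_G_add
import Pool.Agent.Helper344.Ent.P_bez
import Pool.Agent.Helper344.Ent.P_quot_t
import Pool.Agent.Helper344.Ent.P_quot_s



namespace Pool.Agent.Helper344.Ent
open Complex Filter Topology
open scoped Real


theorem hol_zero : Hol (fun _ => 0) := ⟨differentiable_const _, fun _ _ => rfl⟩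

theorem hol_getD (L : List (ℂ × ℂ → ℂ)) (h : ∀ f ∈ L, Hol f) (j : ℕ) :
    Hol (L.getD j (fun _ => 0)) := by
  by_cases hj : j < L.length
  · rw [List.getD_eq_getElem _ _ hj]
    exact h _ (List.getElem_mem hj)
  · rw [List.getD_eq_default _ _ (by omega)]
    exact hol_zero

/-- the odd polynomial -/
noncomputable def cp (y : ℤ) (t : ℂ) : ℂ :=
  -I * t * (t ^ 2 - 4) * (t ^ 2 - 9) / 24 + (-I * y) * t * (t ^ 2 - 1) * (t ^ 2 - 9) / (-30) +
    (1 / 2) * t * (t ^ 2 - 1) * (t ^ 2 - 4) / 120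

noncomputable def Ph (k y : ℤ) (p : ℂ × ℂ) : ℂ := 2 * k * p.1 + cp y p.2

theorem Ph_diff (k y : ℤ) : Differentiable ℂ (Ph k y) := by
  unfold Ph cp
  fun_prop

theorem Ph_per (k y : ℤ) (z t : ℂ) : Ph k y (z + 1, t) = Ph k y (z, t) + 2 * k + 2 * ((0 : ℤ) : ℂ) * I := by
  simp only [Ph]
  push_cast
  ring

theorem jj_zero (w : ℂ) : jj 0 w = 1 := by simp [jj]

noncomputable def V (k y : ℤ) (j : Fin 4) (p : ℂ × ℂ) : ℂ := G (Ph k y p) j

theorem V_hol (k y : ℤ) (j : Fin 4) : Hol (V k y j) := by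
  constructor
  · have h : Differentiable ℂ (fun p => G (Ph k y p)) := G_diff.1.comp (Ph_diff k y)
    exact (differentiable_pi.1 h) j
  · intro z t
    simp only [V]
    rw [Ph_per, G_add, jj_zero, one_smul]

theorem B_hol (k y : ℤ) (B : ℂ → ℂ) (hB : Differentiable ℂ B) (hp : ∀ z, B (z + 2) = B z) :
    Hol (fun p => B (Ph k y p)) := by
  constructor
  · exact hB.comp (Ph_diff k y)
  · intro z t
    have h : Function.Periodic B 2 := hp
    have h2 := (h.int_mul k) (Ph k y (z, t))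
    show B (Ph k y (z + 1, t)) = B (Ph k y (z, t))
    rw [← h2, Ph_per]
    congr 1
    push_cast
    ring

theorem complGlue (k y m : ℤ) (a z : ℂ) (ha : cp y a = -(m : ℂ) * I) (ha' : cp y (-a) = (m : ℂ) * I) :
    G (Ph k y (z, a)) = cexp (8 * π * I * (k * m : ℤ) * z) • G (Ph k y (z, -a)) := by
  have h1 : Ph k y (z, a) = Ph k y (z, -a) + 2 * ((0 : ℤ) : ℂ) + 2 * ((-m : ℤ) : ℂ) * I := by
    simp only [Ph, ha, ha']
    push_cast
    ring
  have h2 : jj (-m) (Ph k y (z, -a)) = cexp (8 * π * I * (k * m : ℤ) * z) := by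
    simp only [jj, Ph, ha']
    congr 1
    push_cast
    linear_combination (4 * (π : ℂ) * (m : ℂ) ^ 2) * Complex.I_sq
  rw [h1, G_add, h2]

theorem glue3 (k y : ℤ) (z : ℂ) : G (Ph k y (z, 3)) = Tw (G (Ph k y (z, -3))) := by
  have h1 : Ph k y (z, 3) = Ph k y (z, -3) + 1 := by
    simp only [Ph, cp]
    ring
  rw [h1, G_one]

theorem sp_hol (k : ℤ) : Hol (sp k) := by
  constructor
  · unfold sp
    fun_prop
  · intro z t
    simp only [sp]
    rw [show 8 * (π : ℂ) * I * k * (z + 1) = 8 * π * I * k * z + ((4 * k : ℤ) : ℂ) * (2 * π * I) by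
      push_cast; ring, Complex.exp_add, Complex.exp_int_mul_two_pi_mul_I, mul_one]

theorem sp_mul (a b : ℤ) (x : ℂ × ℂ) : sp a x * sp b x = sp (a + b) x := by
  simp only [sp]
  rw [← Complex.exp_add]
  congr 1
  push_cast
  ring

theorem sp_zero (x : ℂ × ℂ) : sp 0 x = 1 := by simp [sp]

theorem sv_four (x : ℂ × ℂ) : sv x.1 * sv x.1 * (sv x.1 * sv x.1) = sp 1 x := by
  simp only [sp, sv]
  rw [← Complex.exp_add, ← Complex.exp_add]
  congr 1
  push_cast
  ring

theorem hol_sig {f : ℂ × ℂ → ℂ} (hf : Hol f) : Hol (fun x => f (x.1, -x.2)) := by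
  constructor
  · have h : Differentiable ℂ (fun x : ℂ × ℂ => (x.1, -x.2)) := by fun_prop
    exact hf.1.comp h
  · intro z t
    exact hf.2 z (-t)

theorem hol_sub {f g : ℂ × ℂ → ℂ} (hf : Hol f) (hg : Hol g) : Hol (fun x => f x - g x) :=
  ⟨hf.1.sub hg.1, fun z t => by simp only [hf.2, hg.2]⟩

theorem hol_add {f g : ℂ × ℂ → ℂ} (hf : Hol f) (hg : Hol g) : Hol (fun x => f x + g x) :=
  ⟨hf.1.add hg.1, fun z t => by simp only [hf.2, hg.2]⟩

theorem hol_mul {f g : ℂ × ℂ → ℂ} (hf : Hol f) (hg : Hol g) : Hol (fun x => f x * g x) :=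
  ⟨hf.1.mul hg.1, fun z t => by simp only [hf.2, hg.2]⟩

/-- certificates for the gluing -/
theorem cert_gl (k y m : ℤ) (a : ℂ) (ha : cp y a = -(m : ℂ) * I) (ha' : cp y (-a) = (m : ℂ) * I)
    (q : ℤ) (hq : q = k * m) :
    ∃ h : Fin 4 → ℂ × ℂ → ℂ, (∀ j, Hol (h j)) ∧
      ∀ j x, V k y j x - sp q x * V k y j (x.1, -x.2) = (x.2 - a) * h j x := by
  have key : ∀ j : Fin 4, ∃ g, Hol g ∧ ∀ z t,
      (fun x : ℂ × ℂ => V k y j x - sp q x * V k y j (x.1, -x.2)) (z, t) = (t - a) * g (z, t) := by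
    intro j
    apply quot_t (hol_sub (V_hol k y j) (hol_mul (sp_hol q) (hol_sig (V_hol k y j)))) a
    intro z
    simp only [V, sp]
    rw [complGlue k y m a z ha ha', hq]
    simp [Pi.smul_apply]
  choose h hh1 hh2 using key
  exact ⟨h, hh1, fun j x => hh2 j x.1 x.2⟩

theorem cert_tw (k y : ℤ) :
    ∃ h : Fin 4 → ℂ × ℂ → ℂ, (∀ j, Hol (h j)) ∧
      (∀ x, V k y 0 x - V k y 0 (x.1, -x.2) = (x.2 - 3) * h 0 x) ∧
      (∀ x, V k y 1 x + V k y 1 (x.1, -x.2) = (x.2 - 3) * h 1 x) ∧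
      (∀ x, V k y 2 x - V k y 2 (x.1, -x.2) = (x.2 - 3) * h 2 x) ∧
      (∀ x, V k y 3 x + V k y 3 (x.1, -x.2) = (x.2 - 3) * h 3 x) := by
  have k0 := quot_t (hol_sub (V_hol k y 0) (hol_sig (V_hol k y 0))) 3 (fun z => by
    simp only [V]; rw [glue3 k y z]; simp [Tw])
  have k1 := quot_t (hol_add (V_hol k y 1) (hol_sig (V_hol k y 1))) 3 (fun z => by
    simp only [V]; rw [glue3 k y z]; simp [Tw])
  have k2 := quot_t (hol_sub (V_hol k y 2) (hol_sig (V_hol k y 2))) 3 (fun z => by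
    simp only [V]; rw [glue3 k y z]; simp [Tw])
  have k3 := quot_t (hol_add (V_hol k y 3) (hol_sig (V_hol k y 3))) 3 (fun z => by
    simp only [V]; rw [glue3 k y z]; simp [Tw])
  obtain ⟨g0, h0, e0⟩ := k0
  obtain ⟨g1, h1, e1⟩ := k1
  obtain ⟨g2, h2, e2⟩ := k2
  obtain ⟨g3, h3, e3⟩ := k3
  refine ⟨![g0, g1, g2, g3], ?_, fun x => e0 x.1 x.2, fun x => e1 x.1 x.2, fun x => e2 x.1 x.2,
    fun x => e3 x.1 x.2⟩
  intro j
  fin_cases j
  · exact h0
  · exact h1
  · exact h2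
  · exact h3

theorem cert_eq (k y : ℤ) :
    ∃ h : Fin 4 → ℂ × ℂ → ℂ, (∀ j, Hol (h j)) ∧
      ∀ j x, V 1 y j x - V k y j x = (sv x.1 - 1) * h j x := by
  have key : ∀ j : Fin 4, ∃ g, Hol g ∧ ∀ z t,
      (fun x : ℂ × ℂ => V 1 y j x - V k y j x) (z, t) = (sv z - 1) * g (z, t) := by
    intro j
    apply quot_s (hol_sub (V_hol 1 y j) (V_hol k y j))
    intro t
    simp [V, Ph]
  choose h hh1 hh2 using key
  exact ⟨h, hh1, fun j x => hh2 j x.1 x.2⟩

theorem pt (k y : ℤ) (p : ℂ × ℂ) :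
    V k y 2 p ^ 2 = V k y 0 p ^ 2 + V k y 1 p ^ 2 ∧ V k y 3 p ^ 2 = V k y 0 p ^ 2 - V k y 1 p ^ 2 := by
  have h := G_mem (Ph k y p) 1 one_ne_zero
  rw [one_smul] at h
  exact ⟨h.1, h.2.1⟩

theorem compl (x y : ℤ) : ∃ w : ℕ → ℂ × ℂ → ℂ, (∀ j, Hol (w j)) ∧ w 0 = sp x ∧ w 1 = sp y ∧
    w 2 = sp (x * y) ∧ SatF w (tMulG 2) := by
  obtain ⟨B0, B1, hB0, hB1, pB0, pB1, hB⟩ := bez
  obtain ⟨h1, H1, E1⟩ := cert_gl 1 y 1 1 (by simp only [cp]; push_cast; ring)
    (by simp only [cp]; push_cast; ring) 1 (by norm_num)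
  obtain ⟨h2, H2, E2⟩ := cert_gl 1 y y 2 (by simp only [cp]; ring)
    (by simp only [cp]; ring) y (by ring)
  obtain ⟨h3, H3, E30, E31, E32, E33⟩ := cert_tw 1 y
  obtain ⟨h4, H4, E4⟩ := cert_gl x y 1 1 (by simp only [cp]; push_cast; ring)
    (by simp only [cp]; push_cast; ring) x (by ring)
  obtain ⟨h5, H5, E5⟩ := cert_gl x y y 2 (by simp only [cp]; ring)
    (by simp only [cp]; ring) (x * y) rfl
  obtain ⟨h6, H6, E60, E61, E62, E63⟩ := cert_tw x y
  obtain ⟨h7, H7, E7⟩ := cert_eq x y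
  refine ⟨fun j => ([sp x, sp y, sp (x * y), sp (-x), sp (-y), sp (-(x * y)),
    V 1 y 0, V 1 y 1, V 1 y 2, V 1 y 3, V x y 0, V x y 1, V x y 2, V x y 3,
    (fun p => B0 (Ph 1 y p)), (fun p => B1 (Ph 1 y p)),
    (fun p => B0 (Ph x y p)), (fun p => B1 (Ph x y p)),
    h1 0, h1 1, h1 2, h1 3, h2 0, h2 1, h2 2, h2 3, h3 0, h3 1, h3 2, h3 3,
    h4 0, h4 1, h4 2, h4 3, h5 0, h5 1, h5 2, h5 3, h6 0, h6 1, h6 2, h6 3,
    h7 0, h7 1, h7 2, h7 3] : List (ℂ × ℂ → ℂ)).getD j (fun _ => 0), ?_, rfl, rfl, rfl, ?_⟩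
  · apply hol_getD
    simp only [List.forall_mem_cons, List.not_mem_nil, IsEmpty.forall_iff, implies_true, and_true]
    refine ⟨sp_hol _, sp_hol _, sp_hol _, sp_hol _, sp_hol _, sp_hol _, V_hol _ _ _, V_hol _ _ _,
      V_hol _ _ _, V_hol _ _ _, V_hol _ _ _, V_hol _ _ _, V_hol _ _ _, V_hol _ _ _,
      B_hol _ _ _ hB0 pB0, B_hol _ _ _ hB1 pB1, B_hol _ _ _ hB0 pB0, B_hol _ _ _ hB1 pB1,
      H1 _, H1 _, H1 _, H1 _, H2 _, H2 _, H2 _, H2 _, H3 _, H3 _, H3 _, H3 _,
      H4 _, H4 _, H4 _, H4 _, H5 _, H5 _, H5 _, H5 _, H6 _, H6 _, H6 _, H6 _,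
      H7 _, H7 _, H7 _, H7 _⟩
  · have hQ : ∀ (k : ℤ) (p : ℂ × ℂ), B0 (Ph k y p) * V k y 0 p + B1 (Ph k y p) * V k y 1 p = 1 :=
      fun k p => hB (Ph k y p)
    have u1 : ∀ p, sp x p * sp (-x) p = 1 := fun p => by rw [sp_mul, add_neg_cancel, sp_zero]
    have u2 : ∀ p, sp y p * sp (-y) p = 1 := fun p => by rw [sp_mul, add_neg_cancel, sp_zero]
    have u3 : ∀ p, sp (x * y) p * sp (-(x * y)) p = 1 := fun p => by
      rw [sp_mul, add_neg_cancel, sp_zero]
    intro e he p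
    have g1 := fun j => E1 j p
    simp only [← sv_four] at g1
    simp only [tMulG, tPt, tGl, tTw, tEq, List.mem_append, List.mem_cons, List.not_mem_nil,
      or_false] at he
    rcases he with ((((((((((rfl | rfl | rfl) | (rfl | rfl | rfl)) | (rfl | rfl | rfl)) |
      (rfl | rfl | rfl | rfl)) | (rfl | rfl | rfl | rfl)) | (rfl | rfl | rfl | rfl)) |
      (rfl | rfl | rfl | rfl)) | (rfl | rfl | rfl | rfl)) | (rfl | rfl | rfl | rfl)) |
      (rfl | rfl | rfl | rfl)) <;> simp only [evF, s4, two, three, List.getD_cons_zero,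
        List.getD_cons_succ]
    · linear_combination u1 p
    · linear_combination u2 p
    · linear_combination u3 p
    · linear_combination (pt 1 y p).1
    · linear_combination (pt 1 y p).2
    · linear_combination hQ 1 p
    · linear_combination (pt x y p).1
    · linear_combination (pt x y p).2
    · linear_combination hQ x p
    · linear_combination g1 0
    · linear_combination g1 1
    · linear_combination g1 2
    · linear_combination g1 3
    · linear_combination E2 0 p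
    · linear_combination E2 1 p
    · linear_combination E2 2 p
    · linear_combination E2 3 p
    · linear_combination E30 p
    · linear_combination E31 p
    · linear_combination E32 p
    · linear_combination E33 p
    · linear_combination E4 0 p
    · linear_combination E4 1 p
    · linear_combination E4 2 p
    · linear_combination E4 3 p
    · linear_combination E5 0 p
    · linear_combination E5 1 p
    · linear_combination E5 2 p
    · linear_combination E5 3 p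
    · linear_combination E60 p
    · linear_combination E61 p
    · linear_combination E62 p
    · linear_combination E63 p
    · linear_combination E7 0 p
    · linear_combination E7 1 p
    · linear_combination E7 2 p
    · linear_combination E7 3 p

end Pool.Agent.Helper344.Ent
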