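import Pool.Agent.Helper344.Ent.Defs
import Pool.Agent.Helper344.Ent.P_osg



namespace Pool.Agent.Helper344.Ent
open Complex Filter Topology
open scoped Real


theorem desc2 {φ : ℂ → ℂ} (hφ : Differentiable ℂ φ) (hs : Function.Surjective φ)
    {F : ℂ × ℂ → ℂ} (hF : Differentiable ℂ F) (h : ∀ x z z', φ z = φ z' → F (x, z) = F (x, z')) :
    ∃ g : ℂ × ℂ → ℂ, Differentiable ℂ g ∧ ∀ x z, F (x, z) = g (x, φ z) := by
  classical
  have hφa : AnalyticOnNhd ℂ φ Set.univ := fun z _ => hφ.analyticAt z
  have hnc : ¬ ∃ c, ∀ z, φ z = c := by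
    rintro ⟨c, hc⟩
    obtain ⟨z1, h1⟩ := hs 0
    obtain ⟨z2, h2⟩ := hs 1
    rw [hc] at h1 h2
    exact zero_ne_one (h1.symm.trans h2)
  have hopen : IsOpenMap φ := by
    rcases hφa.is_constant_or_isOpen isPreconnected_univ with h0 | h0
    · exfalso
      obtain ⟨w, hw⟩ := h0
      exact hnc ⟨w, fun z => hw z (Set.mem_univ z)⟩
    · intro U hU
      exact h0 U (Set.subset_univ U) hU
  choose pre hpre using hs
  let g : ℂ × ℂ → ℂ := fun p => F (p.1, pre p.2)
  have hg : ∀ x z, F (x, z) = g (x, φ z) := fun x z => h x z (pre (φ z)) (hpre (φ z)).symm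
  have hgc : Continuous g := by
    have hq : IsOpenQuotientMap (Prod.map id φ : ℂ × ℂ → ℂ × ℂ) :=
      ⟨Function.surjective_id.prodMap (fun w => ⟨pre w, hpre w⟩),
        continuous_id.prodMap hφ.continuous, IsOpenMap.id.prodMap hopen⟩
    rw [← hq.continuous_comp_iff]
    have e : g ∘ Prod.map id φ = F := funext fun p => (hg p.1 p.2).symm
    rw [e]
    exact hF.continuous
  refine ⟨g, osg hgc ?_ ?_, hg⟩
  · intro w
    change Differentiable ℂ (fun x => F (x, pre w))
    exact hF.comp (differentiable_id.prodMk (differentiable_const _))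
  · intro x w0
    have hGx : Differentiable ℂ (fun z => F (x, z)) :=
      hF.comp ((differentiable_const x).prodMk differentiable_id)
    have hgx : Continuous (fun w => g (x, w)) := hgc.comp (by fun_prop)
    have hda : AnalyticOnNhd ℂ (deriv φ) Set.univ := hφa.deriv
    have hne : ∀ᶠ z in 𝓝[≠] (pre w0), deriv φ z ≠ 0 := by
      rcases (hda (pre w0) (Set.mem_univ _)).eventually_eq_zero_or_eventually_ne_zero with h0 | h0
      · exfalso
        have h1 := hda.eqOn_zero_of_preconnected_of_eventuallyEq_zero isPreconnected_univ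
          (Set.mem_univ (pre w0)) h0
        have h2 := is_const_of_deriv_eq_zero hφ (fun z => h1 (Set.mem_univ z))
        exact hnc ⟨φ 0, fun z => h2 z 0⟩
      · exact h0
    rw [eventually_nhdsWithin_iff, Metric.eventually_nhds_iff_ball] at hne
    obtain ⟨ε, hε, hball⟩ := hne
    have hsn : φ '' Metric.ball (pre w0) ε ∈ 𝓝 w0 :=
      (hopen _ Metric.isOpen_ball).mem_nhds ⟨pre w0, Metric.mem_ball_self hε, hpre w0⟩
    have hdo : DifferentiableOn ℂ (fun w => g (x, w)) (φ '' Metric.ball (pre w0) ε \ {w0}) := by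
      rintro w ⟨⟨z, hz, rfl⟩, hw⟩
      have hz0 : z ≠ pre w0 := by
        rintro rfl
        exact hw (hpre w0)
      have hd : deriv φ z ≠ 0 := hball z hz hz0
      have hsd : HasStrictDerivAt φ (deriv φ z) z := (hφa z (Set.mem_univ z)).hasStrictDerivAt
      have h1 : HasStrictDerivAt (hsd.localInverse φ (deriv φ z) z hd) (deriv φ z)⁻¹ (φ z) :=
        hsd.to_localInverse hd
      have h2 : ∀ᶠ w in 𝓝 (φ z), φ (hsd.localInverse φ (deriv φ z) z hd w) = w :=
        HasStrictFDerivAt.eventually_right_inverse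
          (hsd.hasStrictFDerivAt_equiv hd)
      have h3 : DifferentiableAt ℂ
          (fun w => F (x, hsd.localInverse φ (deriv φ z) z hd w)) (φ z) :=
        (hGx _).comp (φ z) h1.hasDerivAt.differentiableAt
      have h4 : (fun w => g (x, w)) =ᶠ[𝓝 (φ z)]
          fun w => F (x, hsd.localInverse φ (deriv φ z) z hd w) := by
        filter_upwards [h2] with w hw
        rw [hg x (hsd.localInverse φ (deriv φ z) z hd w), hw]
      exact (h3.congr_of_eventuallyEq h4).differentiableWithinAt
    have hfin := (Complex.differentiableOn_compl_singleton_and_continuousAt_iff hsn).1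
      ⟨hdo, hgx.continuousAt⟩
    exact hfin.differentiableAt hsn

end Pool.Agent.Helper344.Ent
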