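import Pool.Agent.Helper344.Ent.Defs
import Pool.Agent.Helper344.Ent.P_desc2



namespace Pool.Agent.Helper344.Ent
open Complex Filter Topology
open scoped Real


theorem dec_s_even_int {F : ℂ × ℂ → ℂ} (hp : ∀ z t, F (z + 1, t) = F (z, t)) (n : ℤ) (z t : ℂ) :
    F (z + n, t) = F (z, t) := by
  induction n using Int.induction_on with
  | zero => simp
  | succ n ih =>
    have h := hp (z + n) t
    push_cast at ih ⊢
    rw [← add_assoc, h]
    exact ih
  | pred n ih =>
    have h := hp (z + (-(n : ℂ) - 1)) t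
    push_cast at ih ⊢
    rw [← h]
    have e : z + (-(n : ℂ) - 1) + 1 = z + -(n : ℂ) := by ring
    rw [e]
    exact ih

theorem dec_s_even_sv_eq {z z' : ℂ} (h : sv z = sv z') : ∃ n : ℤ, z = z' + n := by
  unfold sv at h
  rw [Complex.exp_eq_exp_iff_exists_int] at h
  obtain ⟨n, hn⟩ := h
  refine ⟨n, ?_⟩
  have hpi : (2 * π * I : ℂ) ≠ 0 := Complex.two_pi_I_ne_zero
  apply mul_left_cancel₀ hpi
  rw [hn]
  ring

theorem dec_s_even_sv_inv (z : ℂ) : (sv z)⁻¹ = sv (-z) := by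
  unfold sv
  rw [← Complex.exp_neg]
  congr 1
  ring

theorem dec_s_even_sv_ne (z : ℂ) : sv z ≠ 0 := Complex.exp_ne_zero _

theorem dec_s_even_surj : Function.Surjective (fun z : ℂ => sv z + (sv z)⁻¹) := by
  intro w
  obtain ⟨s, hs⟩ : ∃ s : ℂ, s * s - w * s + 1 = 0 := by
    obtain ⟨d, hd⟩ := IsAlgClosed.exists_pow_nat_eq (w ^ 2 - 4) (n := 2) (by norm_num)
    refine ⟨(w + d) / 2, ?_⟩
    linear_combination (1 / 4) * hd
  have hs0 : s ≠ 0 := by
    rintro rfl
    simp at hs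
  refine ⟨Complex.log s / (2 * π * I), ?_⟩
  have hpi : (2 * π * I : ℂ) ≠ 0 := Complex.two_pi_I_ne_zero
  have h1 : sv (Complex.log s / (2 * π * I)) = s := by
    unfold sv
    rw [mul_div_cancel₀ _ hpi, Complex.exp_log hs0]
  show sv (Complex.log s / (2 * π * I)) + (sv (Complex.log s / (2 * π * I)))⁻¹ = w
  rw [h1]
  field_simp
  linear_combination hs

theorem dec_s_even {F : ℂ × ℂ → ℂ} (hF : Differentiable ℂ F) (hp : ∀ z t, F (z + 1, t) = F (z, t))
    (he : ∀ z t, F (-z, t) = F (z, t)) :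
    ∃ f : ℂ × ℂ → ℂ, Differentiable ℂ f ∧ ∀ z t, F (z, t) = f (sv z + (sv z)⁻¹, t) := by
  have hφ : Differentiable ℂ (fun z : ℂ => sv z + (sv z)⁻¹) := by
    have h1 : Differentiable ℂ sv := by
      unfold sv
      fun_prop
    exact h1.add (h1.inv dec_s_even_sv_ne)
  have hsw : Differentiable ℂ (fun x : ℂ × ℂ => F (x.2, x.1)) := by
    fun_prop
  obtain ⟨g, hg, hgF⟩ := desc2 hφ dec_s_even_surj hsw (by
    intro x z z' h
    show F (z, x) = F (z', x)
    have h1 := dec_s_even_sv_ne z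
    have h2 := dec_s_even_sv_ne z'
    have h3 : (sv z - sv z') * (sv z * sv z' - 1) = 0 := by
      have h4 : sv z + (sv z)⁻¹ = sv z' + (sv z')⁻¹ := h
      field_simp at h4
      linear_combination h4
    rcases mul_eq_zero.1 h3 with h4 | h4
    · obtain ⟨n, rfl⟩ := dec_s_even_sv_eq (sub_eq_zero.1 h4)
      exact dec_s_even_int hp n z' x
    · have h5 : sv z = sv (-z') := by
        rw [← dec_s_even_sv_inv]
        exact eq_inv_of_mul_eq_one_left (sub_eq_zero.1 h4)
      obtain ⟨n, rfl⟩ := dec_s_even_sv_eq h5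
      rw [dec_s_even_int hp n (-z') x, he])
  refine ⟨fun y => g (y.2, y.1), by fun_prop, fun z t => ?_⟩
  exact hgF t z

end Pool.Agent.Helper344.Ent
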