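import Pool.Agent.Helper344.Ent.Defs
import Pool.Agent.Helper344.Ent.P_desc2
import Pool.Agent.Helper344.Ent.P_div2
import Pool.Agent.Helper344.Ent.P_dec_s_even



namespace Pool.Agent.Helper344.Ent
open Complex Filter Topology
open scoped Real


theorem dec_s_sv_ne (z : ℂ) : sv z ≠ 0 := Complex.exp_ne_zero _

theorem dec_s_sv_neg (z : ℂ) : sv (-z) = (sv z)⁻¹ := by
  unfold sv
  rw [← Complex.exp_neg]
  congr 1
  ring

theorem dec_s_sv_add (z : ℂ) : sv (z + 1) = sv z := by
  unfold sv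
  rw [mul_add, mul_one, Complex.exp_add, Complex.exp_two_pi_mul_I, mul_one]

theorem dec_s_sv_diff : Differentiable ℂ sv := by
  unfold sv
  fun_prop

theorem dec_s_half {z : ℂ} (h : sv z - (sv z)⁻¹ = 0) : ∃ n : ℤ, z = (n : ℂ) / 2 := by
  have h1 : sv z = (sv z)⁻¹ := sub_eq_zero.mp h
  have h2 : sv z * sv z = 1 := by
    nth_rewrite 2 [h1]
    exact mul_inv_cancel₀ (dec_s_sv_ne z)
  unfold sv at h2
  rw [← Complex.exp_add, Complex.exp_eq_one_iff] at h2
  obtain ⟨n, hn⟩ := h2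
  refine ⟨n, ?_⟩
  have hpi : (2 * (π : ℂ) * I) ≠ 0 := Complex.two_pi_I_ne_zero
  have h3 : (2 * (π : ℂ) * I) * (2 * z) = (2 * (π : ℂ) * I) * n := by
    linear_combination hn
  have h4 := mul_left_cancel₀ hpi h3
  rw [← h4]
  ring

theorem dec_s_per {F : ℂ × ℂ → ℂ} (hp : ∀ z t, F (z + 1, t) = F (z, t)) (n : ℤ) (z t : ℂ) :
    F (z + n, t) = F (z, t) := by
  have h : Function.Periodic (fun z => F (z, t)) 1 := fun z => hp z t
  have h2 := h.int_mul n z
  simpa using h2

theorem dec_s_dense : Dense {z : ℂ | sv z - (sv z)⁻¹ ≠ 0} := by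
  have h1 : (Set.range (fun n : ℤ => (n : ℂ) / 2)).Countable := Set.countable_range _
  refine (h1.dense_compl ℂ).mono ?_
  intro z hz h
  obtain ⟨n, hn⟩ := dec_s_half h
  exact hz ⟨n, hn.symm⟩

theorem dec_s_deriv (z : ℂ) (h : sv z - (sv z)⁻¹ = 0) :
    deriv (fun z => sv z - (sv z)⁻¹) z ≠ 0 := by
  have hd : HasDerivAt sv (sv z * (2 * π * I)) z := by
    unfold sv
    have h1 : HasDerivAt (fun z : ℂ => 2 * π * I * z) (2 * π * I) z := by
      simpa using (hasDerivAt_id z).const_mul (2 * (π : ℂ) * I)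
    exact h1.cexp
  have hd2 := hd.sub (hd.inv (dec_s_sv_ne z))
  have h3 : deriv (fun z => sv z - (sv z)⁻¹) z =
      sv z * (2 * π * I) - -(sv z * (2 * π * I)) / sv z ^ 2 := hd2.deriv
  rw [h3]
  have h1 : sv z = (sv z)⁻¹ := sub_eq_zero.mp h
  have h2 : sv z ^ 2 = 1 := by
    rw [pow_two]
    nth_rewrite 2 [h1]
    exact mul_inv_cancel₀ (dec_s_sv_ne z)
  rw [h2, div_one, sub_neg_eq_add, ← two_mul]
  exact mul_ne_zero two_ne_zero (mul_ne_zero (dec_s_sv_ne z) Complex.two_pi_I_ne_zero)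

theorem dec_s {F : ℂ × ℂ → ℂ} (hF : Differentiable ℂ F) (hp : ∀ z t, F (z + 1, t) = F (z, t)) :
    ∃ f g : ℂ × ℂ → ℂ, Differentiable ℂ f ∧ Differentiable ℂ g ∧
      ∀ z t, F (z, t) = f (sv z + (sv z)⁻¹, t) + g (sv z + (sv z)⁻¹, t) * sv z := by
  set φ : ℂ → ℂ := fun z => sv z - (sv z)⁻¹ with hφdef
  have hφd : Differentiable ℂ φ := by
    intro z
    exact (dec_s_sv_diff z).sub ((dec_s_sv_diff z).inv (dec_s_sv_ne z))
  have hφneg : ∀ z, φ (-z) = -φ z := by
    intro z
    show sv (-z) - (sv (-z))⁻¹ = -(sv z - (sv z)⁻¹)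
    rw [dec_s_sv_neg, inv_inv]
    ring
  have hφper : ∀ z, φ (z + 1) = φ z := by
    intro z
    show sv (z + 1) - (sv (z + 1))⁻¹ = sv z - (sv z)⁻¹
    rw [dec_s_sv_add]
  have hO : Differentiable ℂ (fun x : ℂ × ℂ => F (x.2, x.1) - F (-x.2, x.1)) := by
    refine (hF.comp ?_).sub (hF.comp ?_)
    · fun_prop
    · fun_prop
  obtain ⟨g', hg', hg'eq⟩ := div2 hφd (fun z hz => dec_s_deriv z hz) hO (by
    intro t z hz
    obtain ⟨n, hn⟩ := dec_s_half hz
    show F (z, t) - F (-z, t) = 0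
    have h1 : z = -z + (n : ℂ) := by
      rw [hn]
      ring
    have h2 := dec_s_per hp n (-z) t
    rw [← h1] at h2
    rw [h2, sub_self])
  have hO2 : ∀ z t, F (z, t) - F (-z, t) = φ z * g' (t, z) := fun z t => hg'eq t z
  have hcont : ∀ t : ℂ, Continuous (fun z : ℂ => g' (t, z)) := by
    intro t
    have h1 := hg'.continuous
    fun_prop
  have hgeven : ∀ z t, g' (t, -z) = g' (t, z) := by
    intro z t
    have h1 : (fun z : ℂ => g' (t, -z)) = fun z : ℂ => g' (t, z) := by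
      refine Continuous.ext_on dec_s_dense ((hcont t).comp continuous_neg) (hcont t) ?_
      intro z hz
      have hz' : φ z ≠ 0 := hz
      apply mul_left_cancel₀ hz'
      show φ z * g' (t, -z) = φ z * g' (t, z)
      have h2 := hO2 (-z) t
      rw [neg_neg, hφneg] at h2
      have h3 := hO2 z t
      linear_combination h2 + h3
    exact congrFun h1 z
  have hgper : ∀ z t, g' (t, z + 1) = g' (t, z) := by
    intro z t
    have h1 : (fun z : ℂ => g' (t, z + 1)) = fun z : ℂ => g' (t, z) := by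
      refine Continuous.ext_on dec_s_dense ((hcont t).comp (continuous_id.add continuous_const))
        (hcont t) ?_
      intro z hz
      have hz' : φ z ≠ 0 := hz
      apply mul_left_cancel₀ hz'
      show φ z * g' (t, z + 1) = φ z * g' (t, z)
      have h2 := hO2 (z + 1) t
      rw [hφper, hp z t] at h2
      have h3 := hO2 z t
      have h4 : F (-(z + 1), t) = F (-z, t) := by
        have h5 := hp (-(z + 1)) t
        rw [← h5]
        congr 2
        ring
      rw [h4] at h2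
      rw [← h2, h3]
    exact congrFun h1 z
  have hh : Differentiable ℂ (fun x : ℂ × ℂ => g' (x.2, x.1)) := by
    refine hg'.comp ?_
    fun_prop
  obtain ⟨g, hg, hgeq⟩ := dec_s_even (F := fun x : ℂ × ℂ => g' (x.2, x.1)) hh
    (fun z t => hgper z t) (fun z t => hgeven z t)
  have hgeq' : ∀ z t, g' (t, z) = g (sv z + (sv z)⁻¹, t) := fun z t => hgeq z t
  have hF1 : Differentiable ℂ (fun x : ℂ × ℂ => F x - g' (x.2, x.1) * sv x.1) := by
    refine hF.sub (hh.mul ?_)
    exact dec_s_sv_diff.comp differentiable_fst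
  obtain ⟨f, hf, hfeq⟩ := dec_s_even (F := fun x : ℂ × ℂ => F x - g' (x.2, x.1) * sv x.1) hF1
    (by
      intro z t
      show F (z + 1, t) - g' (t, z + 1) * sv (z + 1) = F (z, t) - g' (t, z) * sv z
      rw [hp, hgper, dec_s_sv_add])
    (by
      intro z t
      show F (-z, t) - g' (t, -z) * sv (-z) = F (z, t) - g' (t, z) * sv z
      rw [hgeven, dec_s_sv_neg]
      have h1 : F (z, t) - F (-z, t) = (sv z - (sv z)⁻¹) * g' (t, z) := hO2 z t
      linear_combination -h1)
  refine ⟨f, g, hf, hg, fun z t => ?_⟩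
  have h1 : F (z, t) - g' (t, z) * sv z = f (sv z + (sv z)⁻¹, t) := hfeq z t
  rw [← h1, ← hgeq']
  ring

end Pool.Agent.Helper344.Ent
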