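import Pool.Agent.Helper344.Ent.Defs
import Pool.Agent.Helper344.Ent.P_desc2
import Pool.Agent.Helper344.Ent.P_div2



namespace Pool.Agent.Helper344.Ent
open Complex Filter Topology
open scoped Real


theorem even_desc {E : ℂ × ℂ → ℂ} (hE : Differentiable ℂ E) (h : ∀ x z, E (x, -z) = E (x, z)) :
    ∃ g : ℂ × ℂ → ℂ, Differentiable ℂ g ∧ ∀ x z, E (x, z) = g (x, z ^ 2) := by
  refine desc2 (φ := fun z => z ^ 2) (by fun_prop) ?_ hE ?_
  · intro w
    obtain ⟨z, hz⟩ := IsSquare.exists_sq w (IsAlgClosed.exists_eq_mul_self w)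
    exact ⟨z, hz.symm⟩
  · intro x z z' hz
    rcases sq_eq_sq_iff_eq_or_eq_neg.1 hz with h1 | h1
    · rw [h1]
    · rw [h1, h]

theorem dec_t {F : ℂ × ℂ → ℂ} (hF : Differentiable ℂ F) :
    ∃ f g : ℂ × ℂ → ℂ, Differentiable ℂ f ∧ Differentiable ℂ g ∧
      ∀ z t, F (z, t) = f (z, t ^ 2) + g (z, t ^ 2) * t := by
  have hF' : Differentiable ℂ (fun x : ℂ × ℂ => F (x.1, -x.2)) :=
    hF.comp (differentiable_fst.prodMk differentiable_snd.neg)
  have hA1 : Differentiable ℂ (fun x : ℂ × ℂ => F x + F (x.1, -x.2)) := hF.add hF'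
  have hA2 : Differentiable ℂ (fun x : ℂ × ℂ => F x - F (x.1, -x.2)) := hF.sub hF'
  have hE : Differentiable ℂ (fun x : ℂ × ℂ => (F x + F (x.1, -x.2)) / 2) := by
    simpa only [div_eq_mul_inv] using hA1.mul_const (2 : ℂ)⁻¹
  have hO : Differentiable ℂ (fun x : ℂ × ℂ => (F x - F (x.1, -x.2)) / 2) := by
    simpa only [div_eq_mul_inv] using hA2.mul_const (2 : ℂ)⁻¹
  obtain ⟨f, hf, hf1⟩ := even_desc hE (by
    intro x z
    show (F (x, -z) + F (x, - -z)) / 2 = (F (x, z) + F (x, -z)) / 2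
    rw [neg_neg, add_comm])
  obtain ⟨k, hk, hk1⟩ := div2 (φ := fun z => z) differentiable_id (by
    intro z _
    have : deriv (fun z : ℂ => z) z = 1 := deriv_id z
    rw [this]
    exact one_ne_zero) hO (by
    intro x z hz
    have hz' : z = 0 := hz
    show (F (x, z) - F (x, -z)) / 2 = 0
    rw [hz', neg_zero, sub_self, zero_div])
  have hk2 : ∀ x z, k (x, -z) = k (x, z) := by
    intro x z
    by_cases hz : z = 0
    · rw [hz, neg_zero]
    · have h1 : (F (x, z) - F (x, -z)) / 2 = z * k (x, z) := hk1 x z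
      have h2 : (F (x, -z) - F (x, - -z)) / 2 = -z * k (x, -z) := hk1 x (-z)
      rw [neg_neg] at h2
      have h3 : z * k (x, -z) = z * k (x, z) := by linear_combination h2 + h1
      exact mul_left_cancel₀ hz h3
  obtain ⟨g, hg, hg1⟩ := even_desc hk hk2
  refine ⟨f, g, hf, hg, fun z t => ?_⟩
  have h1 : (F (z, t) + F (z, -t)) / 2 = f (z, t ^ 2) := hf1 z t
  have h2 : (F (z, t) - F (z, -t)) / 2 = t * k (z, t) := hk1 z t
  have h3 : k (z, t) = g (z, t ^ 2) := hg1 z t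
  rw [← h1, ← h3]
  linear_combination h2

end Pool.Agent.Helper344.Ent
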