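import Pool.Agent.Helper344.Ent.Defs



namespace Pool.Agent.Helper344.Ent
open Complex Filter Topology
open scoped Real


theorem dec_t_per {F f g : ℂ × ℂ → ℂ} (hf : Continuous f) (hg : Continuous g)
    (h : ∀ z t, F (z, t) = f (z, t ^ 2) + g (z, t ^ 2) * t)
    (hp : ∀ z t, F (z + 1, t) = F (z, t)) :
    (∀ z u, f (z + 1, u) = f (z, u)) ∧ (∀ z u, g (z + 1, u) = g (z, u)) := by
  have hsq : ∀ u : ℂ, ∃ t : ℂ, t ^ 2 = u := fun u =>
    IsAlgClosed.exists_pow_nat_eq u (by norm_num : 0 < 2)
  have h2 : ∀ z t, F (z, -t) = f (z, t ^ 2) - g (z, t ^ 2) * t := by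
    intro z t
    rw [h z (-t), neg_sq]
    ring
  constructor
  · intro z u
    obtain ⟨t, rfl⟩ := hsq u
    have a1 := h z t
    have a2 := h2 z t
    have a3 := h (z + 1) t
    have a4 := h2 (z + 1) t
    rw [hp] at a3 a4
    linear_combination (1 / 2) * a1 + (1 / 2) * a2 - (1 / 2) * a3 - (1 / 2) * a4
  · intro z
    have hne : ∀ u : ℂ, u ≠ 0 → g (z + 1, u) = g (z, u) := by
      intro u hu
      obtain ⟨t, rfl⟩ := hsq u
      have ht : t ≠ 0 := by
        rintro rfl
        apply hu
        ring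
      have a1 := h z t
      have a2 := h2 z t
      have a3 := h (z + 1) t
      have a4 := h2 (z + 1) t
      rw [hp] at a3 a4
      apply mul_right_cancel₀ ht
      linear_combination (1 / 2) * a1 - (1 / 2) * a2 - (1 / 2) * a3 + (1 / 2) * a4
    have c1 : Continuous (fun u : ℂ => g (z + 1, u)) := hg.comp (by fun_prop)
    have c2 : Continuous (fun u : ℂ => g (z, u)) := hg.comp (by fun_prop)
    have := Continuous.ext_on (dense_compl_singleton (0 : ℂ)) c1 c2 (fun u hu => hne u hu)
    intro u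
    exact congrFun this u

end Pool.Agent.Helper344.Ent
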