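import Pool.Agent.Helper344.Ent.Defs
import Pool.Agent.Helper344.Ent.P_dec_t
import Pool.Agent.Helper344.Ent.P_dec_t_per
import Pool.Agent.Helper344.Ent.P_dec_s



namespace Pool.Agent.Helper344.Ent
open Complex Filter Topology
open scoped Real


theorem decomp {F : ℂ × ℂ → ℂ} (hF : Hol F) :
    ∃ f : Fin 4 → ℂ × ℂ → ℂ, (∀ i, Differentiable ℂ (f i)) ∧ ∀ x, EV f x = F x := by
  obtain ⟨hd, hp⟩ := hF
  obtain ⟨f, g, hf, hg, h⟩ := dec_t hd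
  obtain ⟨hpf, hpg⟩ := dec_t_per hf.continuous hg.continuous h hp
  obtain ⟨f0, f1, hf0, hf1, h1⟩ := dec_s hf hpf
  obtain ⟨f2, f3, hf2, hf3, h2⟩ := dec_s hg hpg
  refine ⟨![f0, f1, f2, f3], ?_, ?_⟩
  · intro i
    fin_cases i
    · exact hf0
    · exact hf1
    · exact hf2
    · exact hf3
  · rintro ⟨z, t⟩
    rw [h, h1, h2]
    show f0 (sv z + (sv z)⁻¹, t ^ 2) + f1 (sv z + (sv z)⁻¹, t ^ 2) * sv z +
      f2 (sv z + (sv z)⁻¹, t ^ 2) * t + f3 (sv z + (sv z)⁻¹, t ^ 2) * (sv z * t) = _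
    ring

end Pool.Agent.Helper344.Ent
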