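import Pool.Agent.Helper344.Ent.Defs



namespace Pool.Agent.Helper344.Ent
open Complex Filter Topology
open scoped Real


theorem evF_congr (w w' : ℕ → ℂ × ℂ → ℂ) (k k' : ℕ) (hk : w' k' = w k)
    (h : ∀ j, j = 0 ∨ j = 1 ∨ (3 ≤ j ∧ j < 46) → w' j = w j)
    (hs : SatF w (tMulG k)) : SatF w' (tMulG k') := by
  have h0 : w' 0 = w 0 := h 0 (by norm_num)
  have h1 : w' 1 = w 1 := h 1 (by norm_num)
  have hj : ∀ j, 3 ≤ j → j < 46 → w' j = w j := fun j h3 h4 => h j (Or.inr (Or.inr ⟨h3, h4⟩))
  simp only [SatF, tMulG, tPt, tGl, tTw, tEq, s4, two, three, List.forall_mem_append,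
    List.forall_mem_cons, List.not_mem_nil, IsEmpty.forall_iff, implies_true, evF,
    and_true, Nat.reduceAdd] at hs ⊢
  simp only [hk, h0, h1, hj 3 (by norm_num) (by norm_num), hj 4 (by norm_num) (by norm_num),
    hj 5 (by norm_num) (by norm_num), hj 6 (by norm_num) (by norm_num),
    hj 7 (by norm_num) (by norm_num), hj 8 (by norm_num) (by norm_num),
    hj 9 (by norm_num) (by norm_num), hj 10 (by norm_num) (by norm_num),
    hj 11 (by norm_num) (by norm_num), hj 12 (by norm_num) (by norm_num),
    hj 13 (by norm_num) (by norm_num), hj 14 (by norm_num) (by norm_num),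
    hj 15 (by norm_num) (by norm_num), hj 16 (by norm_num) (by norm_num),
    hj 17 (by norm_num) (by norm_num), hj 18 (by norm_num) (by norm_num),
    hj 19 (by norm_num) (by norm_num), hj 20 (by norm_num) (by norm_num),
    hj 21 (by norm_num) (by norm_num), hj 22 (by norm_num) (by norm_num),
    hj 23 (by norm_num) (by norm_num), hj 24 (by norm_num) (by norm_num),
    hj 25 (by norm_num) (by norm_num), hj 26 (by norm_num) (by norm_num),
    hj 27 (by norm_num) (by norm_num), hj 28 (by norm_num) (by norm_num),
    hj 29 (by norm_num) (by norm_num), hj 30 (by norm_num) (by norm_num),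
    hj 31 (by norm_num) (by norm_num), hj 32 (by norm_num) (by norm_num),
    hj 33 (by norm_num) (by norm_num), hj 34 (by norm_num) (by norm_num),
    hj 35 (by norm_num) (by norm_num), hj 36 (by norm_num) (by norm_num),
    hj 37 (by norm_num) (by norm_num), hj 38 (by norm_num) (by norm_num),
    hj 39 (by norm_num) (by norm_num), hj 40 (by norm_num) (by norm_num),
    hj 41 (by norm_num) (by norm_num), hj 42 (by norm_num) (by norm_num),
    hj 43 (by norm_num) (by norm_num), hj 44 (by norm_num) (by norm_num),
    hj 45 (by norm_num) (by norm_num)]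
  exact hs

end Pool.Agent.Helper344.Ent
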