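import Pool.Agent.Helper344.Ent.Defs
import Pool.Agent.Helper344.Ent.P_compl
import Pool.Agent.Helper344.Ent.P_evF_congr



namespace Pool.Agent.Helper344.Ent
open Complex Filter Topology
open scoped Real


theorem fl_hol_sp (k : ℤ) : Hol (sp k) := by
  constructor
  · unfold sp
    have : Differentiable ℂ (fun x : ℂ × ℂ => 8 * π * I * (k : ℂ) * x.1) :=
      (differentiable_const _).mul differentiable_fst
    exact this.cexp
  · intro z t
    unfold sp
    have e : 8 * (π : ℂ) * I * k * (z + 1) = 8 * π * I * k * z + ((4 * k : ℤ) : ℂ) * (2 * π * I) := by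
      push_cast
      ring
    simp only
    rw [e, Complex.exp_add, Complex.exp_int_mul_two_pi_mul_I, mul_one]

theorem fl_sp_add (a b : ℤ) (x : ℂ × ℂ) : sp (a + b) x = sp a x * sp b x := by
  unfold sp
  rw [← Complex.exp_add]
  congr 1
  push_cast
  ring

theorem fl_sp_one (x : ℂ × ℂ) : sp 1 x = (sv x.1 * sv x.1) * (sv x.1 * sv x.1) := by
  unfold sp sv
  rw [← Complex.exp_add, ← Complex.exp_add]
  congr 1
  push_cast
  ring

theorem fwd_local (x : ℕ → ℤ) (c : ℕ × ℕ × ℕ × ℕ) (h : sat x c) :
    ∃ w : ℕ → ℂ × ℂ → ℂ, (∀ j, Hol (w j)) ∧ w 0 = sp (x c.2.1) ∧ w 1 = sp (x c.2.2.1) ∧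
      w 2 = sp (x c.2.2.2) ∧ SatF w (tT c.1) := by
  unfold sat at h
  by_cases h0 : c.1 = 0
  · rw [if_pos h0] at h
    refine ⟨fun n => if n = 0 then sp (x c.2.1) else if n = 1 then sp (x c.2.2.1) else sp (x c.2.2.2),
      ?_, by simp, by simp, by simp, ?_⟩
    · intro j
      dsimp only
      split_ifs <;> exact fl_hol_sp _
    · unfold tT
      rw [if_pos h0]
      intro e he y
      unfold tOne at he
      rw [List.mem_singleton] at he
      subst he
      simp only [evF, s4, if_true]
      rw [h, fl_sp_one, sub_self]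
  · rw [if_neg h0] at h
    by_cases h1 : c.1 = 1
    · rw [if_pos h1] at h
      obtain ⟨w, hw, w0, w1, w2, hs⟩ := compl (x c.2.1) (x c.2.2.1)
      refine ⟨fun n => if n = 2 then sp (x c.2.2.2) else if n = 46 then w 2 else w n,
        ?_, by simpa using w0, by simpa using w1, by simp, ?_⟩
      · intro j
        dsimp only
        split_ifs
        · exact fl_hol_sp _
        · exact hw 2
        · exact hw j
      · unfold tT
        rw [if_neg h0, if_pos h1]
        unfold tAdd
        intro e he
        rw [List.mem_cons] at he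
        rcases he with he | he
        · subst he
          intro y
          simp only [evF, if_true]
          rw [if_neg (by norm_num), if_neg (by norm_num), if_neg (by norm_num), if_neg (by norm_num),
            w0, w1, ← h, fl_sp_add, sub_self]
        · refine evF_congr w _ 2 46 (by simp) ?_ hs e he
          intro j hj
          have a1 : j ≠ 2 := by omega
          have a2 : j ≠ 46 := by omega
          simp only [if_neg a1, if_neg a2]
    · rw [if_neg h1] at h
      obtain ⟨w, hw, w0, w1, w2, hs⟩ := compl (x c.2.1) (x c.2.2.1)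
      refine ⟨w, hw, w0, w1, by rw [w2, h], ?_⟩
      unfold tT
      rw [if_neg h0, if_neg h1]
      exact hs

end Pool.Agent.Helper344.Ent
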