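import Pool.Agent.Helper344.Ent.Defs



namespace Pool.Agent.Helper344.Ent
open Complex Filter Topology
open scoped Real


theorem solv_bwd {n : ℕ} (hn : 2 ≤ n) (T : List Pol)
    (hT : ∀ p ∈ T, ∀ mo ∈ p, ∀ j ∈ mo.2, j < 2 ∨ n ≤ j)
    (ρ : ℕ → ℂ × ℂ → ℂ) (hρ : ∀ j, Differentiable ℂ (ρ j)) (h0 : ∀ y, ρ 0 y = y.1)
    (h1 : ∀ y, ρ 1 y = y.2) (h : ∀ p ∈ T, ∀ y, evalP (fun j => ρ j y) p = 0) : Solv n T := by
  classical
  refine ⟨fun j z => if hj : j < n then z ⟨j, hj⟩ else
    ρ j (z ⟨0, by omega⟩, z ⟨1, by omega⟩), ?_, ?_, ?_⟩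
  · intro j
    by_cases hj : j < n
    · simp only [hj, dite_true]
      exact differentiable_apply _
    · simp only [hj, dite_false]
      exact (hρ j).comp ((differentiable_apply _).prodMk (differentiable_apply _))
  · intro i z
    simp only [i.2, dite_true]
  · intro p hp z
    rw [← h p hp (z ⟨0, by omega⟩, z ⟨1, by omega⟩)]
    unfold evalP
    congr 1
    apply List.map_congr_left
    intro mo hmo
    congr 2
    apply List.map_congr_left
    intro j hj
    rcases hT p hp mo hmo j hj with h2 | h2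
    · have hjn : j < n := by omega
      simp only [hjn, dite_true]
      interval_cases j
      · rw [h0]
      · rw [h1]
    · have hjn : ¬ j < n := by omega
      simp only [hjn, dite_false]

end Pool.Agent.Helper344.Ent
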