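import Pool.Agent.Helper344.Ent.Defs



namespace Pool.Agent.Helper344.Ent
open Complex Filter Topology
open scoped Real


theorem tr_vars (n : ℕ) (C : List (ℕ × ℕ × ℕ × ℕ)) :
    ∀ p ∈ tr n C, ∀ mo ∈ p, ∀ j ∈ mo.2, j < 2 ∨ n ≤ j := by
  intro p hp mo hmo j hj
  simp only [tr, List.mem_flatMap, List.mem_map] at hp
  obtain ⟨c, _, q, _, rfl⟩ := hp
  simp only [List.mem_map] at hmo
  obtain ⟨m, _, rfl⟩ := hmo
  simp only [List.mem_map] at hj
  obtain ⟨k, _, rfl⟩ := hj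
  unfold ren
  split_ifs with h1 h2 h3 h4
  · exact Or.inl h1
  all_goals right; omega

end Pool.Agent.Helper344.Ent
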