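import Pool.Agent.Helper344.Ent.Defs
import Pool.Agent.Helper344.Ent.P_decomp
import Pool.Agent.Helper344.Ent.P_evalP_ren
import Pool.Agent.Helper344.Ent.P_codes_iff
import Pool.Agent.Helper344.Ent.P_solv_bwd
import Pool.Agent.Helper344.Ent.P_tr_vars
import Pool.Agent.Helper344.Ent.P_fwd_local



namespace Pool.Agent.Helper344.Ent
open Complex Filter Topology
open scoped Real


theorem forward_sp_hol (k : ℤ) : Hol (sp k) := by
  refine ⟨?_, ?_⟩
  · unfold sp
    fun_prop
  · intro z t
    unfold sp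
    have h1 : (8 * π * I * k * (z + 1) : ℂ) = 8 * π * I * k * z + 8 * π * I * k := by ring
    have h2 : cexp (8 * π * I * k) = 1 := by
      rw [Complex.exp_eq_one_iff]
      exact ⟨4 * k, by push_cast; ring⟩
    show cexp (8 * π * I * k * (z + 1)) = cexp (8 * π * I * k * z)
    rw [h1, Complex.exp_add, h2, mul_one]

theorem forward_zero_hol : Hol (fun _ : ℂ × ℂ => (0 : ℂ)) :=
  ⟨differentiable_const _, fun _ _ => rfl⟩

/-- the global assignment -/
noncomputable def forward_rho (n : ℕ) (x : ℕ → ℤ) (d : ℤ → Fin 4 → ℂ × ℂ → ℂ)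
    (D : (ℕ × ℕ × ℕ × ℕ) → ℕ → Fin 4 → ℂ × ℂ → ℂ) (i : ℕ) : ℂ × ℂ → ℂ :=
  if i = 0 then Prod.fst else if i = 1 then Prod.snd else if i < n then fun _ => 0 else
    if (i - n) % 2 = 0 then d (x ((i - n) / 2 / 4)) ⟨(i - n) / 2 % 4, Nat.mod_lt _ (by norm_num)⟩
    else D ((Nat.unpair (Nat.unpair ((i - n) / 2)).1).1,
        (Nat.unpair (Nat.unpair (Nat.unpair ((i - n) / 2)).1).2).1,
        (Nat.unpair (Nat.unpair (Nat.unpair (Nat.unpair ((i - n) / 2)).1).2).2).1,
        (Nat.unpair (Nat.unpair (Nat.unpair (Nat.unpair ((i - n) / 2)).1).2).2).2)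
        (((Nat.unpair ((i - n) / 2)).2 - 2) / 4)
        ⟨((Nat.unpair ((i - n) / 2)).2 - 2) % 4, Nat.mod_lt _ (by norm_num)⟩

theorem forward_rho_even {n : ℕ} (hn : 2 ≤ n) (x : ℕ → ℤ) (d : ℤ → Fin 4 → ℂ × ℂ → ℂ)
    (D : (ℕ × ℕ × ℕ × ℕ) → ℕ → Fin 4 → ℂ × ℂ → ℂ) (a : ℕ) (r : Fin 4) :
    forward_rho n x d D (n + 2 * (4 * a + (r : ℕ))) = d (x a) r := by
  have hr := r.2
  unfold forward_rho
  rw [if_neg (by omega), if_neg (by omega), if_neg (by omega), if_pos (by omega)]
  have h1 : (n + 2 * (4 * a + (r : ℕ)) - n) / 2 / 4 = a := by omega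
  have h2 : (⟨(n + 2 * (4 * a + (r : ℕ)) - n) / 2 % 4, Nat.mod_lt _ (by norm_num)⟩ : Fin 4) = r := by
    apply Fin.ext
    show (n + 2 * (4 * a + (r : ℕ)) - n) / 2 % 4 = r
    omega
  rw [h1, h2]

theorem forward_rho_odd {n : ℕ} (hn : 2 ≤ n) (x : ℕ → ℤ) (d : ℤ → Fin 4 → ℂ × ℂ → ℂ)
    (D : (ℕ × ℕ × ℕ × ℕ) → ℕ → Fin 4 → ℂ × ℂ → ℂ) (c : ℕ × ℕ × ℕ × ℕ) (j : ℕ) (r : Fin 4) :
    forward_rho n x d D (n + 2 * Nat.pair (Nat.pair c.1 (Nat.pair c.2.1 (Nat.pair c.2.2.1 c.2.2.2)))
      (2 + 4 * j + (r : ℕ)) + 1) = D c j r := by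
  have hr := r.2
  obtain ⟨c1, c2, c3, c4⟩ := c
  show forward_rho n x d D (n + 2 * Nat.pair (Nat.pair c1 (Nat.pair c2 (Nat.pair c3 c4)))
      (2 + 4 * j + (r : ℕ)) + 1) = D (c1, c2, c3, c4) j r
  unfold forward_rho
  rw [if_neg (by omega), if_neg (by omega), if_neg (by omega), if_neg (by omega)]
  have h1 : (n + 2 * Nat.pair (Nat.pair c1 (Nat.pair c2 (Nat.pair c3 c4)))
      (2 + 4 * j + (r : ℕ)) + 1 - n) / 2 = Nat.pair (Nat.pair c1 (Nat.pair c2 (Nat.pair c3 c4)))
      (2 + 4 * j + (r : ℕ)) := by omega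
  have h2 : ∀ m : ℕ, m = 2 + 4 * j + (r : ℕ) → ∀ hm : (m - 2) % 4 < 4,
      (⟨(m - 2) % 4, hm⟩ : Fin 4) = r := by
    intro m hm hm'
    apply Fin.ext
    show (m - 2) % 4 = r
    omega
  have h3 : (2 + 4 * j + (r : ℕ) - 2) / 4 = j := by omega
  simp only [h1, Nat.unpair_pair, h3]
  rw [h2 _ rfl]

theorem forward_rho_diff (n : ℕ) (x : ℕ → ℤ) (d : ℤ → Fin 4 → ℂ × ℂ → ℂ)
    (D : (ℕ × ℕ × ℕ × ℕ) → ℕ → Fin 4 → ℂ × ℂ → ℂ) (hd : ∀ k i, Differentiable ℂ (d k i))
    (hD : ∀ c j i, Differentiable ℂ (D c j i)) (i : ℕ) :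
    Differentiable ℂ (forward_rho n x d D i) := by
  unfold forward_rho
  split_ifs
  · exact differentiable_fst
  · exact differentiable_snd
  · exact differentiable_const _
  · exact hd _ _
  · exact hD _ _ _

theorem forward {n : ℕ} (hn : 2 ≤ n) (C : List (ℕ × ℕ × ℕ × ℕ)) (h : ZSolv C) :
    Solv n (tr n C) := by
  classical
  obtain ⟨x, hx⟩ := h
  have hdex : ∀ k : ℤ, ∃ f : Fin 4 → ℂ × ℂ → ℂ, (∀ i, Differentiable ℂ (f i)) ∧
      ∀ y, EV f y = sp k y := fun k => decomp (forward_sp_hol k)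
  choose d hd hdE using hdex
  have hWex : ∀ c : ℕ × ℕ × ℕ × ℕ, ∃ w : ℕ → ℂ × ℂ → ℂ, (∀ j, Hol (w j)) ∧
      (sat x c → (w 0 = sp (x c.2.1) ∧ w 1 = sp (x c.2.2.1) ∧
      w 2 = sp (x c.2.2.2) ∧ SatF w (tT c.1))) := by
    intro c
    by_cases hc : sat x c
    · obtain ⟨w, hw, hr⟩ := fwd_local x c hc
      exact ⟨w, hw, fun _ => hr⟩
    · exact ⟨fun _ _ => 0, fun _ => forward_zero_hol, fun h => absurd h hc⟩
  choose W hW hWs using hWex
  have hDex : ∀ (c : ℕ × ℕ × ℕ × ℕ) (j : ℕ), ∃ f : Fin 4 → ℂ × ℂ → ℂ,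
      (∀ i, Differentiable ℂ (f i)) ∧ ∀ y, EV f y = W c j y := fun c j => decomp (hW c j)
  choose D hD hDE using hDex
  apply solv_bwd hn (tr n C) (tr_vars n C) (forward_rho n x d D)
    (forward_rho_diff n x d D hd hD)
  · intro y
    unfold forward_rho
    rw [if_pos rfl]
  · intro y
    unfold forward_rho
    rw [if_neg (by norm_num), if_pos rfl]
  · intro p hp y
    unfold tr at hp
    rw [List.mem_flatMap] at hp
    obtain ⟨c, hcC, hp⟩ := hp
    rw [List.mem_map] at hp
    obtain ⟨p', hp', rfl⟩ := hp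
    rw [evalP_ren]
    have hs := hx c hcC
    obtain ⟨hw0, hw1, hw2, hwS⟩ := hWs c hs
    have key : (fun j => EV fun r : Fin 4 => (fun m => forward_rho n x d D (ren n c m))
        (2 + 4 * j + (r : ℕ))) = W c := by
      funext j
      rcases j with _ | _ | _ | j
      · rw [hw0]
        funext y
        rw [← hdE]
        have : (fun r : Fin 4 => (fun m => forward_rho n x d D (ren n c m))
            (2 + 4 * 0 + (r : ℕ))) = d (x c.2.1) := by
          funext r
          have hr := r.2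
          show forward_rho n x d D (ren n c (2 + 4 * 0 + (r : ℕ))) = _
          have h1 : ren n c (2 + 4 * 0 + (r : ℕ)) = n + 2 * (4 * c.2.1 + (r : ℕ)) := by
            unfold ren
            rw [if_neg (by omega), if_pos (by omega)]
            congr 3
            omega
          rw [h1, forward_rho_even hn]
        rw [this]
      · rw [hw1]
        funext y
        rw [← hdE]
        have : (fun r : Fin 4 => (fun m => forward_rho n x d D (ren n c m))
            (2 + 4 * (0 + 1) + (r : ℕ))) = d (x c.2.2.1) := by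
          funext r
          have hr := r.2
          show forward_rho n x d D (ren n c (2 + 4 * (0 + 1) + (r : ℕ))) = _
          have h1 : ren n c (2 + 4 * (0 + 1) + (r : ℕ)) = n + 2 * (4 * c.2.2.1 + (r : ℕ)) := by
            unfold ren
            rw [if_neg (by omega), if_neg (by omega), if_pos (by omega)]
            congr 3
            omega
          rw [h1, forward_rho_even hn]
        rw [this]
      · rw [hw2]
        funext y
        rw [← hdE]
        have : (fun r : Fin 4 => (fun m => forward_rho n x d D (ren n c m))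
            (2 + 4 * (0 + 1 + 1) + (r : ℕ))) = d (x c.2.2.2) := by
          funext r
          have hr := r.2
          show forward_rho n x d D (ren n c (2 + 4 * (0 + 1 + 1) + (r : ℕ))) = _
          have h1 : ren n c (2 + 4 * (0 + 1 + 1) + (r : ℕ)) = n + 2 * (4 * c.2.2.2 + (r : ℕ)) := by
            unfold ren
            rw [if_neg (by omega), if_neg (by omega), if_neg (by omega), if_pos (by omega)]
            congr 3
            omega
          rw [h1, forward_rho_even hn]
        rw [this]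
      · funext y
        rw [← hDE]
        have : (fun r : Fin 4 => (fun m => forward_rho n x d D (ren n c m))
            (2 + 4 * (j + 1 + 1 + 1) + (r : ℕ))) = D c (j + 1 + 1 + 1) := by
          funext r
          have hr := r.2
          show forward_rho n x d D (ren n c (2 + 4 * (j + 1 + 1 + 1) + (r : ℕ))) = _
          have h1 : ren n c (2 + 4 * (j + 1 + 1 + 1) + (r : ℕ)) =
              n + 2 * Nat.pair (Nat.pair c.1 (Nat.pair c.2.1 (Nat.pair c.2.2.1 c.2.2.2)))
                (2 + 4 * (j + 1 + 1 + 1) + (r : ℕ)) + 1 := by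
            unfold ren
            rw [if_neg (by omega), if_neg (by omega), if_neg (by omega), if_neg (by omega)]
          rw [h1, forward_rho_odd hn]
        rw [this]
    have hall := (codes_iff (fun m => forward_rho n x d D (ren n c m)) (by
        intro y
        show forward_rho n x d D (ren n c 0) y = y.1
        have : ren n c 0 = 0 := by unfold ren; rw [if_pos (by norm_num)]
        rw [this]
        unfold forward_rho
        rw [if_pos rfl]) (by
        intro y
        show forward_rho n x d D (ren n c 1) y = y.2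
        have : ren n c 1 = 1 := by unfold ren; rw [if_pos (by norm_num)]
        rw [this]
        unfold forward_rho
        rw [if_neg (by norm_num), if_pos rfl])
        (fun j => (forward_rho_diff n x d D hd hD _).continuous) (tT c.1)).mpr (by
          rw [key]; exact hwS)
    exact hall p' hp' y

end Pool.Agent.Helper344.Ent
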