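import Pool.Agent.Helper344.Ent.Defs
import Pool.Agent.Helper344.Ent.P_G_diff
import Pool.Agent.Helper344.Ent.P_G_add
import Pool.Agent.Helper344.Ent.P_G_inj
import Pool.Agent.Helper344.Ent.P_lat_const



namespace Pool.Agent.Helper344.Ent
open Complex Filter Topology
open scoped Real


theorem glue (φ F : ℝ × ℝ → ℂ) (hφ : Continuous φ) (hF : ∀ x, F x ≠ 0) (a : ℝ) (u : ℝ → ℂ)
    (hu : ∀ z, u z ≠ 0)
    (h : ∀ z, F (z, a) • G (φ (z, a)) = u z • F (z, -a) • G (φ (z, -a))) :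
    ∃ m n : ℤ, ∀ z, φ (z, a) = φ (z, -a) + 2 * m + 2 * n * I ∧
      F (z, a) * jj n (φ (z, -a)) = u z * F (z, -a) := by
  have h1 : ∀ z : ℝ, ∃ m n : ℤ, φ (z, a) - φ (z, -a) = 2 * m + 2 * n * I := by
    intro z
    have hF1 := hF (z, a)
    have hF2 := hF (z, -a)
    have hG : G (φ (z, a)) = ((F (z, a))⁻¹ * (u z * F (z, -a))) • G (φ (z, -a)) := by
      have h2 := h z
      rw [smul_smul] at h2
      rw [mul_smul, ← h2, smul_smul, inv_mul_cancel₀ hF1, one_smul]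
    obtain ⟨m, n, hmn⟩ := G_inj (φ (z, -a)) (φ (z, a)) _
      (mul_ne_zero (inv_ne_zero hF1) (mul_ne_zero (hu z) hF2)) hG
    exact ⟨m, n, by rw [hmn]; ring⟩
  obtain ⟨m, n, hmn⟩ := lat_const (fun z : ℝ => φ (z, a) - φ (z, -a))
    ((hφ.comp (by fun_prop)).sub (hφ.comp (by fun_prop))) h1
  refine ⟨m, n, fun z => ?_⟩
  have h3 : φ (z, a) = φ (z, -a) + 2 * m + 2 * n * I := by
    have := hmn z
    linear_combination this
  refine ⟨h3, ?_⟩
  have h4 := h z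
  rw [h3, G_add, smul_smul, smul_smul] at h4
  exact smul_left_injective ℂ (G_diff.2.2 (φ (z, -a))) h4

end Pool.Agent.Helper344.Ent
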