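import Pool.Agent.Helper344.Ent.Defs



namespace Pool.Agent.Helper344.Ent
open Complex Filter Topology
open scoped Real

theorem ren_prim_aux (n : ℕ) : Primrec (fun x : (ℕ × ℕ × ℕ × ℕ) × ℕ => ren n x.1 x.2) := by
  have hm : Primrec (fun x : (ℕ × ℕ × ℕ × ℕ) × ℕ => x.2) := Primrec.snd
  have h0 : Primrec (fun x : (ℕ × ℕ × ℕ × ℕ) × ℕ => x.1.1) := Primrec.fst.comp Primrec.fst
  have h0' : Primrec (fun x : (ℕ × ℕ × ℕ × ℕ) × ℕ => x.1.2) := Primrec.snd.comp Primrec.fst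
  have h1 : Primrec (fun x : (ℕ × ℕ × ℕ × ℕ) × ℕ => x.1.2.1) := Primrec.fst.comp h0'
  have h1' : Primrec (fun x : (ℕ × ℕ × ℕ × ℕ) × ℕ => x.1.2.2) := Primrec.snd.comp h0'
  have h2 : Primrec (fun x : (ℕ × ℕ × ℕ × ℕ) × ℕ => x.1.2.2.1) := Primrec.fst.comp h1'
  have h3 : Primrec (fun x : (ℕ × ℕ × ℕ × ℕ) × ℕ => x.1.2.2.2) := Primrec.snd.comp h1'
  have hlt : ∀ k : ℕ, PrimrecPred (fun x : (ℕ × ℕ × ℕ × ℕ) × ℕ => x.2 < k) := fun k =>
    Primrec.nat_lt.comp hm (Primrec.const k)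
  have hlin : ∀ (f : (ℕ × ℕ × ℕ × ℕ) × ℕ → ℕ) (k : ℕ), Primrec f →
      Primrec (fun x : (ℕ × ℕ × ℕ × ℕ) × ℕ => n + 2 * (4 * f x + (x.2 - k))) := by
    intro f k hf
    exact Primrec.nat_add.comp (Primrec.const n) (Primrec.nat_mul.comp (Primrec.const 2)
      (Primrec.nat_add.comp (Primrec.nat_mul.comp (Primrec.const 4) hf)
        (Primrec.nat_sub.comp hm (Primrec.const k))))
  have hp1 : Primrec (fun x : (ℕ × ℕ × ℕ × ℕ) × ℕ => Nat.pair x.1.2.2.1 x.1.2.2.2) :=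
    Primrec₂.natPair.comp h2 h3
  have hp2 : Primrec (fun x : (ℕ × ℕ × ℕ × ℕ) × ℕ =>
      Nat.pair x.1.2.1 (Nat.pair x.1.2.2.1 x.1.2.2.2)) := Primrec₂.natPair.comp h1 hp1
  have hp3 : Primrec (fun x : (ℕ × ℕ × ℕ × ℕ) × ℕ =>
      Nat.pair x.1.1 (Nat.pair x.1.2.1 (Nat.pair x.1.2.2.1 x.1.2.2.2))) :=
    Primrec₂.natPair.comp h0 hp2
  have hp4 : Primrec (fun x : (ℕ × ℕ × ℕ × ℕ) × ℕ =>
      Nat.pair (Nat.pair x.1.1 (Nat.pair x.1.2.1 (Nat.pair x.1.2.2.1 x.1.2.2.2))) x.2) :=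
    Primrec₂.natPair.comp hp3 hm
  have hp5 : Primrec (fun x : (ℕ × ℕ × ℕ × ℕ) × ℕ =>
      n + 2 * Nat.pair (Nat.pair x.1.1 (Nat.pair x.1.2.1 (Nat.pair x.1.2.2.1 x.1.2.2.2))) x.2
        + 1) :=
    Primrec.succ.comp (Primrec.nat_add.comp (Primrec.const n)
      (Primrec.nat_mul.comp (Primrec.const 2) hp4))
  exact Primrec.ite (hlt 2) hm (Primrec.ite (hlt 6) (hlin _ 2 h1) (Primrec.ite (hlt 10)
    (hlin _ 6 h2) (Primrec.ite (hlt 14) (hlin _ 10 h3) hp5)))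

theorem tcode_prim_aux : Primrec tcode := by
  have h : tcode = fun k => if k = 0 then codes tOne else if k = 1 then codes tAdd
      else codes tMul := by
    funext k
    unfold tcode tT
    split_ifs <;> rfl
  rw [h]
  generalize codes tOne = a
  generalize codes tAdd = b
  generalize codes tMul = c
  exact Primrec.ite (Primrec.eq.comp Primrec.id (Primrec.const 0)) (Primrec.const a)
    (Primrec.ite (Primrec.eq.comp Primrec.id (Primrec.const 1)) (Primrec.const b)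
      (Primrec.const c))

theorem tr_comp (n : ℕ) : Computable (tr n) := by
  refine Primrec.to_comp ?_
  unfold tr
  refine Primrec.list_flatMap Primrec.id ?_
  refine Primrec.list_map (tcode_prim_aux.comp (Primrec.fst.comp Primrec.snd)) ?_
  refine Primrec.list_map Primrec.snd ?_
  refine Primrec.pair (Primrec.fst.comp Primrec.snd) ?_
  refine Primrec.list_map (Primrec.snd.comp Primrec.snd) ?_
  have h := (ren_prim_aux n).comp (Primrec.pair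
    (Primrec.snd.comp (Primrec.fst.comp (Primrec.fst.comp (Primrec.fst (α :=
      ((List (ℕ × ℕ × ℕ × ℕ) × (ℕ × ℕ × ℕ × ℕ)) × Pol) × (ℤ × List ℕ)) (β := ℕ)))))
    (Primrec.snd (α := ((List (ℕ × ℕ × ℕ × ℕ) × (ℕ × ℕ × ℕ × ℕ)) × Pol) × (ℤ × List ℕ)) (β := ℕ)))
  exact h

end Pool.Agent.Helper344.Ent
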